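import Pool.Agent.Run7.h145.QP.E2

/-! The main theorem, for invariant sets: counting form. -/

set_option autoImplicit false

namespace Pool.Agent.Run7.h145.QP

open Finset Pool.Agent.H499R2.ND Pool.Agent.W41 Pool.Agent.H499R2.CO Filter Topology

theorem Tz_pos {x : ℤ} (h : 0 < x) : 0 < Tz 1 x := by
  unfold Tz; split_ifs <;> omega

theorem Tz_neg {x : ℤ} (h : x < 0) : Tz 1 x < 0 := by
  unfold Tz; split_ifs <;> omega

theorem Tz_zero : Tz 1 0 = 0 := by decide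

theorem iter_sign (t : ℕ) : ∀ x : ℤ, (0 < (Tz 1)^[t] x ↔ 0 < x) ∧ ((Tz 1)^[t] x < 0 ↔ x < 0) := by
  induction t with
  | zero => intro x; simp
  | succ t ih =>
    intro x
    rw [Function.iterate_succ_apply]
    have h := ih (Tz 1 x)
    rcases lt_trichotomy x 0 with hx | hx | hx
    · have := Tz_neg hx
      constructor
      · rw [h.1]; omega
      · rw [h.2]; omega
    · subst hx
      rw [Tz_zero] at h ⊢
      exact ih 0
    · have := Tz_pos hx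
      constructor
      · rw [h.1]; omega
      · rw [h.2]; omega

theorem iter_mem {S : Set ℤ} (hS : Inv 1 S) (t : ℕ) : ∀ x : ℤ, (Tz 1)^[t] x ∈ S ↔ x ∈ S := by
  induction t with
  | zero => intro x; simp
  | succ t ih =>
    intro x
    rw [Function.iterate_succ_apply, ih]
    exact (hS x).symm

theorem fS_mer {S : Set ℤ} (hS : Inv 1 S) {δ δ' : ℝ} (h : 0 ≤ δ ∧ δ ≤ 1) (h' : 0 ≤ δ' ∧ δ' ≤ 1) :
    Mer (fS S δ δ') := by
  refine ⟨fS_le S h h', fun t x y hxy => ?_⟩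
  have h1 : x ∈ S ↔ y ∈ S := by rw [← iter_mem hS t x, hxy, iter_mem hS t y]
  have h2 : 0 < x ↔ 0 < y := by rw [← (iter_sign t x).1, hxy, (iter_sign t y).1]
  have h3 : x < 0 ↔ y < 0 := by rw [← (iter_sign t x).2, hxy, (iter_sign t y).2]
  unfold fS
  simp only [h2, h3]
  congr 1
  by_cases hx : x ∈ S
  · rw [if_pos hx, if_pos (h1.1 hx)]
  · rw [if_neg hx, if_neg (fun hy => hx (h1.2 hy))]

variable {ι : Type} [Fintype ι] [DecidableEq ι]

theorem ncard_box (a b : ι → ℤ) (Q : (ι → ℤ) → Prop) [DecidablePred Q] :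
    {x : ι → ℤ | (∀ i, a i < x i ∧ x i ≤ b i) ∧ Q x}.ncard =
      #((Fintype.piFinset (fun i => Ioc (a i) (b i))).filter Q) := by
  have e : {x : ι → ℤ | (∀ i, a i < x i ∧ x i ≤ b i) ∧ Q x} =
      (((Fintype.piFinset (fun i => Ioc (a i) (b i))).filter Q : Finset (ι → ℤ)) : Set (ι → ℤ)) := by
    ext x
    simp only [Set.mem_ofPred_eq, coe_filter, Fintype.mem_piFinset, mem_Ioc]
  rw [e, Set.ncard_coe_finset]

/-- THE MAIN THEOREM. -/
theorem main_S (A : ι → ι → ℤ) {p q r s : ι} (hpq : p ≠ q) (hrs : r ≠ s)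
    (hdet : Sy A p r * Sy A q s - Sy A p s * Sy A q r ≠ 0) {B ε : ℝ} (hB : 0 < B) (hε : 0 < ε) :
    ∃ R₀ : ℕ, ∀ S : Set ℤ, Inv 1 S → ∀ δ δ' : ℝ, HD 1 S δ → HD (-1) S δ' →
      0 ≤ δ ∧ δ ≤ 1 → 0 ≤ δ' ∧ δ' ≤ 1 → ∀ R : ℕ, R₀ ≤ R →
      ∀ (l : ι → ℤ) (c : ℤ) (a b : ι → ℤ), (∀ i, |(l i : ℝ)| ≤ B * R) → |(c : ℝ)| ≤ B * R ^ 2 →
      (∀ i, |a i| ≤ R) → (∀ i, |b i| ≤ R) → ∀ u v : ℤ,
      |({x : ι → ℤ | (∀ i, a i < x i ∧ x i ≤ b i) ∧ (u < Pol A l c x ∧ Pol A l c x ≤ v) ∧ Pol A l c x ∈ S}.ncard : ℝ)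
        - δ * {x : ι → ℤ | (∀ i, a i < x i ∧ x i ≤ b i) ∧ (u < Pol A l c x ∧ Pol A l c x ≤ v) ∧ 0 < Pol A l c x}.ncard
        - δ' * {x : ι → ℤ | (∀ i, a i < x i ∧ x i ≤ b i) ∧ (u < Pol A l c x ∧ Pol A l c x ≤ v) ∧ Pol A l c x < 0}.ncard|
        ≤ ε * R ^ Fintype.card ι := by
  classical
  obtain ⟨ε', hε', h1⟩ := main_f A hpq hrs hdet hB hε
  obtain ⟨N₀, h2⟩ := avg_of hε'
  obtain ⟨R₀, h3⟩ := h1 N₀
  refine ⟨R₀, fun S hS δ δ' hδ hδ' b1 b2 R hR l c a b hl hc ha hb u v => ?_⟩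
  have h4 := h3 R hR (fS S δ δ') (fS_mer hS b1 b2) (h2 S hS δ δ' hδ hδ' b1 b2) l c a b hl hc ha hb u v
  refine le_trans (le_of_eq ?_) h4
  rw [ncard_box, ncard_box, ncard_box]
  congr 1
  have e : ∀ m : ℤ, rs u v (fS S δ δ') m =
      (if (u < m ∧ m ≤ v) ∧ m ∈ S then 1 else 0) - δ * (if (u < m ∧ m ≤ v) ∧ 0 < m then 1 else 0) -
        δ' * (if (u < m ∧ m ≤ v) ∧ m < 0 then 1 else 0) := by
    intro m
    unfold rs fS
    by_cases g1 : u < m ∧ m ≤ v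
    · simp only [g1, and_self, true_and, if_true]
      by_cases g2 : m ∈ S
      · rcases lt_trichotomy m 0 with g3 | g3 | g3
        · have g4 : ¬ 0 < m := by omega
          simp [g2, g3, g4]
        · subst g3; simp [g2]
        · have g4 : ¬ m < 0 := by omega
          simp [g2, g3, g4]
      · rcases lt_trichotomy m 0 with g3 | g3 | g3
        · have g4 : ¬ 0 < m := by omega
          simp [g2, g3, g4]
        · subst g3; simp [g2]
        · have g4 : ¬ m < 0 := by omega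
          simp [g2, g3, g4]
    · simp [g1]
  simp_rw [e]
  rw [sum_sub_distrib, sum_sub_distrib, ← mul_sum, ← mul_sum, ← sum_filter, ← sum_filter, ← sum_filter]
  simp only [sum_const, nsmul_eq_mul, mul_one]

end Pool.Agent.Run7.h145.QP
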