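import Mathlib
import Pool.Agent.H807R2.Dav1

/-! Sums of the majorant of geometric sums, near rational points. -/

set_option autoImplicit false

namespace Pool.Agent.Run7.h145.QP

open Finset Pool.Agent.H807R2.Dav

/-- sum of the majorant over the multiples of `θ` -/
noncomputable def GG (M : ℝ) (Y : ℕ) (θ : ℝ) : ℝ := ∑ m ∈ Icc 1 Y, KK M (m * θ)

theorem GG_nonneg {M : ℝ} (hM : 0 ≤ M) (Y : ℕ) (θ : ℝ) : 0 ≤ GG M Y θ :=
  sum_nonneg fun _ _ => KK_nonneg hM _

theorem sum_mod_le {q : ℕ} (hq : 1 ≤ q) (F : ℕ → ℝ) (hF : ∀ j, 0 ≤ F j) (Y : ℕ) :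
    ∑ m ∈ Icc 1 Y, F (m % q) ≤ ((Y : ℝ) / q + 1) * ∑ j ∈ range q, F j := by
  have hS : 0 ≤ ∑ j ∈ range q, F j := sum_nonneg fun j _ => hF j
  have hblocks : ∀ k : ℕ, ∑ j ∈ range (q * k), F ((j + 1) % q) = k * ∑ j ∈ range q, F j := by
    intro k
    induction k with
    | zero => simp
    | succ k ih =>
      rw [Nat.mul_succ, sum_range_add, ih]
      have h1 : ∑ x ∈ range q, F ((q * k + x + 1) % q) = ∑ j ∈ range q, F j := by
        obtain ⟨n, rfl⟩ : ∃ n, q = n + 1 := ⟨q - 1, by omega⟩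
        rw [sum_range_succ, sum_range_succ' F]
        congr 1
        · refine sum_congr rfl fun x hx => ?_
          rw [mem_range] at hx
          congr 1
          rw [add_assoc, Nat.mul_add_mod]
          exact Nat.mod_eq_of_lt (by omega)
        · congr 1
          rw [add_assoc, Nat.mul_add_mod, Nat.mod_self]
      rw [h1]
      push_cast
      ring
  have h1 : Y ≤ q * (Y / q + 1) := by
    have := Nat.div_add_mod Y q
    have h2 := Nat.mod_lt Y (by omega : 0 < q)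
    nlinarith
  have h0 : ∑ m ∈ Icc 1 Y, F (m % q) = ∑ j ∈ range Y, F ((j + 1) % q) := by
    clear h1
    induction Y with
    | zero => simp
    | succ n ih => rw [sum_Icc_succ_top (by omega), sum_range_succ, ih]
  rw [h0]
  calc ∑ j ∈ range Y, F ((j + 1) % q) ≤ ∑ j ∈ range (q * (Y / q + 1)), F ((j + 1) % q) := by
        apply sum_le_sum_of_subset_of_nonneg (range_subset_range.2 h1)
        intro j _ _
        exact hF _
    _ = ((Y / q + 1 : ℕ) : ℝ) * ∑ j ∈ range q, F j := hblocks _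
    _ ≤ _ := by
        apply mul_le_mul_of_nonneg_right _ hS
        push_cast
        have := @Nat.cast_div_le ℝ _ _ _ Y q
        linarith

theorem dd_ge_half {t : ℝ} (h : |t| ≤ 1 / 2) : 4 * |t| ≤ dd t := by
  rcases le_total 0 t with h0 | h0
  · rw [abs_of_nonneg h0] at h ⊢
    have := dd_ge h0 (by linarith)
    rwa [min_eq_left (by linarith)] at this
  · rw [abs_of_nonpos h0] at h ⊢
    rw [← dd_neg]
    have := dd_ge (t := -t) (by linarith) (by linarith)
    rwa [min_eq_left (by linarith)] at this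

/-- residues not divisible by `q` -/
theorem kk_res {q : ℕ} (hq : 1 ≤ q) {a : ℤ} {β : ℝ} {Y m : ℕ} (hm : m ≤ Y)
    (hβ : 4 * q * Y * |β| ≤ 1) (hmq : ¬ (q : ℤ) ∣ m * a) {M : ℝ} (hM : 0 ≤ M) :
    KK M (m * ((a : ℝ) / q + β)) ≤
      (3 * q / 2) * (1 / (((m * a) % q).toNat : ℝ) + 1 / ((q : ℝ) - ((m * a) % q).toNat)) := by
  have hq0 : (0 : ℝ) < q := by exact_mod_cast hq
  set R : ℕ := ((m * a) % (q : ℤ)).toNat with hR
  have hqz : (q : ℤ) ≠ 0 := by omega
  have hRcast : ((R : ℕ) : ℤ) = (m * a) % (q : ℤ) := Int.toNat_of_nonneg (Int.emod_nonneg _ hqz)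
  have hR1 : R < q := by
    have h1 := Int.emod_lt_of_pos (m * a) (by omega : (0 : ℤ) < q)
    omega
  have hR0 : 0 < R := by
    rcases Nat.eq_zero_or_pos R with h | h
    · exfalso
      apply hmq
      apply Int.dvd_of_emod_eq_zero
      rw [← hRcast, h]; rfl
    · exact h
  have hR1r : (R : ℝ) + 1 ≤ q := by exact_mod_cast hR1
  have hR0r : (1 : ℝ) ≤ R := by exact_mod_cast hR0
  obtain ⟨k, hk⟩ : ∃ k : ℤ, (m : ℤ) * a = R + q * k := ⟨(m * a) / q, by
    rw [hRcast]; exact (Int.emod_add_mul_ediv _ _).symm⟩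
  have e1 : (m : ℝ) * ((a : ℝ) / q + β) = (R / q + m * β) + (k : ℤ) := by
    have : (m : ℝ) * a = R + q * k := by exact_mod_cast hk
    field_simp
    linear_combination this
  have h2 : dd ((m : ℝ) * ((a : ℝ) / q + β)) = dd (R / q + m * β) := by
    rw [e1, dd_add_int]
  have hx0 : 0 ≤ (R : ℝ) / q := by positivity
  have hx1 : (R : ℝ) / q ≤ 1 := by rw [div_le_one hq0]; linarith
  have h3 := dd_ge hx0 hx1
  have h4 := dd_add_ge (R / q) (m * β)
  have h5 : |(m : ℝ) * β| ≤ 1 / (4 * q) := by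
    rw [abs_mul, Nat.abs_cast]
    have hm' : (m : ℝ) ≤ Y := by exact_mod_cast hm
    rw [le_div_iff₀ (by positivity)]
    calc (m : ℝ) * |β| * (4 * q) ≤ Y * |β| * (4 * q) := by gcongr
      _ = 4 * q * Y * |β| := by ring
      _ ≤ 1 := hβ
  have hπ := Real.pi_lt_four
  have h6 : 2 * Real.pi * |(m : ℝ) * β| ≤ 2 / q := by
    calc 2 * Real.pi * |(m : ℝ) * β| ≤ 2 * 4 * (1 / (4 * q)) := by gcongr
      _ = 2 / q := by field_simp
  have h7 : 1 / (q : ℝ) ≤ min ((R : ℝ) / q) (1 - R / q) := by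
    apply le_min
    · exact div_le_div_of_nonneg_right hR0r hq0.le
    · rw [le_sub_iff_add_le, ← add_div, div_le_one hq0]; linarith
  set μ := min ((R : ℝ) / q) (1 - R / q) with hμ
  have hμ0 : 0 < μ := lt_of_lt_of_le (by positivity) h7
  have h8 : 2 * μ ≤ dd ((m : ℝ) * ((a : ℝ) / q + β)) := by
    rw [h2]
    have : 2 / (q : ℝ) = 2 * (1 / q) := by ring
    linarith
  have h9 := KK_le' hM (by positivity : 0 < 2 * μ) h8
  refine h9.trans ?_
  have h10 : 1 / μ ≤ 1 / ((R : ℝ) / q) + 1 / (1 - R / q) := by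
    have p1 : 0 < (R : ℝ) / q := by positivity
    have p2 : 0 < 1 - (R : ℝ) / q := by rw [sub_pos, div_lt_one hq0]; linarith
    rcases min_choice ((R : ℝ) / q) (1 - R / q) with h | h
    · rw [hμ, h]; have : 0 < 1 / (1 - (R : ℝ) / q) := by positivity
      linarith
    · rw [hμ, h]; have : 0 < 1 / ((R : ℝ) / q) := by positivity
      linarith
  have e2 : 1 / ((R : ℝ) / q) = q * (1 / R) := by field_simp
  have e3 : 1 / (1 - (R : ℝ) / q) = q * (1 / (q - R)) := by
    have : (q : ℝ) - R ≠ 0 := by linarith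
    field_simp
  rw [e2, e3] at h10
  calc 3 / (2 * μ) = 3 / 2 * (1 / μ) := by field_simp
    _ ≤ 3 / 2 * (q * (1 / R) + q * (1 / (q - R))) := by gcongr
    _ = _ := by ring

/-- the sum of the bounds over the residues -/
theorem res_sum {q : ℕ} (hq : 1 ≤ q) {a : ℤ} (hcop : IsCoprime a (q : ℤ)) :
    ∑ j ∈ (range q).filter (fun j : ℕ => ¬ (q : ℤ) ∣ j * a),
      (3 * q / 2) * (1 / (((j * a) % q).toNat : ℝ) + 1 / ((q : ℝ) - ((j * a) % q).toNat)) ≤
      3 * q * (1 + Real.log q) := by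
  have hq0 : (0 : ℝ) < q := by exact_mod_cast hq
  set R : ℕ → ℕ := fun j => ((j * a) % (q : ℤ)).toNat with hR
  have hqz : (q : ℤ) ≠ 0 := by omega
  have hRcast : ∀ j, ((R j : ℕ) : ℤ) = (j * a) % (q : ℤ) := fun j =>
    Int.toNat_of_nonneg (Int.emod_nonneg _ hqz)
  have hRlt : ∀ j, R j < q := by
    intro j
    have h1 := Int.emod_lt_of_pos (j * a) (by omega : (0 : ℤ) < q)
    have h2 := hRcast j
    omega
  have hinj : Set.InjOn R ((range q).filter (fun j : ℕ => ¬ (q : ℤ) ∣ j * a) : Set ℕ) := by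
    intro i hi j hj hij
    have hi' : i < q := by simpa using (mem_filter.1 hi).1
    have hj' : j < q := by simpa using (mem_filter.1 hj).1
    have h1 : (i * a) % (q : ℤ) = (j * a) % (q : ℤ) := by
      rw [← hRcast, ← hRcast, hij]
    have h2 : (q : ℤ) ∣ (i * a) - (j * a) := Int.ModEq.dvd (Int.ModEq.symm h1)
    have h3 : (q : ℤ) ∣ a * ((i : ℤ) - j) := by
      have : (i * a) - (j * a) = a * ((i : ℤ) - j) := by ring
      rwa [this] at h2
    have h4 : (q : ℤ) ∣ (i : ℤ) - j := (hcop.symm).dvd_of_dvd_mul_left h3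
    obtain ⟨k, hk⟩ := h4
    have hk0 : k = 0 := by
      by_contra hne
      rcases lt_or_gt_of_ne hne with h | h
      · have : (q : ℤ) * k ≤ -q := by nlinarith
        omega
      · have : (q : ℤ) ≤ q * k := by nlinarith
        omega
    rw [hk0, mul_zero] at hk
    omega
  have h0 : ∀ r ∈ range q, 0 ≤ (3 * (q : ℝ) / 2) * (1 / (r : ℝ) + 1 / ((q : ℝ) - r)) := by
    intro r hr
    have h1 : (r : ℝ) < q := by exact_mod_cast mem_range.1 hr
    have : 0 < (q : ℝ) - r := by linarith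
    positivity
  calc ∑ j ∈ (range q).filter (fun j : ℕ => ¬ (q : ℤ) ∣ j * a),
      (3 * (q : ℝ) / 2) * (1 / (R j : ℝ) + 1 / ((q : ℝ) - R j))
      = ∑ r ∈ ((range q).filter (fun j : ℕ => ¬ (q : ℤ) ∣ j * a)).image R,
        (3 * (q : ℝ) / 2) * (1 / (r : ℝ) + 1 / ((q : ℝ) - r)) := by
          rw [sum_image hinj]
    _ ≤ ∑ r ∈ range q, (3 * (q : ℝ) / 2) * (1 / (r : ℝ) + 1 / ((q : ℝ) - r)) := by
        apply sum_le_sum_of_subset_of_nonneg
        · intro r hr
          obtain ⟨j, -, rfl⟩ := mem_image.1 hr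
          exact mem_range.2 (hRlt j)
        · intro r hr _
          exact h0 r hr
    _ = (3 * q / 2) * (∑ r ∈ range q, 1 / (r : ℝ) + ∑ r ∈ range q, 1 / ((q : ℝ) - r)) := by
        rw [← mul_sum, sum_add_distrib]
    _ ≤ (3 * q / 2) * ((1 + Real.log q) + (1 + Real.log q)) := by
        have h1 := sum_inv_range q
        have h2 := sum_inv_range' q
        gcongr
    _ = _ := by ring

theorem one_le_log {n : ℕ} : 0 ≤ Real.log n := Real.log_natCast_nonneg n

/-- The multiples `m` of `θ`, `q ∤ m`. -/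
theorem gg_ndvd {q : ℕ} (hq : 1 ≤ q) {a : ℤ} (hcop : IsCoprime a (q : ℤ)) {β : ℝ} {Y : ℕ}
    (hβ : 4 * q * Y * |β| ≤ 1) {M : ℝ} (hM : 0 ≤ M) :
    ∑ m ∈ (Icc 1 Y).filter (fun m : ℕ => ¬ q ∣ m), KK M (m * ((a : ℝ) / q + β)) ≤
      ((Y : ℝ) / q + 1) * (3 * q * (1 + Real.log q)) := by
  classical
  have hq0 : (0 : ℝ) < q := by exact_mod_cast hq
  have hqz : (0 : ℤ) < q := by exact_mod_cast hq
  set F : ℕ → ℝ := fun j => if (q : ℤ) ∣ j * a ∨ ¬ j < q then 0 else
    (3 * q / 2) * (1 / (((j * a) % q).toNat : ℝ) + 1 / ((q : ℝ) - ((j * a) % q).toNat)) with hF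
  have hF0 : ∀ j, 0 ≤ F j := by
    intro j
    rw [hF]
    dsimp only
    split_ifs with h
    · exact le_rfl
    · have h1 : ((j * a) % (q : ℤ)).toNat < q := by
        have h1 := Int.emod_lt_of_pos (j * a) hqz
        omega
      have h1' : ((((j * a) % (q : ℤ)).toNat : ℕ) : ℝ) < q := by exact_mod_cast h1
      have : 0 < (q : ℝ) - ((((j * a) % (q : ℤ)).toNat : ℕ) : ℝ) := by linarith
      positivity
  have hdv : ∀ m : ℕ, (q : ℤ) ∣ m * a ↔ q ∣ m := by
    intro m
    constructor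
    · intro h
      have := (hcop.symm).dvd_of_dvd_mul_right h
      exact_mod_cast this
    · intro h
      exact Dvd.dvd.mul_right (by exact_mod_cast h) _
  have h1 : ∀ m ∈ (Icc 1 Y).filter (fun m : ℕ => ¬ q ∣ m), KK M (m * ((a : ℝ) / q + β)) ≤ F (m % q) := by
    intro m hm
    rw [mem_filter, mem_Icc] at hm
    have h2 := kk_res hq hm.1.2 hβ (fun h => hm.2 ((hdv m).1 h)) hM
    refine h2.trans (le_of_eq ?_)
    have h3 : m % q < q := Nat.mod_lt _ (by omega)
    have h4 : ¬ (q : ℤ) ∣ ((m % q : ℕ) : ℤ) * a := by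
      rw [hdv]
      intro h
      exact hm.2 ((Nat.dvd_mod_iff dvd_rfl).1 h)
    rw [hF]
    dsimp only
    rw [if_neg (by push Not; exact ⟨h4, h3⟩)]
    have h5 : (((m % q : ℕ) : ℤ) * a) % (q : ℤ) = (m * a) % (q : ℤ) := by
      rw [Int.natCast_mod]
      exact (Int.mod_modEq (m : ℤ) q).mul_right a
    rw [h5]
  calc ∑ m ∈ (Icc 1 Y).filter (fun m : ℕ => ¬ q ∣ m), KK M (m * ((a : ℝ) / q + β))
      ≤ ∑ m ∈ (Icc 1 Y).filter (fun m : ℕ => ¬ q ∣ m), F (m % q) := sum_le_sum h1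
    _ ≤ ∑ m ∈ Icc 1 Y, F (m % q) :=
        sum_le_sum_of_subset_of_nonneg (filter_subset _ _) fun _ _ _ => hF0 _
    _ ≤ ((Y : ℝ) / q + 1) * ∑ j ∈ range q, F j := sum_mod_le hq F hF0 Y
    _ ≤ _ := by
        apply mul_le_mul_of_nonneg_left _ (by positivity)
        refine le_trans (le_of_eq ?_) (res_sum hq hcop)
        rw [sum_filter]
        refine sum_congr rfl fun j hj => ?_
        rw [mem_range] at hj
        rw [hF]
        dsimp only
        by_cases h : (q : ℤ) ∣ j * a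
        · rw [if_pos (Or.inl h), if_neg (not_not.2 h)]
        · rw [if_neg (by push Not; exact ⟨h, hj⟩), if_pos h]

theorem sum_inv_Icc (n : ℕ) : ∑ k ∈ Icc 1 n, 1 / (k : ℝ) ≤ 1 + Real.log n := by
  have h1 := harmonic_le_one_add_log n
  refine le_trans (le_of_eq ?_) h1
  rw [harmonic_eq_sum_Icc]
  push_cast
  refine sum_congr rfl fun k _ => by rw [one_div]

/-- The multiples `m` of `θ`, `q ∣ m`. -/
theorem gg_dvd {q : ℕ} (hq : 1 ≤ q) {a : ℤ} {β : ℝ} {Y : ℕ}
    (hβ : 4 * q * Y * |β| ≤ 1) {M : ℝ} (hM : 0 ≤ M) :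
    ∑ m ∈ (Icc 1 Y).filter (fun m : ℕ => q ∣ m), KK M (m * ((a : ℝ) / q + β)) ≤
      3 * M * Y / q * (1 + Real.log Y) / (1 + 4 * M * Y * |β|) := by
  have hq0 : (0 : ℝ) < q := by exact_mod_cast hq
  have hβ0 := abs_nonneg β
  have e1 : (Icc 1 Y).filter (fun m : ℕ => q ∣ m) = (Icc 1 (Y / q)).image (fun k => q * k) := by
    ext m
    simp only [mem_filter, mem_Icc, mem_image]
    constructor
    · rintro ⟨⟨h1, h2⟩, k, rfl⟩
      refine ⟨k, ⟨?_, ?_⟩, rfl⟩
      · rcases Nat.eq_zero_or_pos k with h | h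
        · subst h; simp at h1
        · exact h
      · rw [Nat.le_div_iff_mul_le (by omega)]
        rwa [mul_comm]
    · rintro ⟨k, ⟨h1, h2⟩, rfl⟩
      rw [Nat.le_div_iff_mul_le (by omega)] at h2
      exact ⟨⟨Nat.mul_pos (by omega) (by omega), by rwa [mul_comm] at h2⟩, dvd_mul_right _ _⟩
  rw [e1, sum_image (fun x _ y _ h => Nat.eq_of_mul_eq_mul_left (by omega) h)]
  have hD : 0 < 1 + 4 * M * Y * |β| := by positivity
  have key : ∀ k ∈ Icc 1 (Y / q), KK M (((q * k : ℕ) : ℝ) * ((a : ℝ) / q + β)) ≤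
      3 * M * Y / q / (1 + 4 * M * Y * |β|) * (1 / (k : ℝ)) := by
    intro k hk
    rw [mem_Icc] at hk
    have hk1 : (1 : ℝ) ≤ k := by exact_mod_cast hk.1
    have e2 : ((q * k : ℕ) : ℝ) * ((a : ℝ) / q + β) = (q * k) * β + ((k * a : ℤ) : ℝ) := by
      push_cast
      field_simp
      ring
    have hkY : (q : ℝ) * k ≤ Y := by
      have := hk.2
      rw [Nat.le_div_iff_mul_le (by omega), mul_comm] at this
      exact_mod_cast this
    have h1 : |(q * k : ℝ) * β| ≤ 1 / 2 := by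
      rw [abs_mul, abs_of_nonneg (by positivity)]
      have h2 : (q : ℝ) * k ≤ q * Y := by
        have : (k : ℝ) ≤ Y := by
          have h3 := hk.2
          have h4 := Nat.div_le_self Y q
          exact_mod_cast h3.trans h4
        gcongr
      calc (q : ℝ) * k * |β| ≤ q * Y * |β| := by gcongr
        _ ≤ 1 / 2 := by nlinarith [abs_nonneg β]
    have h2 := dd_ge_half h1
    rw [abs_mul, abs_of_nonneg (by positivity : (0 : ℝ) ≤ q * k)] at h2
    rw [← dd_add_int _ (k * a), ← e2] at h2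
    unfold KK
    have h3 : 0 ≤ dd (((q * k : ℕ) : ℝ) * ((a : ℝ) / q + β)) := dd_nonneg _
    calc 3 * M / (1 + M * dd (((q * k : ℕ) : ℝ) * ((a : ℝ) / q + β)))
        ≤ 3 * M / (1 + M * (4 * (q * k * |β|))) := by gcongr
      _ ≤ 3 * M * Y / q / (1 + 4 * M * Y * |β|) * (1 / (k : ℝ)) := by
          rw [div_mul_div_comm, mul_one, div_le_div_iff₀ (by positivity) (by positivity)]
          have e3 : 3 * M * Y / q * (1 + M * (4 * (q * k * |β|))) =
              3 * M * (Y / q) + 12 * M ^ 2 * Y * k * |β| := by field_simp; ring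
          rw [e3]
          have h4 : (k : ℝ) ≤ Y / q := by rw [le_div_iff₀ hq0]; linarith
          have h5 : 3 * M * k ≤ 3 * M * (Y / q) := by gcongr
          calc 3 * M * ((1 + 4 * M * Y * |β|) * k) = 3 * M * k + 12 * M ^ 2 * Y * k * |β| := by ring
            _ ≤ _ := by linarith
  refine (sum_le_sum key).trans ?_
  rw [← mul_sum]
  have h1 := sum_inv_Icc (Y / q)
  have h2 : Real.log ((Y / q : ℕ) : ℝ) ≤ Real.log Y := by
    rcases Nat.eq_zero_or_pos (Y / q) with h | h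
    · rw [h]; simp only [Nat.cast_zero, Real.log_zero]; exact one_le_log
    · apply Real.log_le_log (by exact_mod_cast h)
      exact_mod_cast Nat.div_le_self Y q
  calc 3 * M * Y / q / (1 + 4 * M * Y * |β|) * ∑ k ∈ Icc 1 (Y / q), 1 / (k : ℝ)
      ≤ 3 * M * Y / q / (1 + 4 * M * Y * |β|) * (1 + Real.log Y) := by
        apply mul_le_mul_of_nonneg_left (h1.trans (by linarith)) (by positivity)
    _ = _ := by ring

/-- The bound on an arc. -/
theorem gg_arc {q : ℕ} (hq : 1 ≤ q) {a : ℤ} (hcop : IsCoprime a (q : ℤ)) {θ : ℝ} {Y : ℕ} (hY : 1 ≤ Y)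
    (hqY : q ≤ 4 * Y) (hβ : 4 * q * Y * |θ - a / q| ≤ 1) {M : ℝ} (hM : 0 ≤ M) :
    GG M Y θ ≤ 15 * Y * (1 + Real.log (4 * Y)) +
      3 * M * Y / q * (1 + Real.log (4 * Y)) / (1 + 4 * M * Y * |θ - a / q|) := by
  have hq0 : (0 : ℝ) < q := by exact_mod_cast hq
  have hY1 : (1 : ℝ) ≤ Y := by exact_mod_cast hY
  have hqY' : (q : ℝ) ≤ 4 * Y := by exact_mod_cast hqY
  set β := θ - a / q with hβd
  have e : θ = (a : ℝ) / q + β := by rw [hβd]; ring
  have h1 := gg_ndvd hq hcop hβ hM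
  have h2 := gg_dvd (a := a) hq hβ hM
  have hlq : Real.log q ≤ Real.log (4 * Y) := Real.log_le_log hq0 hqY'
  have hlY : Real.log Y ≤ Real.log (4 * Y) := Real.log_le_log (by linarith) (by linarith)
  have hl0 : 0 ≤ Real.log (q : ℝ) := one_le_log
  unfold GG
  rw [e, ← sum_filter_add_sum_filter_not (Icc 1 Y) (fun m : ℕ => q ∣ m), add_comm]
  apply add_le_add
  · refine h1.trans ?_
    calc ((Y : ℝ) / q + 1) * (3 * q * (1 + Real.log q)) = 3 * (Y + q) * (1 + Real.log q) := by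
          field_simp
      _ ≤ 3 * (Y + 4 * Y) * (1 + Real.log (4 * Y)) := by gcongr
      _ = _ := by ring
  · refine h2.trans ?_
    gcongr

end Pool.Agent.Run7.h145.QP
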