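import Pool.Agent.Run7.h145.QP.A1

/-! The majorant near zero, and its mean square there. -/

set_option autoImplicit false

namespace Pool.Agent.Run7.h145.QP

open Finset Pool.Agent.H807R2.Dav

theorem sum_rpow_le (Y : ℕ) : ∑ m ∈ Icc 1 Y, (m : ℝ) ^ (-(3 / 4) : ℝ) ≤ 4 * (Y : ℝ) ^ (1 / 4 : ℝ) := by
  induction Y with
  | zero => simp
  | succ n ih =>
    rw [sum_Icc_succ_top (by omega)]
    have hn : (0 : ℝ) ≤ n := Nat.cast_nonneg _
    set x : ℝ := ((n + 1 : ℕ) : ℝ) ^ (1 / 4 : ℝ) with hx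
    set y : ℝ := (n : ℝ) ^ (1 / 4 : ℝ) with hy
    have hn1 : (0 : ℝ) < ((n + 1 : ℕ) : ℝ) := by positivity
    have hx0 : 0 < x := by rw [hx]; positivity
    have hy0 : 0 ≤ y := by rw [hy]; positivity
    have hx4 : x ^ 4 = n + 1 := by
      rw [hx, ← Real.rpow_natCast, ← Real.rpow_mul hn1.le]; norm_num
    have hy4 : y ^ 4 = n := by
      rw [hy, ← Real.rpow_natCast, ← Real.rpow_mul hn]; norm_num
    have hyx : y ≤ x := by
      rw [hx, hy]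
      exact Real.rpow_le_rpow hn (by push_cast; linarith) (by norm_num)
    have e : ((n + 1 : ℕ) : ℝ) ^ (-(3 / 4) : ℝ) = 1 / x ^ 3 := by
      rw [Real.rpow_neg hn1.le, hx, ← Real.rpow_natCast, ← Real.rpow_mul hn1.le, one_div]
      norm_num
    rw [e]
    have h1 : 1 / x ^ 3 ≤ 4 * (x - y) := by
      rw [div_le_iff₀ (by positivity)]
      have h2 : x ^ 4 - y ^ 4 = 1 := by rw [hx4, hy4]; ring
      have h3 : x ^ 4 - y ^ 4 = (x - y) * (x ^ 3 + x ^ 2 * y + x * y ^ 2 + y ^ 3) := by ring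
      have h4 : x ^ 3 + x ^ 2 * y + x * y ^ 2 + y ^ 3 ≤ 4 * x ^ 3 := by
        have p1 : x ^ 2 * y ≤ x ^ 2 * x := by gcongr
        have p2 : x * y ^ 2 ≤ x * x ^ 2 := by gcongr
        have p3 : y ^ 3 ≤ x ^ 3 := by gcongr
        nlinarith
      have h5 : (x - y) * (x ^ 3 + x ^ 2 * y + x * y ^ 2 + y ^ 3) ≤ (x - y) * (4 * x ^ 3) :=
        mul_le_mul_of_nonneg_left h4 (by linarith)
      nlinarith
    linarith

theorem KK_small {M t : ℝ} (hM : 0 < M) (ht : 0 < t) (h : t ≤ 1 / 2) :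
    KK M t ≤ 3 * M ^ (1 / 4 : ℝ) * t ^ (-(3 / 4) : ℝ) := by
  have h1 := dd_ge_half (t := t) (by rw [abs_of_pos ht]; exact h)
  rw [abs_of_pos ht] at h1
  have hz : 0 < M * t := by positivity
  have h2 : (M * t) ^ (3 / 4 : ℝ) ≤ 1 + M * dd t := by
    have h3 : M * t ≤ M * dd t := by
      apply mul_le_mul_of_nonneg_left _ hM.le
      linarith
    rcases le_total (M * t) 1 with h4 | h4
    · have := Real.rpow_le_one hz.le h4 (by norm_num : (0 : ℝ) ≤ 3 / 4)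
      linarith
    · have := Real.rpow_le_rpow_of_exponent_le h4 (by norm_num : (3 / 4 : ℝ) ≤ 1)
      rw [Real.rpow_one] at this
      linarith
  unfold KK
  calc 3 * M / (1 + M * dd t) ≤ 3 * M / (M * t) ^ (3 / 4 : ℝ) := by gcongr
    _ = 3 * M ^ (1 / 4 : ℝ) * t ^ (-(3 / 4) : ℝ) := by
        rw [Real.mul_rpow hM.le ht.le, Real.rpow_neg ht.le]
        have e : M = M ^ (1 / 4 : ℝ) * M ^ (3 / 4 : ℝ) := by
          rw [← Real.rpow_add hM]; norm_num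
        have p1 : M ^ (3 / 4 : ℝ) ≠ 0 := by positivity
        have p2 : t ^ (3 / 4 : ℝ) ≠ 0 := by positivity
        field_simp
        linear_combination e

/-- the majorant of the Weyl sums -/
noncomputable def GM (M : ℝ) (Y : ℕ) (θ : ℝ) : ℝ := 3 * M + 2 * GG M Y θ

theorem GM_nonneg {M : ℝ} (hM : 0 ≤ M) (Y : ℕ) (θ : ℝ) : 0 ≤ GM M Y θ := by
  unfold GM
  have := GG_nonneg hM Y θ
  positivity

theorem gm_small {M θ : ℝ} {Y : ℕ} (hM : 0 < M) (hMY : M ≤ Y) (hY : 1 ≤ Y) (hθ : 0 < θ) (h : 4 * Y * θ ≤ 1) :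
    GM M Y θ ≤ 27 * (M * Y) ^ (1 / 4 : ℝ) * θ ^ (-(3 / 4) : ℝ) := by
  have hY1 : (1 : ℝ) ≤ Y := by exact_mod_cast hY
  have hY0 : (0 : ℝ) < Y := by linarith
  have h1 : GG M Y θ ≤ 12 * (M * Y) ^ (1 / 4 : ℝ) * θ ^ (-(3 / 4) : ℝ) := by
    unfold GG
    calc ∑ m ∈ Icc 1 Y, KK M (m * θ) ≤
        ∑ m ∈ Icc 1 Y, 3 * M ^ (1 / 4 : ℝ) * θ ^ (-(3 / 4) : ℝ) * (m : ℝ) ^ (-(3 / 4) : ℝ) := by
          apply sum_le_sum
          intro m hm
          rw [mem_Icc] at hm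
          have hm0 : (0 : ℝ) < m := by exact_mod_cast hm.1
          have hmY : (m : ℝ) ≤ Y := by exact_mod_cast hm.2
          have h2 : (m : ℝ) * θ ≤ 1 / 2 := by
            have : (m : ℝ) * θ ≤ Y * θ := by gcongr
            nlinarith
          refine (KK_small hM (by positivity) h2).trans (le_of_eq ?_)
          rw [Real.mul_rpow hm0.le hθ.le]
          ring
      _ = 3 * M ^ (1 / 4 : ℝ) * θ ^ (-(3 / 4) : ℝ) * ∑ m ∈ Icc 1 Y, (m : ℝ) ^ (-(3 / 4) : ℝ) := by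
          rw [mul_sum]
      _ ≤ 3 * M ^ (1 / 4 : ℝ) * θ ^ (-(3 / 4) : ℝ) * (4 * (Y : ℝ) ^ (1 / 4 : ℝ)) := by
          have := sum_rpow_le Y
          gcongr
      _ = _ := by rw [Real.mul_rpow hM.le hY0.le]; ring
  have h2 : M ≤ (M * Y) ^ (1 / 4 : ℝ) * θ ^ (-(3 / 4) : ℝ) := by
    have h3 : (Y : ℝ) ^ (3 / 4 : ℝ) ≤ θ ^ (-(3 / 4) : ℝ) := by
      rw [Real.rpow_neg hθ.le, ← Real.inv_rpow hθ.le]
      apply Real.rpow_le_rpow hY0.le _ (by norm_num)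
      rw [← one_div, le_div_iff₀ hθ]
      nlinarith
    have h4 : (M * M) ^ (1 / 4 : ℝ) * M ^ (1 / 2 : ℝ) = M := by
      rw [Real.mul_rpow hM.le hM.le, ← Real.rpow_add hM, ← Real.rpow_add hM]
      norm_num
    have h5 : M ^ (1 / 2 : ℝ) ≤ (Y : ℝ) ^ (3 / 4 : ℝ) := by
      calc M ^ (1 / 2 : ℝ) ≤ (Y : ℝ) ^ (1 / 2 : ℝ) := Real.rpow_le_rpow hM.le hMY (by norm_num)
        _ ≤ _ := Real.rpow_le_rpow_of_exponent_le hY1 (by norm_num)
    calc M = (M * M) ^ (1 / 4 : ℝ) * M ^ (1 / 2 : ℝ) := h4.symm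
      _ ≤ (M * Y) ^ (1 / 4 : ℝ) * (Y : ℝ) ^ (3 / 4 : ℝ) := by
          apply mul_le_mul _ h5 (by positivity) (by positivity)
          exact Real.rpow_le_rpow (by positivity) (mul_le_mul_of_nonneg_left hMY hM.le) (by norm_num)
      _ ≤ _ := by gcongr
  unfold GM
  nlinarith

open MeasureTheory in
/-- The mean square near zero. -/
theorem int_small {M : ℝ} {Y : ℕ} (hM : 0 < M) (hMY : M ≤ Y) (hY : 1 ≤ Y) {δ : ℝ} (hδ : 0 < δ)
    (hδ1 : 4 * Y * δ ≤ 1) {F : ℝ → ℝ} (hF : Continuous F)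
    (h : ∀ θ : ℝ, δ ≤ θ → F θ ≤ GM M Y θ ^ 2) :
    ∫ θ in δ..(1 / (4 * Y)), F θ ≤ 1458 * (M * Y) ^ (1 / 2 : ℝ) * δ ^ (-(1 / 2) : ℝ) := by
  have hY1 : (1 : ℝ) ≤ Y := by exact_mod_cast hY
  have hY0 : (0 : ℝ) < Y := by linarith
  have hle : δ ≤ 1 / (4 * Y) := by rw [le_div_iff₀ (by positivity)]; linarith
  have h1 : ∫ θ in δ..(1 / (4 * Y)), F θ ≤
      ∫ θ in δ..(1 / (4 * Y)), 729 * (M * Y) ^ (1 / 2 : ℝ) * θ ^ (-(3 / 2) : ℝ) := by
    apply intervalIntegral.integral_mono_on hle (hF.intervalIntegrable _ _)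
    · apply ContinuousOn.intervalIntegrable
      rw [Set.uIcc_of_le hle]
      apply ContinuousOn.mul continuousOn_const
      apply ContinuousOn.rpow_const continuousOn_id
      intro x hx
      left
      exact (lt_of_lt_of_le hδ hx.1).ne'
    · intro θ hθ
      have hθ0 : 0 < θ := lt_of_lt_of_le hδ hθ.1
      have h2 : 4 * Y * θ ≤ 1 := by
        have := hθ.2
        rw [le_div_iff₀ (by positivity)] at this
        linarith
      refine (h θ hθ.1).trans ?_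
      have h3 := gm_small hM hMY hY hθ0 h2
      calc GM M Y θ ^ 2 ≤ (27 * (M * Y) ^ (1 / 4 : ℝ) * θ ^ (-(3 / 4) : ℝ)) ^ 2 :=
            pow_le_pow_left₀ (GM_nonneg hM.le _ _) h3 2
        _ = 729 * ((M * Y) ^ (1 / 4 : ℝ)) ^ 2 * (θ ^ (-(3 / 4) : ℝ)) ^ 2 := by ring
        _ = _ := by
            rw [← Real.rpow_natCast, ← Real.rpow_natCast, ← Real.rpow_mul (by positivity),
              ← Real.rpow_mul hθ0.le]
            norm_num
  refine h1.trans ?_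
  rw [intervalIntegral.integral_const_mul, integral_rpow]
  · have e : (-(3 / 2) : ℝ) + 1 = -(1 / 2) := by norm_num
    rw [e]
    have h2 : (0 : ℝ) ≤ (1 / (4 * Y) : ℝ) ^ (-(1 / 2) : ℝ) := by positivity
    have h3 : 0 ≤ (M * Y) ^ (1 / 2 : ℝ) := by positivity
    have h4 : ((1 / (4 * Y) : ℝ) ^ (-(1 / 2) : ℝ) - δ ^ (-(1 / 2) : ℝ)) / (-(1 / 2)) ≤ 2 * δ ^ (-(1 / 2) : ℝ) := by
      linarith
    calc 729 * (M * Y) ^ (1 / 2 : ℝ) * (((1 / (4 * Y) : ℝ) ^ (-(1 / 2) : ℝ) - δ ^ (-(1 / 2) : ℝ)) / (-(1 / 2)))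
        ≤ 729 * (M * Y) ^ (1 / 2 : ℝ) * (2 * δ ^ (-(1 / 2) : ℝ)) := by gcongr
      _ = _ := by ring
  · right
    refine ⟨by norm_num, ?_⟩
    rw [Set.uIcc_of_le hle]
    intro hx
    exact absurd hx.1 (by linarith)

end Pool.Agent.Run7.h145.QP
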