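import Pool.Agent.Run7.h145.QP.A2

/-! The mean square of the majorant away from zero. -/

set_option autoImplicit false

namespace Pool.Agent.Run7.h145.QP

open Finset Pool.Agent.H807R2.Dav MeasureTheory

theorem dirichlet {Y : ℕ} (hY : 1 ≤ Y) {θ : ℝ} (h0 : 1 / (4 * (Y : ℝ)) ≤ θ) (h1 : θ ≤ 1 / 2) :
    ∃ q ∈ Icc 1 (4 * Y), ∃ a ∈ Icc 1 q, IsCoprime (a : ℤ) (q : ℤ) ∧ 4 * (q : ℝ) * Y * |θ - a / q| ≤ 1 := by
  have hY1 : (1 : ℝ) ≤ Y := by exact_mod_cast hY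
  obtain ⟨r, hr1, hr2⟩ := Real.exists_rat_abs_sub_le_and_den_le θ (n := 4 * Y) (by omega)
  have hq : 1 ≤ r.den := r.den_pos
  have hq0 : (0 : ℝ) < r.den := by exact_mod_cast hq
  have er : (r : ℝ) = (r.num : ℝ) / r.den := by
    conv_lhs => rw [← Rat.num_div_den r]
    push_cast
    rfl
  have h2 : |θ - (r.num : ℝ) / r.den| * r.den ≤ 1 / (4 * Y + 1) := by
    rw [← er]
    have h3 : 1 / (((4 * Y : ℕ) : ℝ) + 1) / r.den = 1 / ((((4 * Y : ℕ) : ℝ) + 1) * r.den) := by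
      rw [div_div]
    rw [← le_div_iff₀ hq0]
    refine hr1.trans (le_of_eq ?_)
    rw [← h3]
    push_cast
    rfl
  have h4 : |θ * r.den - r.num| ≤ 1 / (4 * Y + 1) := by
    have e : θ * r.den - r.num = (θ - (r.num : ℝ) / r.den) * r.den := by field_simp
    rw [e, abs_mul, abs_of_pos hq0]
    exact h2
  have h5 : 1 / (4 * (Y : ℝ) + 1) < 1 / (4 * Y) := by
    apply one_div_lt_one_div_of_lt <;> linarith
  have h6 := abs_le.1 h4
  have hθ0 : 0 < θ := lt_of_lt_of_le (by positivity) h0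
  have hpos : (0 : ℝ) < r.num := by
    have h7 : θ ≤ θ * r.den := by
      have : (1 : ℝ) ≤ r.den := by exact_mod_cast hq
      nlinarith
    linarith
  have hpos' : 0 < r.num := by exact_mod_cast hpos
  obtain ⟨a, ha⟩ : ∃ a : ℕ, r.num = a := ⟨r.num.toNat, (Int.toNat_of_nonneg hpos'.le).symm⟩
  have har : (r.num : ℝ) = a := by rw [ha]; simp
  have ha1 : 1 ≤ a := by
    have : (0 : ℤ) < a := by rw [← ha]; exact hpos'
    exact_mod_cast this
  refine ⟨r.den, mem_Icc.2 ⟨hq, hr2⟩, a, mem_Icc.2 ⟨ha1, ?_⟩, ?_, ?_⟩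
  · have h8 : (a : ℝ) < r.den + 1 := by
      rw [← har]
      have h9 : 1 / (4 * (Y : ℝ) + 1) ≤ 1 / 5 := by
        apply one_div_le_one_div_of_le <;> linarith
      nlinarith
    have : (a : ℝ) < ((r.den + 1 : ℕ) : ℝ) := by push_cast; exact h8
    have := Nat.cast_lt.1 this
    omega
  · rw [← ha, Int.isCoprime_iff_gcd_eq_one]
    exact r.reduced
  · rw [← har]
    calc 4 * (r.den : ℝ) * Y * |θ - (r.num : ℝ) / r.den| = 4 * Y * (|θ - (r.num : ℝ) / r.den| * r.den) := by ring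
      _ ≤ 4 * Y * (1 / (4 * Y + 1)) := by gcongr
      _ ≤ 1 := by rw [mul_one_div, div_le_one (by positivity)]; linarith

/-- the bound on one arc -/
noncomputable def PhA (M : ℝ) (Y : ℕ) (H : ℝ) (q a : ℕ) (θ : ℝ) : ℝ :=
  (q / (H * a)) * (2178 * (Y * (1 + Real.log (4 * Y))) ^ 2 +
    72 * (M * Y / q * (1 + Real.log (4 * Y))) ^ 2 * (1 / (1 + 4 * M * Y * |θ - a / q|) ^ 2))

theorem PhA_nonneg {M : ℝ} (Y : ℕ) {H : ℝ} (hH : 0 ≤ H) (q a : ℕ) (θ : ℝ) :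
    0 ≤ PhA M Y H q a θ := by
  unfold PhA
  positivity

theorem PhA_cont {M : ℝ} (hM : 0 < M) (Y : ℕ) (H : ℝ) (q a : ℕ) : Continuous (PhA M Y H q a) := by
  unfold PhA
  apply Continuous.mul continuous_const
  apply Continuous.add continuous_const
  apply Continuous.mul continuous_const
  apply Continuous.div continuous_const
  · fun_prop
  · intro θ
    have : 0 < 1 + 4 * M * Y * |θ - a / q| := by positivity
    positivity

theorem PhA_bound {M : ℝ} (hM : 0 < M) {Y : ℕ} (hMY : M ≤ Y) (hY : 1 ≤ Y) {H : ℝ} (hH : 0 < H)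
    {q a : ℕ} (hq : q ∈ Icc 1 (4 * Y)) (ha : a ∈ Icc 1 q) (hc : IsCoprime (a : ℤ) (q : ℤ)) {θ : ℝ}
    (h : 4 * (q : ℝ) * Y * |θ - a / q| ≤ 1) (hθ : 0 < θ) :
    GM M Y θ ^ 2 * (1 / (2 * H * θ)) ≤ PhA M Y H q a θ := by
  have hY1 : (1 : ℝ) ≤ Y := by exact_mod_cast hY
  have hY0 : (0 : ℝ) < Y := by linarith
  rw [mem_Icc] at hq ha
  have hq1 : (1 : ℝ) ≤ q := by exact_mod_cast hq.1
  have hq0 : (0 : ℝ) < q := by linarith
  have ha1 : (1 : ℝ) ≤ a := by exact_mod_cast ha.1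
  have ha0 : (0 : ℝ) < a := by linarith
  have h1 := gg_arc hq.1 (a := (a : ℤ)) hc (θ := θ) hY hq.2 (by rw [Int.cast_natCast]; exact h) hM.le
  rw [Int.cast_natCast] at h1
  set Λ : ℝ := 1 + Real.log (4 * Y) with hΛ
  have hΛ1 : 1 ≤ Λ := by
    have : 0 ≤ Real.log (4 * Y) := Real.log_nonneg (by linarith)
    linarith
  set D : ℝ := 1 + 4 * M * Y * |θ - a / q| with hD
  have hD1 : 1 ≤ D := by
    have : 0 ≤ 4 * M * Y * |θ - a / q| := by positivity
    linarith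
  have h2 : GM M Y θ ≤ 33 * (Y * Λ) + 6 * (M * Y / q * Λ) / D := by
    unfold GM
    have h3 : 3 * M ≤ 3 * (Y * Λ) := by nlinarith
    have e : 3 * M * Y / q * Λ / D = 3 * (M * Y / q * Λ / D) := by ring
    rw [e] at h1
    have e2 : 6 * (M * Y / q * Λ) / D = 6 * (M * Y / q * Λ / D) := by ring
    rw [e2]
    linarith
  have h4 : GM M Y θ ^ 2 ≤ 2178 * (Y * Λ) ^ 2 + 72 * (M * Y / q * Λ) ^ 2 * (1 / D ^ 2) := by
    calc GM M Y θ ^ 2 ≤ (33 * (Y * Λ) + 6 * (M * Y / q * Λ) / D) ^ 2 :=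
          pow_le_pow_left₀ (GM_nonneg hM.le _ _) h2 2
      _ ≤ 2 * (33 * (Y * Λ)) ^ 2 + 2 * (6 * (M * Y / q * Λ) / D) ^ 2 := by nlinarith [sq_nonneg (33 * (Y * Λ) - 6 * (M * Y / q * Λ) / D)]
      _ = _ := by rw [div_pow]; ring
  have h5 : (a : ℝ) / q / 2 ≤ θ := by
    have h6 : |θ - a / q| ≤ 1 / (4 * q) := by
      rw [le_div_iff₀ (by positivity)]
      calc |θ - a / q| * (4 * q) ≤ |θ - a / q| * (4 * q) * Y :=
            le_mul_of_one_le_right (by positivity) hY1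
        _ = 4 * q * Y * |θ - a / q| := by ring
        _ ≤ 1 := h
    have h7 := (abs_le.1 h6).1
    have h8 : 1 / (4 * (q : ℝ)) ≤ a / q / 4 := by
      rw [div_div, mul_comm (q : ℝ) 4]
      exact div_le_div_of_nonneg_right ha1 (by positivity)
    have h9 : 0 < (a : ℝ) / q := by positivity
    linarith
  have h6 : 1 / (2 * H * θ) ≤ q / (H * a) := by
    rw [div_le_div_iff₀ (by positivity) (by positivity)]
    have : (a : ℝ) ≤ 2 * q * θ := by
      rw [div_div, div_le_iff₀ (by positivity)] at h5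
      linarith
    nlinarith
  unfold PhA
  rw [mul_comm]
  exact mul_le_mul h6 h4 (by positivity) (by positivity)

theorem arc_deriv {D : ℝ} (hD : 0 ≤ D) {ρ : ℝ} (hρ : 0 ≤ ρ) :
    ∫ x in (0 : ℝ)..ρ, 1 / (1 + D * x) ^ 2 = ρ / (1 + D * ρ) := by
  have h := intervalIntegral.integral_eq_sub_of_hasDerivAt (a := 0) (b := ρ) (f := fun x => x / (1 + D * x))
    (f' := fun x => 1 / (1 + D * x) ^ 2) ?_ ?_
  · rw [h]; simp
  · intro x hx
    rw [Set.uIcc_of_le hρ] at hx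
    have h1 : 1 + D * x ≠ 0 := by have := mul_nonneg hD hx.1; linarith
    have h2 : HasDerivAt (fun x : ℝ => 1 + D * x) (D * 1) x := ((hasDerivAt_id x).const_mul D).const_add 1
    have h3 : HasDerivAt (fun x : ℝ => x / (1 + D * x)) ((1 * (1 + D * x) - x * (D * 1)) / (1 + D * x) ^ 2) x :=
      (hasDerivAt_id x).div h2 h1
    exact h3.congr_deriv (by ring)
  · apply ContinuousOn.intervalIntegrable
    rw [Set.uIcc_of_le hρ]
    apply ContinuousOn.div continuousOn_const (by fun_prop)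
    intro x hx
    have := mul_nonneg hD hx.1
    have : 1 + D * x ≠ 0 := by linarith
    positivity

theorem arc_int {D : ℝ} (hD : 0 < D) {ρ c : ℝ} (hρ : 0 ≤ ρ) :
    ∫ x in (c - ρ)..(c + ρ), 1 / (1 + D * |x - c|) ^ 2 ≤ 2 / D := by
  have hcont : ∀ u v : ℝ, IntervalIntegrable (fun x : ℝ => 1 / (1 + D * |x|) ^ 2) volume u v := by
    intro u v
    apply Continuous.intervalIntegrable
    apply Continuous.div continuous_const (by fun_prop)
    intro x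
    have : 0 < 1 + D * |x| := by positivity
    positivity
  have h1 : ∫ x in (c - ρ)..(c + ρ), 1 / (1 + D * |x - c|) ^ 2 = ∫ x in (-ρ)..ρ, 1 / (1 + D * |x|) ^ 2 := by
    rw [intervalIntegral.integral_comp_sub_right (fun x => 1 / (1 + D * |x|) ^ 2) c]
    congr 1 <;> ring
  have h2 : ∫ x in (-ρ)..0, 1 / (1 + D * |x|) ^ 2 = ∫ x in (0 : ℝ)..ρ, 1 / (1 + D * |x|) ^ 2 := by
    have := intervalIntegral.integral_comp_neg (a := 0) (b := ρ) (fun x : ℝ => 1 / (1 + D * |x|) ^ 2)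
    simp only [abs_neg, neg_zero] at this
    exact this.symm
  have h3 : ∫ x in (0 : ℝ)..ρ, 1 / (1 + D * |x|) ^ 2 = ρ / (1 + D * ρ) := by
    rw [← arc_deriv hD.le hρ]
    apply intervalIntegral.integral_congr
    intro x hx
    rw [Set.uIcc_of_le hρ] at hx
    simp only
    rw [abs_of_nonneg hx.1]
  have h4 : ρ / (1 + D * ρ) ≤ 1 / D := by
    rw [div_le_div_iff₀ (by positivity) hD]
    linarith
  rw [h1, ← intervalIntegral.integral_add_adjacent_intervals (hcont (-ρ) 0) (hcont 0 ρ), h2, h3]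
  calc ρ / (1 + D * ρ) + ρ / (1 + D * ρ) ≤ 1 / D + 1 / D := add_le_add h4 h4
    _ = _ := by ring

/-- The integral over one arc. -/
theorem PhA_int {M : ℝ} (hM : 0 < M) {Y : ℕ} (hY : 1 ≤ Y) {H : ℝ} (hH : 0 < H)
    {q a : ℕ} (hq : 1 ≤ q) (ha : 1 ≤ a) :
    ∫ θ in ((a : ℝ) / q - 1 / (4 * q * Y))..((a : ℝ) / q + 1 / (4 * q * Y)), PhA M Y H q a θ ≤
      (1 / H) * (1 / a) * (1089 * Y * (1 + Real.log (4 * Y)) ^ 2 +
        36 * M * Y * (1 + Real.log (4 * Y)) ^ 2 * (1 / q)) := by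
  have hY1 : (1 : ℝ) ≤ Y := by exact_mod_cast hY
  have hY0 : (0 : ℝ) < Y := by linarith
  have hq0 : (0 : ℝ) < q := by exact_mod_cast hq
  have ha0 : (0 : ℝ) < a := by exact_mod_cast ha
  set Λ : ℝ := 1 + Real.log (4 * Y) with hΛ
  have h1 := arc_int (D := 4 * M * Y) (by positivity) (ρ := 1 / (4 * q * Y)) (c := (a : ℝ) / q) (by positivity)
  have hcont : IntervalIntegrable (fun x : ℝ => 1 / (1 + 4 * M * Y * |x - a / q|) ^ 2) volume
      ((a : ℝ) / q - 1 / (4 * q * Y)) ((a : ℝ) / q + 1 / (4 * q * Y)) := by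
    apply Continuous.intervalIntegrable
    apply Continuous.div continuous_const (by fun_prop)
    intro x
    have : 0 < 1 + 4 * M * Y * |x - a / q| := by positivity
    positivity
  have h2 : ∫ θ in ((a : ℝ) / q - 1 / (4 * q * Y))..((a : ℝ) / q + 1 / (4 * q * Y)), PhA M Y H q a θ =
      (q / (H * a)) * (2178 * (Y * Λ) ^ 2 * (1 / (2 * q * Y)) + 72 * (M * Y / q * Λ) ^ 2 *
        ∫ θ in ((a : ℝ) / q - 1 / (4 * q * Y))..((a : ℝ) / q + 1 / (4 * q * Y)),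
          1 / (1 + 4 * M * Y * |θ - a / q|) ^ 2) := by
    unfold PhA
    rw [intervalIntegral.integral_const_mul, intervalIntegral.integral_add
      intervalIntegrable_const (hcont.const_mul _), intervalIntegral.integral_const, smul_eq_mul]
    congr 2
    · have : (a : ℝ) / q + 1 / (4 * q * Y) - (a / q - 1 / (4 * q * Y)) = 1 / (2 * q * Y) := by
        field_simp; ring
      rw [this]; ring
    · exact intervalIntegral.integral_const_mul _ _
  rw [h2]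
  calc (q / (H * a)) * (2178 * (Y * Λ) ^ 2 * (1 / (2 * q * Y)) + 72 * (M * Y / q * Λ) ^ 2 *
        ∫ θ in ((a : ℝ) / q - 1 / (4 * q * Y))..((a : ℝ) / q + 1 / (4 * q * Y)),
          1 / (1 + 4 * M * Y * |θ - a / q|) ^ 2)
      ≤ (q / (H * a)) * (2178 * (Y * Λ) ^ 2 * (1 / (2 * q * Y)) + 72 * (M * Y / q * Λ) ^ 2 *
        (2 / (4 * M * Y))) := by gcongr
    _ = _ := by field_simp; ring

/-- The mean square away from zero. -/
theorem int_arcs {M : ℝ} (hM : 0 < M) {Y : ℕ} (hMY : M ≤ Y) (hY : 1 ≤ Y) {H : ℝ} (hH : 0 < H)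
    {F : ℝ → ℝ} (hF : Continuous F)
    (h : ∀ θ : ℝ, 0 < θ → θ ≤ 1 / 2 → F θ ≤ GM M Y θ ^ 2 * (1 / (2 * H * θ))) :
    ∫ θ in (1 / (4 * (Y : ℝ)))..(1 / 2), F θ ≤ 4392 * Y ^ 2 * (1 + Real.log (4 * Y)) ^ 4 / H := by
  classical
  have hY1 : (1 : ℝ) ≤ Y := by exact_mod_cast hY
  have hY0 : (0 : ℝ) < Y := by linarith
  set Λ : ℝ := 1 + Real.log (4 * Y) with hΛ
  have hΛ1 : 1 ≤ Λ := by
    have : 0 ≤ Real.log (4 * Y) := Real.log_nonneg (by linarith)
    linarith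
  have hle : 1 / (4 * (Y : ℝ)) ≤ 1 / 2 := by
    apply one_div_le_one_div_of_le <;> linarith
  set I : Finset (Σ _ : ℕ, ℕ) := (Icc 1 (4 * Y)).sigma (fun q => Icc 1 q) with hI
  set arc : (Σ _ : ℕ, ℕ) → Set ℝ := fun p => Set.Icc ((p.2 : ℝ) / p.1 - 1 / (4 * p.1 * Y)) ((p.2 : ℝ) / p.1 + 1 / (4 * p.1 * Y)) with harc
  have hpt : ∀ θ ∈ Set.Icc (1 / (4 * (Y : ℝ))) (1 / 2),
      F θ ≤ ∑ p ∈ I, (arc p).indicator (PhA M Y H p.1 p.2) θ := by
    intro θ hθ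
    obtain ⟨q, hq, a, ha, hc, hβ⟩ := dirichlet hY hθ.1 hθ.2
    have hθ0 : 0 < θ := lt_of_lt_of_le (by positivity) hθ.1
    have h1 := (h θ hθ0 hθ.2).trans (PhA_bound hM hMY hY hH hq ha hc hβ hθ0)
    have hp : (⟨q, a⟩ : Σ _ : ℕ, ℕ) ∈ I := by rw [hI, mem_sigma]; exact ⟨hq, ha⟩
    have hq0 : (0 : ℝ) < q := by exact_mod_cast (mem_Icc.1 hq).1
    have h2 : θ ∈ arc ⟨q, a⟩ := by
      have h3 : |θ - a / q| ≤ 1 / (4 * q * Y) := by
        rw [le_div_iff₀ (by positivity)]; linarith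
      have h4 := abs_le.1 h3
      rw [harc]
      constructor <;> simp only <;> linarith [h4.1, h4.2]
    have h5 : F θ ≤ (arc ⟨q, a⟩).indicator (PhA M Y H q a) θ := by
      rw [Set.indicator_of_mem h2]; exact h1
    refine h5.trans ?_
    exact single_le_sum (f := fun p : (Σ _ : ℕ, ℕ) => (arc p).indicator (PhA M Y H p.1 p.2) θ)
      (fun p _ => Set.indicator_nonneg (fun x _ => PhA_nonneg Y hH.le _ _ x) θ) hp
  have hmeas : ∀ p, MeasurableSet (arc p) := fun p => measurableSet_Icc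
  have hint : ∀ p, Integrable ((arc p).indicator (PhA M Y H p.1 p.2)) := by
    intro p
    rw [integrable_indicator_iff (hmeas p)]
    exact (PhA_cont hM Y H p.1 p.2).continuousOn.integrableOn_compact isCompact_Icc
  have h1 : ∫ θ in (1 / (4 * (Y : ℝ)))..(1 / 2), F θ ≤
      ∫ θ in (1 / (4 * (Y : ℝ)))..(1 / 2), ∑ p ∈ I, (arc p).indicator (PhA M Y H p.1 p.2) θ := by
    apply intervalIntegral.integral_mono_on hle (hF.intervalIntegrable _ _) _ hpt
    apply IntegrableOn.intervalIntegrable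
    apply Integrable.integrableOn
    exact integrable_finsetSum _ fun p _ => hint p
  have h2 : ∫ θ in (1 / (4 * (Y : ℝ)))..(1 / 2), ∑ p ∈ I, (arc p).indicator (PhA M Y H p.1 p.2) θ =
      ∑ p ∈ I, ∫ θ in (1 / (4 * (Y : ℝ)))..(1 / 2), (arc p).indicator (PhA M Y H p.1 p.2) θ := by
    rw [intervalIntegral.integral_finsetSum]
    intro p _
    exact (hint p).intervalIntegrable
  have h3 : ∀ p ∈ I, ∫ θ in (1 / (4 * (Y : ℝ)))..(1 / 2), (arc p).indicator (PhA M Y H p.1 p.2) θ ≤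
      (1 / H) * (1 / (p.2 : ℝ)) * (1089 * Y * Λ ^ 2 + 36 * M * Y * Λ ^ 2 * (1 / (p.1 : ℝ))) := by
    intro p hp
    rw [hI, mem_sigma, mem_Icc, mem_Icc] at hp
    have hq0 : (0 : ℝ) < p.1 := by exact_mod_cast hp.1.1
    refine le_trans ?_ (PhA_int hM hY hH hp.1.1 hp.2.1)
    rw [intervalIntegral.integral_of_le hle]
    calc ∫ θ in Set.Ioc (1 / (4 * (Y : ℝ))) (1 / 2), (arc p).indicator (PhA M Y H p.1 p.2) θ
        ≤ ∫ θ, (arc p).indicator (PhA M Y H p.1 p.2) θ := by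
          apply setIntegral_le_integral (hint p)
          exact Filter.Eventually.of_forall fun θ => Set.indicator_nonneg (fun x _ => PhA_nonneg Y hH.le _ _ x) θ
      _ = ∫ θ in arc p, PhA M Y H p.1 p.2 θ := integral_indicator (hmeas p)
      _ = _ := by
          rw [harc]
          simp only
          rw [integral_Icc_eq_integral_Ioc, ← intervalIntegral.integral_of_le]
          have : 0 < 1 / (4 * (p.1 : ℝ) * Y) := by positivity
          linarith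
  rw [h2] at h1
  refine h1.trans ((sum_le_sum h3).trans ?_)
  rw [hI, sum_sigma]
  have h4 : ∀ q ∈ Icc 1 (4 * Y), ∑ a ∈ Icc 1 q,
      (1 / H) * (1 / (a : ℝ)) * (1089 * Y * Λ ^ 2 + 36 * M * Y * Λ ^ 2 * (1 / (q : ℝ))) ≤
      (1 / H) * Λ * (1089 * Y * Λ ^ 2 + 36 * M * Y * Λ ^ 2 * (1 / (q : ℝ))) := by
    intro q hq
    rw [mem_Icc] at hq
    have hq0 : (0 : ℝ) < q := by exact_mod_cast hq.1
    rw [← sum_mul, ← mul_sum]
    have h5 := sum_inv_Icc q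
    have h6 : Real.log q ≤ Real.log (4 * Y) := Real.log_le_log hq0 (by exact_mod_cast hq.2)
    have h7 : ∑ a ∈ Icc 1 q, 1 / (a : ℝ) ≤ Λ := by rw [hΛ]; linarith
    gcongr
  refine (sum_le_sum h4).trans ?_
  rw [← mul_sum, sum_add_distrib, sum_const, Nat.card_Icc, nsmul_eq_mul, Nat.add_sub_cancel, ← mul_sum]
  have h5 : ∑ q ∈ Icc 1 (4 * Y), 1 / (q : ℝ) ≤ Λ := by
    have := sum_inv_Icc (4 * Y)
    push_cast at this
    exact this
  have h6 : 36 * M * Y * Λ ^ 2 * ∑ q ∈ Icc 1 (4 * Y), 1 / (q : ℝ) ≤ 36 * Y * Y * Λ ^ 2 * Λ := by gcongr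
  calc 1 / H * Λ * (((4 * Y : ℕ) : ℝ) * (1089 * Y * Λ ^ 2) + 36 * M * Y * Λ ^ 2 * ∑ q ∈ Icc 1 (4 * Y), 1 / (q : ℝ))
      ≤ 1 / H * Λ * (((4 * Y : ℕ) : ℝ) * (1089 * Y * Λ ^ 2) + 36 * Y * Y * Λ ^ 2 * Λ) := by gcongr
    _ = 1 / H * (4356 * Y ^ 2 * Λ ^ 3 + 36 * Y ^ 2 * Λ ^ 4) := by push_cast; ring
    _ ≤ 1 / H * (4356 * Y ^ 2 * Λ ^ 4 + 36 * Y ^ 2 * Λ ^ 4) := by
        have : Λ ^ 3 ≤ Λ ^ 4 := pow_le_pow_right₀ hΛ1 (by norm_num)
        gcongr
    _ = _ := by ring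

end Pool.Agent.Run7.h145.QP
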