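import Pool.Agent.Run7.h145.QP.A2

/-! Weyl differencing for quadratic polynomials of rank at least two. -/

set_option autoImplicit false

namespace Pool.Agent.Run7.h145.QP

open Finset Pool.Agent.H807R2.Dav

variable {ι : Type} [Fintype ι] [DecidableEq ι]

/-- A quadratic polynomial. -/
def Pol (A : ι → ι → ℤ) (l : ι → ℤ) (c : ℤ) (x : ι → ℤ) : ℤ :=
  ∑ i, ∑ j, A i j * x i * x j + ∑ i, l i * x i + c

/-- the symmetric matrix -/
def Sy (A : ι → ι → ℤ) (i j : ι) : ℤ := A i j + A j i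

/-- the linear forms -/
def Lf (A : ι → ι → ℤ) (u : ι → ℤ) (i : ι) : ℤ := ∑ j, Sy A i j * u j

omit [DecidableEq ι] in
theorem Pol_add (A : ι → ι → ℤ) (l : ι → ℤ) (c : ℤ) (x u : ι → ℤ) :
    Pol A l c (x + u) - Pol A l c x = (∑ i, Lf A u i * x i) + Pol A l 0 u := by
  unfold Pol Lf Sy
  have e1 : ∑ i, ∑ j, A i j * (x + u) i * (x + u) j = ∑ i, ∑ j, A i j * x i * x j + ∑ i, ∑ j, A i j * u i * u j +
      (∑ i, ∑ j, A i j * x i * u j + ∑ i, ∑ j, A i j * u i * x j) := by
    rw [← sum_add_distrib, ← sum_add_distrib, ← sum_add_distrib]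
    refine sum_congr rfl fun i _ => ?_
    rw [← sum_add_distrib, ← sum_add_distrib, ← sum_add_distrib]
    refine sum_congr rfl fun j _ => ?_
    simp only [Pi.add_apply]
    ring
  have e2 : ∑ i, l i * (x + u) i = ∑ i, l i * x i + ∑ i, l i * u i := by
    rw [← sum_add_distrib]
    refine sum_congr rfl fun i _ => ?_
    simp only [Pi.add_apply]
    ring
  have e3 : ∑ i, (∑ j, (A i j + A j i) * u j) * x i = ∑ i, ∑ j, A i j * x i * u j + ∑ i, ∑ j, A i j * u i * x j := by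
    have e4 : ∑ i, ∑ j, A i j * u i * x j = ∑ i, ∑ j, A j i * u j * x i := sum_comm
    rw [e4, ← sum_add_distrib]
    refine sum_congr rfl fun i _ => ?_
    rw [sum_mul, ← sum_add_distrib]
    refine sum_congr rfl fun j _ => ?_
    ring
  rw [e1, e2, e3]
  ring

theorem geo_int {a b : ℤ} {n : ℕ} (h : b - a ≤ n) (t : ℝ) :
    ‖∑ x ∈ Ioc a b, ee (x * t)‖ ≤ KK n t ∧ ‖∑ x ∈ Ioc a b, ee (x * t)‖ ≤ n := by
  rcases le_total b a with hab | hab
  · rw [Ioc_eq_empty (by omega), sum_empty, norm_zero]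
    exact ⟨KK_nonneg (Nat.cast_nonneg _) _, Nat.cast_nonneg _⟩
  · obtain ⟨m, rfl⟩ : ∃ m : ℕ, b = a + m := ⟨(b - a).toNat, by omega⟩
    have hmn : m ≤ n := by omega
    have e : ∑ x ∈ Ioc a (a + m), ee (x * t) = ee ((a + 1 : ℤ) * t) * ∑ j ∈ Ico 0 m, ee (j * t) := by
      rw [mul_sum]
      symm
      apply sum_bij (fun (j : ℕ) _ => a + 1 + (j : ℤ))
      · intro j hj; rw [mem_Ico] at hj; rw [mem_Ioc]; omega
      · intro i _ j _ h; simpa using h
      · intro x hx
        rw [mem_Ioc] at hx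
        refine ⟨(x - a - 1).toNat, ?_, ?_⟩
        · rw [mem_Ico]; omega
        · omega
      · intro j _
        rw [← ee_add]
        congr 1
        push_cast
        ring
    constructor
    · rw [e, norm_mul, norm_ee, one_mul]
      exact geo_bound 0 m (by omega) (by simp only [Nat.cast_zero, sub_zero]; exact_mod_cast hmn) t
    · refine (norm_sum_le _ _).trans ?_
      simp only [norm_ee, sum_const, Int.card_Ioc, nsmul_eq_mul, mul_one]
      have : (a + m - a).toNat = m := by omega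
      rw [this]
      exact_mod_cast hmn

/-- The Weyl sum. -/
noncomputable def WW (A : ι → ι → ℤ) (l : ι → ℤ) (c : ℤ) (a b : ι → ℤ) (θ : ℝ) : ℂ :=
  ∑ x ∈ Fintype.piFinset (fun i => Ioc (a i) (b i)), ee (θ * Pol A l c x)

theorem inner_box (a b u : ι → ℤ) :
    (Fintype.piFinset (fun i => Ioc (a i) (b i))).filter (fun x => x + u ∈ Fintype.piFinset (fun i => Ioc (a i) (b i))) =
      Fintype.piFinset (fun i => Ioc (max (a i) (a i - u i)) (min (b i) (b i - u i))) := by
  ext x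
  simp only [mem_filter, Fintype.mem_piFinset, mem_Ioc, Pi.add_apply]
  constructor
  · rintro ⟨h1, h2⟩ i
    have := h1 i
    have := h2 i
    omega
  · intro h
    refine ⟨fun i => ?_, fun i => ?_⟩
    · have := h i; omega
    · have := h i; omega

theorem inner_sum (A : ι → ι → ℤ) (l : ι → ℤ) (c : ℤ) {a b : ι → ℤ} {n : ℕ} (hn : ∀ i, b i - a i ≤ n)
    (θ : ℝ) (u : ι → ℤ) {p q : ι} (hpq : p ≠ q) :
    ‖∑ x ∈ (Fintype.piFinset (fun i => Ioc (a i) (b i))).filter
      (fun x => x + u ∈ Fintype.piFinset (fun i => Ioc (a i) (b i))),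
      ee (θ * (Pol A l c (x + u) - Pol A l c x : ℤ))‖ ≤
      (n : ℝ) ^ (Fintype.card ι - 2) * (KK n (Lf A u p * θ) * KK n (Lf A u q * θ)) := by
  rw [inner_box]
  have e : ∀ x : ι → ℤ, ee (θ * (Pol A l c (x + u) - Pol A l c x : ℤ)) =
      ee (θ * (Pol A l 0 u : ℤ)) * ∏ i, ee ((x i : ℤ) * (Lf A u i * θ)) := by
    intro x
    rw [Pol_add]
    have : ∏ i, ee ((x i : ℤ) * (Lf A u i * θ)) = ee (∑ i, (x i : ℤ) * (Lf A u i * θ)) := by
      have hh : ∀ s : Finset ι, ∏ i ∈ s, ee ((x i : ℤ) * (Lf A u i * θ)) = ee (∑ i ∈ s, (x i : ℤ) * (Lf A u i * θ)) := by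
        intro s
        induction s using Finset.induction_on with
        | empty => simp [ee_zero]
        | insert i s hi ih => rw [prod_insert hi, sum_insert hi, ee_add, ih]
      exact hh univ
    rw [this, ← ee_add]
    congr 1
    push_cast
    rw [mul_add, mul_sum, add_comm]
    congr 1
    refine sum_congr rfl fun i _ => ?_
    ring
  rw [sum_congr rfl fun x _ => e x, ← mul_sum, norm_mul, norm_ee, one_mul,
    ← Finset.prod_univ_sum (fun i => Ioc (max (a i) (a i - u i)) (min (b i) (b i - u i)))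
      (fun i (x : ℤ) => ee ((x : ℤ) * (Lf A u i * θ))), norm_prod]
  have hb : ∀ i, ‖∑ x ∈ Ioc (max (a i) (a i - u i)) (min (b i) (b i - u i)), ee ((x : ℤ) * (Lf A u i * θ))‖ ≤ KK n (Lf A u i * θ) ∧
      ‖∑ x ∈ Ioc (max (a i) (a i - u i)) (min (b i) (b i - u i)), ee ((x : ℤ) * (Lf A u i * θ))‖ ≤ n := by
    intro i
    apply geo_int
    have := hn i
    omega
  rw [← mul_prod_erase univ _ (mem_univ p), ← mul_prod_erase (univ.erase p) _ (mem_erase.2 ⟨hpq.symm, mem_univ q⟩)]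
  have hc : #((univ.erase p).erase q) = Fintype.card ι - 2 := by
    rw [card_erase_of_mem (mem_erase.2 ⟨hpq.symm, mem_univ q⟩), card_erase_of_mem (mem_univ p), card_univ]
    omega
  have h3 : ∏ i ∈ (univ.erase p).erase q, ‖∑ x ∈ Ioc (max (a i) (a i - u i)) (min (b i) (b i - u i)), ee ((x : ℤ) * (Lf A u i * θ))‖ ≤
      (n : ℝ) ^ (Fintype.card ι - 2) := by
    rw [← hc, ← prod_const]
    exact prod_le_prod (fun i _ => norm_nonneg _) fun i _ => (hb i).2
  calc _ ≤ KK n (Lf A u p * θ) * (KK n (Lf A u q * θ) * (n : ℝ) ^ (Fintype.card ι - 2)) := by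
        have p1 := KK_nonneg (M := n) (Nat.cast_nonneg _) (Lf A u p * θ)
        have p2 := KK_nonneg (M := n) (Nat.cast_nonneg _) (Lf A u q * θ)
        apply mul_le_mul (hb p).1 _ (by positivity) p1
        exact mul_le_mul (hb q).1 h3 (prod_nonneg fun _ _ => norm_nonneg _) p2
    _ = _ := by ring

theorem conj_ee (x : ℝ) : (starRingEnd ℂ) (ee x) = ee (-x) := by
  have h1 : ee x * ee (-x) = 1 := by rw [← ee_add]; simp [ee_zero]
  have h2 : ee x * (starRingEnd ℂ) (ee x) = 1 := by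
    rw [Complex.mul_conj, Complex.normSq_eq_norm_sq, norm_ee]; simp
  have h0 : ee x ≠ 0 := by
    intro h; rw [h, zero_mul] at h1; exact zero_ne_one h1
  exact mul_left_cancel₀ h0 (h2.trans h1.symm)

theorem weyl_sq (A : ι → ι → ℤ) (l : ι → ℤ) (c : ℤ) {a b : ι → ℤ} {n : ℕ} (hn : ∀ i, b i - a i ≤ n)
    (θ : ℝ) {p q : ι} (hpq : p ≠ q) :
    ‖WW A l c a b θ‖ ^ 2 ≤ (n : ℝ) ^ (Fintype.card ι - 2) *
      ∑ u ∈ Fintype.piFinset (fun _ : ι => Icc (-(n : ℤ)) n), KK n (Lf A u p * θ) * KK n (Lf A u q * θ) := by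
  set B := Fintype.piFinset (fun i => Ioc (a i) (b i)) with hB
  set U := Fintype.piFinset (fun _ : ι => Icc (-(n : ℤ)) n) with hU
  have e1 : ((‖WW A l c a b θ‖ ^ 2 : ℝ) : ℂ) = ∑ u ∈ U, ∑ x ∈ B.filter (fun x => x + u ∈ B),
      ee (θ * (Pol A l c (x + u) - Pol A l c x : ℤ)) := by
    have e2 : ((‖WW A l c a b θ‖ ^ 2 : ℝ) : ℂ) = ∑ x ∈ B, ∑ y ∈ B, ee (θ * (Pol A l c y - Pol A l c x : ℤ)) := by
      have h1 : ((‖WW A l c a b θ‖ ^ 2 : ℝ) : ℂ) = (starRingEnd ℂ) (WW A l c a b θ) * WW A l c a b θ := by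
        rw [mul_comm, Complex.mul_conj, Complex.normSq_eq_norm_sq]
      rw [h1]
      unfold WW
      rw [map_sum, sum_mul_sum]
      refine sum_congr rfl fun x _ => sum_congr rfl fun y _ => ?_
      rw [conj_ee, ← ee_add]
      congr 1
      push_cast
      ring
    rw [e2]
    have e3 : ∀ x ∈ B, ∑ y ∈ B, ee (θ * (Pol A l c y - Pol A l c x : ℤ)) =
        ∑ u ∈ U, if x + u ∈ B then ee (θ * (Pol A l c (x + u) - Pol A l c x : ℤ)) else 0 := by
      intro x hx
      rw [← sum_filter]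
      symm
      apply sum_bij (fun u _ => x + u)
      · intro u hu; exact (mem_filter.1 hu).2
      · intro u _ v _ h; exact add_left_cancel h
      · intro y hy
        refine ⟨y - x, ?_, by simp⟩
        rw [mem_filter]
        refine ⟨?_, by simpa using hy⟩
        rw [hU, Fintype.mem_piFinset]
        intro i
        rw [hB, Fintype.mem_piFinset] at hx hy
        have h1 := hx i
        have h2 := hy i
        have h3 := hn i
        rw [mem_Ioc] at h1 h2
        rw [mem_Icc, Pi.sub_apply]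
        omega
      · intro u _; rfl
    rw [sum_congr rfl e3, sum_comm]
    refine sum_congr rfl fun u _ => ?_
    rw [sum_filter]
  have e4 : ‖WW A l c a b θ‖ ^ 2 = ‖((‖WW A l c a b θ‖ ^ 2 : ℝ) : ℂ)‖ := by
    rw [Complex.norm_real, Real.norm_of_nonneg (by positivity)]
  rw [e4, e1, mul_sum]
  refine (norm_sum_le _ _).trans (sum_le_sum fun u _ => ?_)
  exact inner_sum A l c hn θ u hpq

/-- The differences. -/
theorem diff_sum (A : ι → ι → ℤ) {p q r s : ι} (hrs : r ≠ s)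
    (hdet : Sy A p r * Sy A q s - Sy A p s * Sy A q r ≠ 0) {n Y : ℕ}
    (hY : ∀ u ∈ Fintype.piFinset (fun _ : ι => Icc (-(n : ℤ)) n), ∀ i, |Lf A u i| ≤ Y) (θ : ℝ) :
    ∑ u ∈ Fintype.piFinset (fun _ : ι => Icc (-(n : ℤ)) n), KK n (Lf A u p * θ) * KK n (Lf A u q * θ) ≤
      ((2 * n + 1 : ℕ) : ℝ) ^ (Fintype.card ι - 2) * (∑ m ∈ Icc (-(Y : ℤ)) Y, KK n (m * θ)) ^ 2 := by
  set U := Fintype.piFinset (fun _ : ι => Icc (-(n : ℤ)) n) with hU
  set V := Fintype.piFinset (fun i : ι => if i = r ∨ i = s then ({0} : Finset ℤ) else Icc (-(n : ℤ)) n) with hV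
  set φ : (ι → ℤ) → (ι → ℤ) × (ℤ × ℤ) := fun u => (fun i => if i = r ∨ i = s then 0 else u i, (Lf A u p, Lf A u q)) with hφ
  have hinj : Function.Injective φ := by
    intro u v h
    rw [hφ] at h
    simp only [Prod.mk.injEq] at h
    obtain ⟨h1, h2, h3⟩ := h
    have h1' : ∀ i, i ≠ r → i ≠ s → u i = v i := by
      intro i hr hs
      have := congrFun h1 i
      simpa [hr, hs] using this
    have key : ∀ j, Lf A u j = Lf A v j → Sy A j r * (u r - v r) + Sy A j s * (u s - v s) = 0 := by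
      intro j hj
      have e1 : ∑ i, Sy A j i * (u i - v i) = 0 := by
        have : ∑ i, Sy A j i * (u i - v i) = Lf A u j - Lf A v j := by
          unfold Lf
          rw [← sum_sub_distrib]
          refine sum_congr rfl fun i _ => by ring
        rw [this, hj, sub_self]
      rw [← add_sum_erase univ _ (mem_univ r), ← add_sum_erase (univ.erase r) _ (mem_erase.2 ⟨hrs.symm, mem_univ s⟩)] at e1
      have e2 : ∑ x ∈ (univ.erase r).erase s, Sy A j x * (u x - v x) = 0 := by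
        apply sum_eq_zero
        intro i hi
        rw [mem_erase, mem_erase] at hi
        rw [h1' i hi.2.1 hi.1, sub_self, mul_zero]
      rw [e2, add_zero] at e1
      exact e1
    have k1 := key p h2
    have k2 := key q h3
    have hr0 : u r = v r := by
      have : (Sy A p r * Sy A q s - Sy A p s * Sy A q r) * (u r - v r) = 0 := by
        linear_combination Sy A q s * k1 - Sy A p s * k2
      rcases mul_eq_zero.1 this with h | h
      · exact absurd h hdet
      · omega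
    have hs0 : u s = v s := by
      have : (Sy A p r * Sy A q s - Sy A p s * Sy A q r) * (u s - v s) = 0 := by
        linear_combination Sy A p r * k2 - Sy A q r * k1
      rcases mul_eq_zero.1 this with h | h
      · exact absurd h hdet
      · omega
    ext i
    by_cases hi : i = r
    · rw [hi]; exact hr0
    · by_cases hi' : i = s
      · rw [hi']; exact hs0
      · exact h1' i hi hi'
  have hcard : #V = (2 * n + 1) ^ (Fintype.card ι - 2) := by
    rw [hV, Fintype.card_piFinset]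
    have e1 : ∀ i : ι, #(if i = r ∨ i = s then ({0} : Finset ℤ) else Icc (-(n : ℤ)) n) = if i = r ∨ i = s then 1 else 2 * n + 1 := by
      intro i
      split_ifs
      · rfl
      · rw [Int.card_Icc]; omega
    rw [prod_congr rfl fun i _ => e1 i, prod_ite, prod_const_one, one_mul, prod_const]
    congr 1
    have e2 : univ.filter (fun i : ι => ¬ (i = r ∨ i = s)) = (univ.erase r).erase s := by
      ext i
      simp only [mem_filter, mem_univ, true_and, mem_erase, not_or, and_true]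
      tauto
    rw [e2, card_erase_of_mem (mem_erase.2 ⟨hrs.symm, mem_univ s⟩), card_erase_of_mem (mem_univ r), card_univ]
    omega
  have hsub : U.image φ ⊆ V ×ˢ (Icc (-(Y : ℤ)) Y ×ˢ Icc (-(Y : ℤ)) Y) := by
    intro y hy
    obtain ⟨u, hu, rfl⟩ := mem_image.1 hy
    rw [mem_product, mem_product, mem_Icc, mem_Icc]
    have h1 := abs_le.1 (hY u hu p)
    have h2 := abs_le.1 (hY u hu q)
    refine ⟨?_, h1, h2⟩
    rw [hV, Fintype.mem_piFinset]
    intro i
    rw [hφ]
    dsimp only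
    split_ifs
    · simp
    · rw [hU, Fintype.mem_piFinset] at hu
      exact hu i
  have hnn : ∀ x : ℝ, 0 ≤ KK n x := KK_nonneg (Nat.cast_nonneg _)
  calc ∑ u ∈ U, KK n (Lf A u p * θ) * KK n (Lf A u q * θ)
      = ∑ y ∈ U.image φ, KK n (y.2.1 * θ) * KK n (y.2.2 * θ) := by
        rw [sum_image (fun x _ y _ h => hinj h)]
    _ ≤ ∑ y ∈ V ×ˢ (Icc (-(Y : ℤ)) Y ×ˢ Icc (-(Y : ℤ)) Y), KK n (y.2.1 * θ) * KK n (y.2.2 * θ) :=
        sum_le_sum_of_subset_of_nonneg hsub fun _ _ _ => mul_nonneg (hnn _) (hnn _)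
    _ = #V * (∑ m ∈ Icc (-(Y : ℤ)) Y, KK n (m * θ)) ^ 2 := by
        rw [sum_product]
        dsimp only
        rw [sum_const, nsmul_eq_mul, sum_product, sq, sum_mul_sum]
    _ = _ := by rw [hcard]; push_cast; ring

theorem sum_sym (n Y : ℕ) (θ : ℝ) : ∑ m ∈ Icc (-(Y : ℤ)) Y, KK n (m * θ) ≤ GM n Y θ := by
  have e : ∑ m ∈ Icc (-(Y : ℤ)) Y, KK n (m * θ) = KK n 0 + 2 * ∑ m ∈ Icc 1 Y, KK n (m * θ) := by
    induction Y with
    | zero => simp
    | succ Y ih =>
      have e1 : Icc (-((Y + 1 : ℕ) : ℤ)) ((Y + 1 : ℕ) : ℤ) =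
          insert (-((Y + 1 : ℕ) : ℤ)) (insert ((Y + 1 : ℕ) : ℤ) (Icc (-(Y : ℤ)) Y)) := by
        ext x
        simp only [mem_Icc, mem_insert]
        push_cast
        omega
      have n1 : ((Y + 1 : ℕ) : ℤ) ∉ Icc (-(Y : ℤ)) Y := by rw [mem_Icc]; push_cast; omega
      have n2 : (-((Y + 1 : ℕ) : ℤ)) ∉ insert ((Y + 1 : ℕ) : ℤ) (Icc (-(Y : ℤ)) Y) := by
        rw [mem_insert, mem_Icc]; push_cast; omega
      rw [e1, sum_insert n2, sum_insert n1, ih, sum_Icc_succ_top (by omega)]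
      have e2 : KK n (((-((Y + 1 : ℕ) : ℤ)) : ℤ) * θ) = KK n (((Y + 1 : ℕ) : ℝ) * θ) := by
        rw [← KK_neg]
        congr 1
        push_cast
        ring
      rw [e2]
      push_cast
      ring
  rw [e]
  unfold GM GG
  have := KK_le (M := n) (Nat.cast_nonneg _) 0
  linarith

/-- Weyl's inequality. -/
theorem weyl_bound (A : ι → ι → ℤ) (l : ι → ℤ) (c : ℤ) {a b : ι → ℤ} {n Y : ℕ} (hn : ∀ i, b i - a i ≤ n)
    {p q r s : ι} (hpq : p ≠ q) (hrs : r ≠ s) (hdet : Sy A p r * Sy A q s - Sy A p s * Sy A q r ≠ 0)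
    (hY : ∀ u ∈ Fintype.piFinset (fun _ : ι => Icc (-(n : ℤ)) n), ∀ i, |Lf A u i| ≤ Y) (θ : ℝ) :
    ‖WW A l c a b θ‖ ^ 2 ≤ ((n : ℝ) * (2 * n + 1)) ^ (Fintype.card ι - 2) * GM n Y θ ^ 2 := by
  refine (weyl_sq A l c hn θ hpq).trans ?_
  have h1 := diff_sum A hrs hdet hY θ
  have h2 := sum_sym n Y θ
  have h3 : 0 ≤ ∑ m ∈ Icc (-(Y : ℤ)) Y, KK n (m * θ) := sum_nonneg fun _ _ => KK_nonneg (Nat.cast_nonneg _) _
  calc (n : ℝ) ^ (Fintype.card ι - 2) *
      ∑ u ∈ Fintype.piFinset (fun _ : ι => Icc (-(n : ℤ)) n), KK n (Lf A u p * θ) * KK n (Lf A u q * θ)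
      ≤ (n : ℝ) ^ (Fintype.card ι - 2) * (((2 * n + 1 : ℕ) : ℝ) ^ (Fintype.card ι - 2) * GM n Y θ ^ 2) := by
        apply mul_le_mul_of_nonneg_left _ (by positivity)
        refine h1.trans ?_
        apply mul_le_mul_of_nonneg_left _ (by positivity)
        exact pow_le_pow_left₀ h3 h2 2
    _ = _ := by rw [mul_pow]; push_cast; ring

end Pool.Agent.Run7.h145.QP
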