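import Pool.Agent.Run7.h145.QP.B1

/-! Parseval's identity and duality. -/

set_option autoImplicit false

namespace Pool.Agent.Run7.h145.QP

open Finset Pool.Agent.H807R2.Dav MeasureTheory

theorem ee_re (x : ℝ) : (ee x).re = Real.cos (2 * Real.pi * x) := by
  rw [ee_eq, Complex.exp_ofReal_mul_I_re]

theorem ee_im (x : ℝ) : (ee x).im = Real.sin (2 * Real.pi * x) := by
  rw [ee_eq, Complex.exp_ofReal_mul_I_im]

theorem ee_cont : Continuous ee := by
  unfold ee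
  fun_prop

theorem sin_pi_int (k : ℤ) : Real.sin (k * Real.pi) = 0 := Real.sin_int_mul_pi k

theorem int_cos (k : ℤ) : ∫ θ in (-(1 / 2) : ℝ)..(1 / 2), Real.cos (2 * Real.pi * (θ * k)) = if k = 0 then 1 else 0 := by
  split_ifs with h
  · subst h
    simp
    norm_num
  · have hk : (k : ℝ) ≠ 0 := by exact_mod_cast h
    have hc : (2 * Real.pi * k) ≠ 0 := by positivity
    have e : ∀ θ : ℝ, Real.cos (2 * Real.pi * (θ * k)) = Real.cos ((2 * Real.pi * k) * θ) := by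
      intro θ; congr 1; ring
    simp_rw [e]
    rw [intervalIntegral.integral_comp_mul_left (fun x => Real.cos x) hc, integral_cos]
    have e1 : 2 * Real.pi * k * (1 / 2) = k * Real.pi := by ring
    have e2 : 2 * Real.pi * k * (-(1 / 2)) = -(k * Real.pi) := by ring
    rw [e1, e2, Real.sin_neg, sin_pi_int]
    simp

theorem norm_sq_trig (S : Finset ℤ) (c : ℤ → ℝ) (θ : ℝ) :
    ‖∑ n ∈ S, (c n : ℂ) * ee (θ * n)‖ ^ 2 = ∑ m ∈ S, ∑ n ∈ S, c m * c n * Real.cos (2 * Real.pi * (θ * (m - n : ℤ))) := by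
  rw [← Complex.normSq_eq_norm_sq, Complex.normSq_apply]
  have e1 : (∑ n ∈ S, (c n : ℂ) * ee (θ * n)).re = ∑ n ∈ S, c n * Real.cos (2 * Real.pi * (θ * n)) := by
    rw [Complex.re_sum]
    refine sum_congr rfl fun n _ => ?_
    rw [Complex.re_ofReal_mul, ee_re]
  have e2 : (∑ n ∈ S, (c n : ℂ) * ee (θ * n)).im = ∑ n ∈ S, c n * Real.sin (2 * Real.pi * (θ * n)) := by
    rw [Complex.im_sum]
    refine sum_congr rfl fun n _ => ?_
    rw [Complex.im_ofReal_mul, ee_im]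
  rw [e1, e2, sum_mul_sum, sum_mul_sum, ← sum_add_distrib]
  refine sum_congr rfl fun m _ => ?_
  rw [← sum_add_distrib]
  refine sum_congr rfl fun n _ => ?_
  have : 2 * Real.pi * (θ * (m - n : ℤ)) = 2 * Real.pi * (θ * m) - 2 * Real.pi * (θ * n) := by
    push_cast; ring
  rw [this, Real.cos_sub]
  ring

theorem parseval (S : Finset ℤ) (c : ℤ → ℝ) :
    ∫ θ in (-(1 / 2) : ℝ)..(1 / 2), ‖∑ n ∈ S, (c n : ℂ) * ee (θ * n)‖ ^ 2 = ∑ n ∈ S, c n ^ 2 := by
  simp_rw [norm_sq_trig]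
  have hc : ∀ m n : ℤ, Continuous (fun θ : ℝ => c m * c n * Real.cos (2 * Real.pi * (θ * (m - n : ℤ)))) := by
    intro m n; fun_prop
  rw [intervalIntegral.integral_finsetSum]
  · refine sum_congr rfl fun m hm => ?_
    rw [intervalIntegral.integral_finsetSum]
    · have : ∀ n ∈ S, ∫ θ in (-(1 / 2) : ℝ)..(1 / 2), c m * c n * Real.cos (2 * Real.pi * (θ * (m - n : ℤ))) =
          if m = n then c m ^ 2 else 0 := by
        intro n _
        rw [intervalIntegral.integral_const_mul, int_cos]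
        by_cases h : m = n
        · rw [if_pos h, if_pos (by omega), h]; ring
        · rw [if_neg h, if_neg (by omega), mul_zero]
      rw [sum_congr rfl this, sum_ite_eq, if_pos hm]
    · intro n _
      exact (hc m n).intervalIntegrable _ _
  · intro m _
    exact (continuous_finsetSum _ fun n _ => hc m n).intervalIntegrable _ _

theorem duality {α : Type} (I : Finset α) (ν : α → ℤ) (w : α → ℝ) {f : ℤ → ℝ} (hf : ∀ n, |f n| ≤ 1) {X : ℕ}
    (hX : ∀ i ∈ I, |ν i| ≤ X) :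
    (∑ i ∈ I, w i * f (ν i)) ^ 2 ≤ (2 * X + 1) * ∫ θ in (-(1 / 2) : ℝ)..(1 / 2), ‖∑ i ∈ I, (w i : ℂ) * ee (θ * ν i)‖ ^ 2 := by
  classical
  set c : ℤ → ℝ := fun n => ∑ i ∈ I.filter (fun i => ν i = n), w i with hc
  have hmaps : ∀ i ∈ I, ν i ∈ Icc (-(X : ℤ)) X := by
    intro i hi
    rw [mem_Icc]
    exact abs_le.1 (hX i hi)
  have e1 : ∑ i ∈ I, w i * f (ν i) = ∑ n ∈ Icc (-(X : ℤ)) X, c n * f n := by
    rw [← sum_fiberwise_of_maps_to hmaps]
    refine sum_congr rfl fun n _ => ?_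
    rw [hc]
    dsimp only
    rw [sum_mul]
    refine sum_congr rfl fun i hi => ?_
    rw [(mem_filter.1 hi).2]
  have e2 : ∀ θ : ℝ, ∑ i ∈ I, (w i : ℂ) * ee (θ * ν i) = ∑ n ∈ Icc (-(X : ℤ)) X, (c n : ℂ) * ee (θ * n) := by
    intro θ
    rw [← sum_fiberwise_of_maps_to hmaps]
    refine sum_congr rfl fun n _ => ?_
    rw [hc]
    dsimp only
    push_cast
    rw [sum_mul]
    refine sum_congr rfl fun i hi => ?_
    rw [(mem_filter.1 hi).2]
  simp_rw [e2]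
  rw [parseval, e1]
  have h1 := sum_mul_sq_le_sq_mul_sq (Icc (-(X : ℤ)) X) c f
  have h2 : ∑ n ∈ Icc (-(X : ℤ)) X, f n ^ 2 ≤ 2 * X + 1 := by
    calc ∑ n ∈ Icc (-(X : ℤ)) X, f n ^ 2 ≤ ∑ n ∈ Icc (-(X : ℤ)) X, (1 : ℝ) := by
          apply sum_le_sum
          intro n _
          rw [← sq_abs]
          have := hf n
          have h0 := abs_nonneg (f n)
          nlinarith
      _ = 2 * X + 1 := by
          rw [sum_const, Int.card_Icc, nsmul_eq_mul, mul_one]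
          have : ((X : ℤ) + 1 - -(X : ℤ)).toNat = 2 * X + 1 := by omega
          rw [this]; push_cast; ring
  have h3 : 0 ≤ ∑ n ∈ Icc (-(X : ℤ)) X, c n ^ 2 := sum_nonneg fun _ _ => sq_nonneg _
  calc (∑ n ∈ Icc (-(X : ℤ)) X, c n * f n) ^ 2 ≤ (∑ n ∈ Icc (-(X : ℤ)) X, c n ^ 2) * ∑ n ∈ Icc (-(X : ℤ)) X, f n ^ 2 := h1
    _ ≤ (∑ n ∈ Icc (-(X : ℤ)) X, c n ^ 2) * (2 * X + 1) := mul_le_mul_of_nonneg_left h2 h3
    _ = _ := by ring

/-- averages of exponentials -/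
noncomputable def ph (N : ℕ) (θ : ℝ) : ℂ := (1 / (N : ℂ)) * ∑ h ∈ Icc 1 N, ee (h * θ)

theorem ph_cont (N : ℕ) : Continuous (ph N) := by
  unfold ph
  apply continuous_const.mul
  apply continuous_finsetSum
  intro h _
  exact ee_cont.comp (continuous_const.mul continuous_id)

theorem ph_le_one {N : ℕ} (hN : 1 ≤ N) (θ : ℝ) : ‖ph N θ‖ ≤ 1 := by
  unfold ph
  have hN0 : (0 : ℝ) < N := by exact_mod_cast hN
  rw [norm_mul, norm_div, norm_one, Complex.norm_natCast]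
  have h1 : ‖∑ h ∈ Icc 1 N, ee (h * θ)‖ ≤ N := by
    refine (norm_sum_le _ _).trans ?_
    simp [norm_ee]
  calc 1 / (N : ℝ) * ‖∑ h ∈ Icc 1 N, ee (h * θ)‖ ≤ 1 / N * N := by gcongr
    _ = 1 := by field_simp

theorem ph_near {N : ℕ} (hN : 1 ≤ N) {θ : ℝ} (hθ : 0 ≤ θ) : ‖1 - ph N θ‖ ≤ 2 * Real.pi * N * θ := by
  have hN0 : (0 : ℝ) < N := by exact_mod_cast hN
  have hNc : (N : ℂ) ≠ 0 := by exact_mod_cast hN0.ne'
  have e : 1 - ph N θ = (1 / (N : ℂ)) * ∑ h ∈ Icc 1 N, (1 - ee (h * θ)) := by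
    unfold ph
    rw [sum_sub_distrib, sum_const, Nat.card_Icc, nsmul_eq_mul, Nat.add_sub_cancel, mul_sub]
    congr 1
    field_simp
  rw [e, norm_mul, norm_div, norm_one, Complex.norm_natCast]
  have h1 : ‖∑ h ∈ Icc 1 N, (1 - ee (h * θ))‖ ≤ N * (2 * Real.pi * (N * θ)) := by
    refine (norm_sum_le _ _).trans ?_
    have : ∀ h ∈ Icc 1 N, ‖1 - ee ((h : ℕ) * θ)‖ ≤ 2 * Real.pi * (N * θ) := by
      intro h hh
      rw [mem_Icc] at hh
      have h2 := dd_le (h * θ)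
      unfold dd at h2
      refine h2.trans ?_
      rw [abs_of_nonneg (by positivity)]
      have : (h : ℝ) ≤ N := by exact_mod_cast hh.2
      have := Real.pi_pos
      gcongr
    refine (sum_le_sum this).trans (le_of_eq ?_)
    rw [sum_const, Nat.card_Icc, nsmul_eq_mul, Nat.add_sub_cancel]
  calc 1 / (N : ℝ) * ‖∑ h ∈ Icc 1 N, (1 - ee (h * θ))‖ ≤ 1 / N * (N * (2 * Real.pi * (N * θ))) := by gcongr
    _ = _ := by field_simp

theorem ph_far {N : ℕ} (hN : 1 ≤ N) {θ : ℝ} (h0 : 0 < θ) (h1 : θ ≤ 1 / 2) : ‖ph N θ‖ ≤ 1 / (2 * N * θ) := by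
  have hN0 : (0 : ℝ) < N := by exact_mod_cast hN
  have h2 : dd θ * ‖∑ h ∈ Icc 1 N, ee (h * θ)‖ ≤ 2 := by
    have e : Icc 1 N = Ico 1 (N + 1) := by ext x; simp only [mem_Icc, mem_Ico]; omega
    have h3 : (1 - ee θ) * ∑ h ∈ Icc 1 N, ee (h * θ) = ee θ ^ 1 - ee θ ^ (N + 1) := by
      rw [e]
      simp only [ee_pow]
      have := geom_sum_Ico_mul (ee θ) (show 1 ≤ N + 1 by omega)
      linear_combination -this
    have h4 : dd θ * ‖∑ h ∈ Icc 1 N, ee (h * θ)‖ = ‖ee θ ^ 1 - ee θ ^ (N + 1)‖ := by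
      rw [← h3, norm_mul]; rfl
    rw [h4]
    refine (norm_sub_le _ _).trans ?_
    rw [norm_pow, norm_pow, norm_ee]
    norm_num
  have h5 := dd_ge_half (t := θ) (by rw [abs_of_pos h0]; exact h1)
  rw [abs_of_pos h0] at h5
  unfold ph
  rw [norm_mul, norm_div, norm_one, Complex.norm_natCast]
  have h6 : 4 * θ * ‖∑ h ∈ Icc 1 N, ee (h * θ)‖ ≤ 2 :=
    (mul_le_mul_of_nonneg_right h5 (norm_nonneg _)).trans h2
  rw [one_div_mul_eq_div, div_le_div_iff₀ hN0 (by positivity)]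
  nlinarith

end Pool.Agent.Run7.h145.QP
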