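import Pool.Agent.Run7.h145.QP.A3
import Pool.Agent.Run7.h145.QP.C1

/-! Averages over short and long intervals along quadratic polynomials. -/

set_option autoImplicit false

namespace Pool.Agent.Run7.h145.QP

open Finset Pool.Agent.H807R2.Dav MeasureTheory

variable {ι : Type} [Fintype ι] [DecidableEq ι]

/-- the exponential sum -/
noncomputable def FF (A : ι → ι → ℤ) (l : ι → ℤ) (c : ℤ) (a b : ι → ℤ) (H L : ℕ) (θ : ℝ) : ℝ :=
  ‖WW A l c a b θ * ph H θ * (1 - ph L θ)‖ ^ 2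

theorem WW_cont (A : ι → ι → ℤ) (l : ι → ℤ) (c : ℤ) (a b : ι → ℤ) : Continuous (WW A l c a b) := by
  unfold WW
  apply continuous_finsetSum
  intro x _
  exact ee_cont.comp (continuous_id.mul continuous_const)

theorem FF_cont (A : ι → ι → ℤ) (l : ι → ℤ) (c : ℤ) (a b : ι → ℤ) (H L : ℕ) : Continuous (FF A l c a b H L) := by
  unfold FF
  apply Continuous.pow
  apply Continuous.norm
  exact ((WW_cont A l c a b).mul (ph_cont H)).mul (continuous_const.sub (ph_cont L))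

theorem WW_neg (A : ι → ι → ℤ) (l : ι → ℤ) (c : ℤ) (a b : ι → ℤ) (θ : ℝ) :
    WW A l c a b (-θ) = (starRingEnd ℂ) (WW A l c a b θ) := by
  unfold WW
  rw [map_sum]
  refine sum_congr rfl fun x _ => ?_
  rw [conj_ee]
  congr 1
  ring

theorem ph_neg (N : ℕ) (θ : ℝ) : ph N (-θ) = (starRingEnd ℂ) (ph N θ) := by
  unfold ph
  rw [map_mul, map_sum, map_div₀, map_one, map_natCast]
  congr 1
  refine sum_congr rfl fun x _ => ?_
  rw [conj_ee]
  congr 1
  ring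

theorem FF_neg (A : ι → ι → ℤ) (l : ι → ℤ) (c : ℤ) (a b : ι → ℤ) (H L : ℕ) (θ : ℝ) :
    FF A l c a b H L (-θ) = FF A l c a b H L θ := by
  unfold FF
  have e : WW A l c a b (-θ) * ph H (-θ) * (1 - ph L (-θ)) =
      (starRingEnd ℂ) (WW A l c a b θ * ph H θ * (1 - ph L θ)) := by
    rw [WW_neg, ph_neg, ph_neg, map_mul, map_mul, map_sub, map_one]
  rw [e, Complex.norm_conj]

theorem WW_triv (A : ι → ι → ℤ) (l : ι → ℤ) (c : ℤ) {a b : ι → ℤ} {n : ℕ} (hn : ∀ i, b i - a i ≤ n) (θ : ℝ) :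
    ‖WW A l c a b θ‖ ≤ (n : ℝ) ^ Fintype.card ι := by
  unfold WW
  refine (norm_sum_le _ _).trans ?_
  simp only [norm_ee, sum_const, nsmul_eq_mul, mul_one]
  rw [Fintype.card_piFinset]
  push_cast
  calc ∏ i, ((#(Ioc (a i) (b i)) : ℕ) : ℝ) ≤ ∏ _i : ι, (n : ℝ) := by
        apply prod_le_prod (fun i _ => Nat.cast_nonneg _)
        intro i _
        rw [Int.card_Ioc]
        have := hn i
        have h : (b i - a i).toNat ≤ n := by omega
        exact_mod_cast h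
    _ = _ := by rw [prod_const, card_univ]

theorem int_F (A : ι → ι → ℤ) (l : ι → ℤ) (c : ℤ) {a b : ι → ℤ} {n Y : ℕ} (hn : ∀ i, b i - a i ≤ n)
    (hn1 : 1 ≤ n) (hnY : n ≤ Y)
    {p q r s : ι} (hpq : p ≠ q) (hrs : r ≠ s) (hdet : Sy A p r * Sy A q s - Sy A p s * Sy A q r ≠ 0)
    (hY : ∀ u ∈ Fintype.piFinset (fun _ : ι => Icc (-(n : ℤ)) n), ∀ i, |Lf A u i| ≤ Y)
    {H L : ℕ} (hH : 1 ≤ H) (hL : 1 ≤ L) {δ : ℝ} (hδ : 0 < δ) (hδ1 : 4 * Y * δ ≤ 1) :
    ∫ θ in (-(1 / 2) : ℝ)..(1 / 2), FF A l c a b H L θ ≤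
      2 * (δ * ((n : ℝ) ^ Fintype.card ι * (2 * Real.pi * L * δ)) ^ 2 +
        4 * ((n : ℝ) * (2 * n + 1)) ^ (Fintype.card ι - 2) * (1458 * (n * Y) ^ (1 / 2 : ℝ) * δ ^ (-(1 / 2) : ℝ)) +
        4 * ((n : ℝ) * (2 * n + 1)) ^ (Fintype.card ι - 2) * (4392 * Y ^ 2 * (1 + Real.log (4 * Y)) ^ 4 / H)) := by
  have hY1 : 1 ≤ Y := hn1.trans hnY
  have hY1r : (1 : ℝ) ≤ Y := by exact_mod_cast hY1
  have hn1r : (1 : ℝ) ≤ n := by exact_mod_cast hn1
  have hn0r : (0 : ℝ) < n := by linarith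
  have hnYr : (n : ℝ) ≤ Y := by exact_mod_cast hnY
  have hH0 : (0 : ℝ) < H := by exact_mod_cast hH
  set F := FF A l c a b H L with hF
  have hFc : Continuous F := FF_cont A l c a b H L
  have hint : ∀ u v : ℝ, IntervalIntegrable F volume u v := fun u v => hFc.intervalIntegrable u v
  have hF0 : ∀ θ, 0 ≤ F θ := fun θ => by rw [hF]; unfold FF; positivity
  set Ck : ℝ := ((n : ℝ) * (2 * n + 1)) ^ (Fintype.card ι - 2) with hCk
  have hCk0 : 0 < Ck := by positivity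
  have h1 : ∫ θ in (-(1 / 2) : ℝ)..(1 / 2), F θ = 2 * ∫ θ in (0 : ℝ)..(1 / 2), F θ := by
    rw [← intervalIntegral.integral_add_adjacent_intervals (hint (-(1 / 2)) 0) (hint 0 (1 / 2))]
    have h2 : ∫ θ in (-(1 / 2) : ℝ)..0, F θ = ∫ θ in (0 : ℝ)..(1 / 2), F θ := by
      have h3 := intervalIntegral.integral_comp_neg (a := 0) (b := 1 / 2) F
      rw [neg_zero] at h3
      rw [← h3]
      apply intervalIntegral.integral_congr
      intro θ _
      simp only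
      rw [hF, FF_neg]
    rw [h2]; ring
  have h2 : ∀ θ : ℝ, F θ = ‖WW A l c a b θ‖ ^ 2 * ‖ph H θ‖ ^ 2 * ‖1 - ph L θ‖ ^ 2 := by
    intro θ
    rw [hF]
    unfold FF
    rw [norm_mul, norm_mul]
    ring
  have hph2 : ∀ θ : ℝ, ‖1 - ph L θ‖ ^ 2 ≤ 4 := by
    intro θ
    have h3 : ‖1 - ph L θ‖ ≤ 2 := by
      refine (norm_sub_le _ _).trans ?_
      rw [norm_one]
      have := ph_le_one hL θ
      linarith
    have := norm_nonneg (1 - ph L θ)
    nlinarith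
  have hweyl : ∀ θ : ℝ, ‖WW A l c a b θ‖ ^ 2 ≤ Ck * GM n Y θ ^ 2 := fun θ =>
    weyl_bound A l c hn hpq hrs hdet hY θ
  -- the three ranges
  have hle1 : δ ≤ 1 / (4 * (Y : ℝ)) := by rw [le_div_iff₀ (by positivity)]; linarith
  have r1 : ∫ θ in (0 : ℝ)..δ, F θ ≤ δ * ((n : ℝ) ^ Fintype.card ι * (2 * Real.pi * L * δ)) ^ 2 := by
    have h3 : ∫ θ in (0 : ℝ)..δ, F θ ≤ ∫ θ in (0 : ℝ)..δ, ((n : ℝ) ^ Fintype.card ι * (2 * Real.pi * L * δ)) ^ 2 := by
      apply intervalIntegral.integral_mono_on hδ.le (hint _ _) intervalIntegrable_const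
      intro θ hθ
      have h4 := WW_triv A l c hn θ
      have h5 := ph_le_one hH θ
      have h6 := ph_near hL hθ.1
      have h7 : ‖1 - ph L θ‖ ≤ 2 * Real.pi * L * δ := by
        refine h6.trans ?_
        have := Real.pi_pos
        have := hθ.2
        gcongr
      rw [hF]
      unfold FF
      rw [norm_mul, norm_mul]
      apply pow_le_pow_left₀ (by positivity)
      calc ‖WW A l c a b θ‖ * ‖ph H θ‖ * ‖1 - ph L θ‖ ≤ (n : ℝ) ^ Fintype.card ι * 1 * (2 * Real.pi * L * δ) := by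
            gcongr
        _ = _ := by ring
    refine h3.trans (le_of_eq ?_)
    rw [intervalIntegral.integral_const, smul_eq_mul, sub_zero]
  have r2 : ∫ θ in δ..(1 / (4 * (Y : ℝ))), F θ ≤ 4 * Ck * (1458 * (n * Y) ^ (1 / 2 : ℝ) * δ ^ (-(1 / 2) : ℝ)) := by
    have h3 := int_small (M := n) (Y := Y) hn0r hnYr hY1 hδ hδ1 (F := fun θ => F θ / (4 * Ck))
      (hFc.div_const _) (by
        intro θ _
        rw [div_le_iff₀ (by positivity), h2]
        have h4 : ‖ph H θ‖ ^ 2 ≤ 1 := by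
          have := ph_le_one hH θ
          exact pow_le_one₀ (norm_nonneg _) this
        calc ‖WW A l c a b θ‖ ^ 2 * ‖ph H θ‖ ^ 2 * ‖1 - ph L θ‖ ^ 2 ≤ (Ck * GM n Y θ ^ 2) * 1 * 4 := by
              have := hweyl θ
              have := hph2 θ
              gcongr
          _ = _ := by ring)
    rw [intervalIntegral.integral_div, div_le_iff₀ (by positivity)] at h3
    linarith
  have r3 : ∫ θ in (1 / (4 * (Y : ℝ)))..(1 / 2), F θ ≤ 4 * Ck * (4392 * Y ^ 2 * (1 + Real.log (4 * Y)) ^ 4 / H) := by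
    have h3 := int_arcs (M := n) (Y := Y) hn0r hnYr hY1 (H := H) hH0 (F := fun θ => F θ / (4 * Ck))
      (hFc.div_const _) (by
        intro θ hθ0 hθ1
        rw [div_le_iff₀ (by positivity), h2]
        have h4 : ‖ph H θ‖ ^ 2 ≤ 1 / (2 * H * θ) := by
          have p1 := ph_le_one hH θ
          have p2 := ph_far hH hθ0 hθ1
          calc ‖ph H θ‖ ^ 2 = ‖ph H θ‖ * ‖ph H θ‖ := sq _
            _ ≤ 1 * ‖ph H θ‖ := by gcongr
            _ ≤ _ := by rw [one_mul]; exact p2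
        calc ‖WW A l c a b θ‖ ^ 2 * ‖ph H θ‖ ^ 2 * ‖1 - ph L θ‖ ^ 2 ≤ (Ck * GM n Y θ ^ 2) * (1 / (2 * H * θ)) * 4 := by
              have := hweyl θ
              have := hph2 θ
              gcongr
          _ = _ := by ring)
    rw [intervalIntegral.integral_div, div_le_iff₀ (by positivity)] at h3
    linarith
  rw [h1, ← intervalIntegral.integral_add_adjacent_intervals (hint 0 (1 / (4 * (Y : ℝ)))) (hint (1 / (4 * (Y : ℝ))) (1 / 2)),
    ← intervalIntegral.integral_add_adjacent_intervals (hint 0 δ) (hint δ (1 / (4 * (Y : ℝ))))]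
  linarith

/-- The difference of the averages. -/
theorem diff_avg (A : ι → ι → ℤ) (l : ι → ℤ) (c : ℤ) (a b : ι → ℤ) {H L X : ℕ} (hH : 1 ≤ H) (hL : 1 ≤ L)
    (hX : ∀ x ∈ Fintype.piFinset (fun i => Ioc (a i) (b i)), |Pol A l c x| + H + L ≤ X)
    {f : ℤ → ℝ} (hf : ∀ n, |f n| ≤ 1) :
    (∑ x ∈ Fintype.piFinset (fun i => Ioc (a i) (b i)), ∑ h ∈ Icc 1 H, ∑ j ∈ Icc 1 L,
      (1 / ((H : ℝ) * L)) * (f (Pol A l c x + h) - f (Pol A l c x + h + j))) ^ 2 ≤
      (2 * X + 1) * ∫ θ in (-(1 / 2) : ℝ)..(1 / 2), FF A l c a b H L θ := by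
  classical
  set B := Fintype.piFinset (fun i => Ioc (a i) (b i)) with hB
  have hH0 : (0 : ℝ) < H := by exact_mod_cast hH
  have hL0 : (0 : ℝ) < L := by exact_mod_cast hL
  have hHc : (H : ℂ) ≠ 0 := by exact_mod_cast hH0.ne'
  have hLc : (L : ℂ) ≠ 0 := by exact_mod_cast hL0.ne'
  set J : Finset ((ι → ℤ) × ℕ × ℕ) := B ×ˢ (Icc 1 H ×ˢ Icc 1 L) with hJ
  set ν : (((ι → ℤ) × ℕ × ℕ) ⊕ ((ι → ℤ) × ℕ × ℕ)) → ℤ := Sum.elim
    (fun y => Pol A l c y.1 + y.2.1) (fun y => Pol A l c y.1 + y.2.1 + y.2.2) with hν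
  set w : (((ι → ℤ) × ℕ × ℕ) ⊕ ((ι → ℤ) × ℕ × ℕ)) → ℝ := Sum.elim
    (fun _ => 1 / ((H : ℝ) * L)) (fun _ => -(1 / ((H : ℝ) * L))) with hw
  have h1 := duality (J.disjSum J) ν w hf (X := X) (by
    intro i hi
    rw [mem_disjSum] at hi
    rcases hi with ⟨y, hy, rfl⟩ | ⟨y, hy, rfl⟩
    · rw [hJ, mem_product, mem_product, mem_Icc, mem_Icc] at hy
      have h2 := hX y.1 hy.1
      simp only [hν, Sum.elim_inl]
      have h3 : ((y.2.1 : ℕ) : ℤ) ≤ H := by exact_mod_cast hy.2.1.2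
      have h4 := neg_abs_le (Pol A l c y.1)
      have h5 := le_abs_self (Pol A l c y.1)
      rw [abs_le]
      constructor <;> omega
    · rw [hJ, mem_product, mem_product, mem_Icc, mem_Icc] at hy
      have h2 := hX y.1 hy.1
      simp only [hν, Sum.elim_inr]
      have h3 : ((y.2.1 : ℕ) : ℤ) ≤ H := by exact_mod_cast hy.2.1.2
      have h3' : ((y.2.2 : ℕ) : ℤ) ≤ L := by exact_mod_cast hy.2.2.2
      have h4 := neg_abs_le (Pol A l c y.1)
      have h5 := le_abs_self (Pol A l c y.1)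
      rw [abs_le]
      constructor <;> omega)
  have e1 : ∑ i ∈ J.disjSum J, w i * f (ν i) = ∑ x ∈ B, ∑ h ∈ Icc 1 H, ∑ j ∈ Icc 1 L,
      (1 / ((H : ℝ) * L)) * (f (Pol A l c x + h) - f (Pol A l c x + h + j)) := by
    rw [sum_disjSum, hw, hν]
    simp only [Sum.elim_inl, Sum.elim_inr]
    rw [hJ, sum_product, sum_product, ← sum_add_distrib]
    refine sum_congr rfl fun x _ => ?_
    rw [sum_product, sum_product, ← sum_add_distrib]
    refine sum_congr rfl fun h _ => ?_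
    rw [← sum_add_distrib]
    refine sum_congr rfl fun j _ => ?_
    ring
  have e2 : ∀ θ : ℝ, ‖∑ i ∈ J.disjSum J, (w i : ℂ) * ee (θ * ν i)‖ ^ 2 = FF A l c a b H L θ := by
    intro θ
    unfold FF
    congr 2
    rw [sum_disjSum, hw, hν]
    simp only [Sum.elim_inl, Sum.elim_inr]
    have e3 : ∀ y : (ι → ℤ) × ℕ × ℕ, ((1 / ((H : ℝ) * L) : ℝ) : ℂ) * ee (θ * (Pol A l c y.1 + y.2.1 : ℤ)) =
        ee (θ * Pol A l c y.1) * ((1 / H : ℂ) * ee (y.2.1 * θ)) * (1 / L : ℂ) := by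
      intro y
      have : θ * (Pol A l c y.1 + y.2.1 : ℤ) = θ * Pol A l c y.1 + y.2.1 * θ := by push_cast; ring
      rw [this, ee_add]
      push_cast
      field_simp
    have e4 : ∀ y : (ι → ℤ) × ℕ × ℕ, ((-(1 / ((H : ℝ) * L)) : ℝ) : ℂ) * ee (θ * (Pol A l c y.1 + y.2.1 + y.2.2 : ℤ)) =
        -(ee (θ * Pol A l c y.1) * ((1 / H : ℂ) * ee (y.2.1 * θ)) * ((1 / L : ℂ) * ee (y.2.2 * θ))) := by
      intro y
      have : θ * (Pol A l c y.1 + y.2.1 + y.2.2 : ℤ) = θ * Pol A l c y.1 + y.2.1 * θ + y.2.2 * θ := by push_cast; ring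
      rw [this, ee_add, ee_add]
      push_cast
      field_simp
    rw [sum_congr rfl fun y _ => e3 y, sum_congr rfl fun y _ => e4 y, sum_neg_distrib, hJ]
    have e5 : ∑ y ∈ B ×ˢ (Icc 1 H ×ˢ Icc 1 L), ee (θ * Pol A l c y.1) * ((1 / H : ℂ) * ee (y.2.1 * θ)) * (1 / L : ℂ) =
        WW A l c a b θ * ph H θ * ∑ j ∈ Icc 1 L, (1 / L : ℂ) := by
      unfold WW ph
      rw [← hB, mul_sum (Icc 1 H), sum_mul_sum, sum_mul, sum_product]
      refine sum_congr rfl fun x _ => ?_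
      rw [sum_mul_sum, sum_product]
    have e6 : ∑ y ∈ B ×ˢ (Icc 1 H ×ˢ Icc 1 L), ee (θ * Pol A l c y.1) * ((1 / H : ℂ) * ee (y.2.1 * θ)) * ((1 / L : ℂ) * ee (y.2.2 * θ)) =
        WW A l c a b θ * ph H θ * ph L θ := by
      unfold WW ph
      rw [← hB, mul_sum (Icc 1 H), mul_sum (Icc 1 L), sum_mul_sum, sum_mul, sum_product]
      refine sum_congr rfl fun x _ => ?_
      rw [sum_mul_sum, sum_product]
    rw [e5, e6, sum_const, Nat.card_Icc, nsmul_eq_mul, Nat.add_sub_cancel]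
    have e7 : (L : ℂ) * (1 / L) = 1 := by field_simp
    rw [e7]
    ring
  rw [e1] at h1
  simp_rw [e2] at h1
  exact h1

end Pool.Agent.Run7.h145.QP
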