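import Pool.Agent.Run7.h145.QP.C2

/-! Averages over short and long intervals along quadratic polynomials: the limit. -/

set_option autoImplicit false

namespace Pool.Agent.Run7.h145.QP

open Finset Pool.Agent.H807R2.Dav MeasureTheory

variable {ι : Type} [Fintype ι] [DecidableEq ι]

/-- size of the matrix -/
def sz (A : ι → ι → ℤ) : ℕ := ∑ i, ∑ j, (Sy A i j).natAbs

omit [DecidableEq ι] in
theorem Lf_le (A : ι → ι → ℤ) {u : ι → ℤ} {n : ℕ} (hu : ∀ i, |u i| ≤ n) (i : ι) :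
    |Lf A u i| ≤ (sz A * n : ℕ) := by
  unfold Lf
  calc |∑ j, Sy A i j * u j| ≤ ∑ j, |Sy A i j * u j| := abs_sum_le_sum_abs _ _
    _ ≤ ∑ j, ((Sy A i j).natAbs : ℤ) * n := by
        apply sum_le_sum
        intro j _
        rw [abs_mul, Int.abs_eq_natAbs (Sy A i j)]
        exact mul_le_mul_of_nonneg_left (hu j) (by positivity)
    _ = ((∑ j, (Sy A i j).natAbs : ℕ) : ℤ) * n := by rw [← sum_mul]; push_cast; rfl
    _ ≤ ((sz A : ℕ) : ℤ) * n := by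
        apply mul_le_mul_of_nonneg_right _ (by positivity)
        have : ∑ j, (Sy A i j).natAbs ≤ sz A :=
          single_le_sum (f := fun i => ∑ j, (Sy A i j).natAbs) (fun _ _ => Nat.zero_le _) (mem_univ i)
        exact_mod_cast this
    _ = _ := by push_cast; rfl

omit [DecidableEq ι] in
theorem sz_pos {A : ι → ι → ℤ} {p q r s : ι} (hdet : Sy A p r * Sy A q s - Sy A p s * Sy A q r ≠ 0) :
    1 ≤ sz A := by
  by_contra h
  have h0 : sz A = 0 := by omega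
  unfold sz at h0
  have h1 : ∀ i j, Sy A i j = 0 := by
    intro i j
    rw [sum_eq_zero_iff] at h0
    have h2 := h0 i (mem_univ i)
    rw [sum_eq_zero_iff] at h2
    exact Int.natAbs_eq_zero.1 (h2 j (mem_univ j))
  apply hdet
  rw [h1, h1, h1]
  ring

theorem star (A : ι → ι → ℤ) {p q r s : ι} (hpq : p ≠ q) (hrs : r ≠ s)
    (hdet : Sy A p r * Sy A q s - Sy A p s * Sy A q r ≠ 0) {Bd ε : ℝ} (hBd : 0 < Bd) (hε : 0 < ε) :
    ∃ κ : ℝ, 0 < κ ∧ κ ≤ 1 ∧ ∃ η : ℝ, 0 < η ∧ ∃ n₀ : ℕ, ∀ n : ℕ, n₀ ≤ n → ∀ H : ℕ, 1 ≤ H →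
      (1 + Real.log (4 * (sz A * n : ℕ))) ^ 4 ≤ η * H → ∀ L : ℕ, 1 ≤ L → (L : ℝ) ≤ κ * n ^ 2 →
      ∀ (l : ι → ℤ) (c : ℤ) (a b : ι → ℤ), (∀ i, b i - a i ≤ n) → ∀ X : ℕ,
      (∀ x ∈ Fintype.piFinset (fun i => Ioc (a i) (b i)), |Pol A l c x| + H + L ≤ X) → (X : ℝ) ≤ Bd * n ^ 2 →
      ∀ f : ℤ → ℝ, (∀ n, |f n| ≤ 1) →
      |∑ x ∈ Fintype.piFinset (fun i => Ioc (a i) (b i)), ∑ h ∈ Icc 1 H, ∑ j ∈ Icc 1 L,
        (1 / ((H : ℝ) * L)) * (f (Pol A l c x + h) - f (Pol A l c x + h + j))| ≤ ε * n ^ Fintype.card ι := by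
  set k := Fintype.card ι with hk
  have hk2 : 2 ≤ k := by
    have : ({p, q} : Finset ι).card ≤ Fintype.card ι := card_le_univ _
    rwa [card_pair hpq] at this
  have hm := sz_pos hdet
  set m : ℝ := ((sz A : ℕ) : ℝ) with hmd
  have hm1 : (1 : ℝ) ≤ m := by rw [hmd]; exact_mod_cast hm
  have hm0 : 0 < m := by linarith
  set E : ℝ := ε ^ 2 / (6 * (2 * Bd + 1)) with hE
  have hE0 : 0 < E := by positivity
  set c3 : ℝ := 3 ^ (k - 2) with hc3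
  have hc30 : 0 < c3 := by positivity
  set K0 : ℝ := 5832 * c3 * m / E with hK0
  have hK00 : 0 < K0 := by positivity
  set K : ℝ := K0 ^ 2 with hK
  have hKp : 0 < K := by positivity
  set κ : ℝ := min 1 (E / (64 * K ^ 3)) with hκ
  have hκ0 : 0 < κ := lt_min one_pos (by positivity)
  have hκ1 : κ ≤ 1 := min_le_left _ _
  have hκ2 : κ ^ 2 * (64 * K ^ 3) ≤ E := by
    have h1 : κ ^ 2 ≤ E / (64 * K ^ 3) := by
      calc κ ^ 2 = κ * κ := sq κ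
        _ ≤ 1 * κ := by gcongr
        _ ≤ _ := by rw [one_mul]; exact min_le_right _ _
    rwa [le_div_iff₀ (by positivity)] at h1
  set η : ℝ := E / (17568 * c3 * m ^ 2) with hη
  have hη0 : 0 < η := by positivity
  refine ⟨κ, hκ0, hκ1, η, hη0, ⌈4 * K⌉₊ + 1, fun n hn H hH hHη L hL hLκ l c a b hab X hX hXB f hf => ?_⟩
  have hnK : 4 * K ≤ n := by
    have h1 := Nat.le_ceil (4 * K)
    have h2 : ((⌈4 * K⌉₊ + 1 : ℕ) : ℝ) ≤ n := by exact_mod_cast hn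
    push_cast at h2
    linarith
  have hn1 : 1 ≤ n := by omega
  have hn1r : (1 : ℝ) ≤ n := by exact_mod_cast hn1
  have hn0 : (0 : ℝ) < n := by linarith
  have hH0 : (0 : ℝ) < H := by exact_mod_cast hH
  set Y : ℕ := sz A * n with hY
  have hYr : (Y : ℝ) = m * n := by rw [hY]; push_cast; rfl
  have hnY : n ≤ Y := Nat.le_mul_of_pos_left _ hm
  set δ : ℝ := K / (m * n ^ 2) with hδ
  have hδ0 : 0 < δ := by positivity
  have hδ1 : 4 * Y * δ ≤ 1 := by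
    rw [hYr, hδ]
    have : 4 * (m * n) * (K / (m * n ^ 2)) = 4 * K / n := by field_simp
    rw [this, div_le_one hn0]
    exact hnK
  have h1 := int_F A l c hab hn1 hnY hpq hrs hdet (fun u hu i => Lf_le A (fun j => by
    rw [Fintype.mem_piFinset] at hu
    have := hu j
    rw [mem_Icc] at this
    exact abs_le.2 this) i) hH hL hδ0 hδ1
  have h2 := diff_avg A l c a b hH hL hX hf
  set I := ∫ θ in (-(1 / 2) : ℝ)..(1 / 2), FF A l c a b H L θ with hI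
  rw [← hk] at h1
  -- the three terms
  have hn2k : (n : ℝ) ^ (2 * k - 2) * n ^ 2 = n ^ (2 * k) := by
    rw [← pow_add]; congr 1; omega
  have hCk : ((n : ℝ) * (2 * n + 1)) ^ (k - 2) * n ^ 2 ≤ c3 * n ^ (2 * k - 2) := by
    have e1 : (n : ℝ) ^ (2 * k - 2) = (n ^ 2) ^ (k - 2) * n ^ 2 := by
      rw [← pow_mul, ← pow_add]; congr 1; omega
    rw [e1, ← mul_assoc, hc3, ← mul_pow]
    apply mul_le_mul_of_nonneg_right _ (by positivity)
    apply pow_le_pow_left₀ (by positivity)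
    nlinarith
  have t1 : δ * ((n : ℝ) ^ k * (2 * Real.pi * L * δ)) ^ 2 ≤ E * n ^ (2 * k - 2) := by
    have hπ := Real.pi_lt_four
    have hπ0 := Real.pi_pos
    have e1 : δ * ((n : ℝ) ^ k * (2 * Real.pi * L * δ)) ^ 2 = 4 * Real.pi ^ 2 * L ^ 2 * δ ^ 3 * n ^ (2 * k) := by
      rw [mul_comm 2 k, pow_mul]; ring
    have e2 : 4 * Real.pi ^ 2 * (L : ℝ) ^ 2 * δ ^ 3 * n ^ (2 * k) ≤ 4 * 4 ^ 2 * (κ * n ^ 2) ^ 2 * δ ^ 3 * n ^ (2 * k) := by
      gcongr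
    have e3 : 4 * 4 ^ 2 * (κ * (n : ℝ) ^ 2) ^ 2 * δ ^ 3 * n ^ (2 * k) = κ ^ 2 * (64 * K ^ 3) * n ^ (2 * k - 2) / m ^ 3 := by
      rw [← hn2k, hδ]
      field_simp
      ring
    have e4 : κ ^ 2 * (64 * K ^ 3) * (n : ℝ) ^ (2 * k - 2) / m ^ 3 ≤ E * n ^ (2 * k - 2) := by
      rw [div_le_iff₀ (by positivity)]
      have : (1 : ℝ) ≤ m ^ 3 := one_le_pow₀ hm1
      calc κ ^ 2 * (64 * K ^ 3) * (n : ℝ) ^ (2 * k - 2) ≤ E * n ^ (2 * k - 2) := by gcongr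
        _ ≤ _ := le_mul_of_one_le_right (by positivity) this
    rw [e1]
    exact e2.trans (e3.le.trans e4)
  have t2 : 4 * ((n : ℝ) * (2 * n + 1)) ^ (k - 2) * (1458 * (n * Y) ^ (1 / 2 : ℝ) * δ ^ (-(1 / 2) : ℝ)) ≤ E * n ^ (2 * k - 2) := by
    have e1 : ((n : ℝ) * Y) ^ (1 / 2 : ℝ) * δ ^ (-(1 / 2) : ℝ) = m * n ^ 2 / K0 := by
      have e2 : (n : ℝ) * Y = m * n ^ 2 := by rw [hYr]; ring
      have e3 : δ ^ (-(1 / 2) : ℝ) = (m * n ^ 2) ^ (1 / 2 : ℝ) / K0 := by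
        rw [hδ, Real.rpow_neg (by positivity), Real.div_rpow (by positivity) (by positivity), hK,
          ← Real.sqrt_eq_rpow (K0 ^ 2), Real.sqrt_sq hK00.le, inv_div]
      rw [e2, e3, ← mul_div_assoc, ← Real.rpow_add (by positivity)]
      norm_num
    have e4 : 4 * ((n : ℝ) * (2 * n + 1)) ^ (k - 2) * (1458 * (n * Y) ^ (1 / 2 : ℝ) * δ ^ (-(1 / 2) : ℝ)) =
        5832 * m / K0 * (((n : ℝ) * (2 * n + 1)) ^ (k - 2) * n ^ 2) := by
      rw [mul_assoc 1458, e1]; ring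
    rw [e4]
    calc 5832 * m / K0 * (((n : ℝ) * (2 * n + 1)) ^ (k - 2) * n ^ 2) ≤ 5832 * m / K0 * (c3 * n ^ (2 * k - 2)) := by gcongr
      _ = E * n ^ (2 * k - 2) := by rw [hK0]; field_simp
  have t3 : 4 * ((n : ℝ) * (2 * n + 1)) ^ (k - 2) * (4392 * Y ^ 2 * (1 + Real.log (4 * Y)) ^ 4 / H) ≤ E * n ^ (2 * k - 2) := by
    have e1 : (1 + Real.log (4 * Y)) ^ 4 / H ≤ η := by
      rw [div_le_iff₀ hH0]
      exact hHη
    have e2 : 4 * ((n : ℝ) * (2 * n + 1)) ^ (k - 2) * (4392 * Y ^ 2 * (1 + Real.log (4 * Y)) ^ 4 / H) =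
        17568 * m ^ 2 * (((n : ℝ) * (2 * n + 1)) ^ (k - 2) * n ^ 2) * ((1 + Real.log (4 * Y)) ^ 4 / H) := by
      rw [hYr]; ring
    rw [e2]
    calc 17568 * m ^ 2 * (((n : ℝ) * (2 * n + 1)) ^ (k - 2) * n ^ 2) * ((1 + Real.log (4 * Y)) ^ 4 / H)
        ≤ 17568 * m ^ 2 * (c3 * n ^ (2 * k - 2)) * η := by gcongr
      _ = E * n ^ (2 * k - 2) := by rw [hη]; field_simp
  have h3 : I ≤ 6 * (E * n ^ (2 * k - 2)) := by linarith
  have h4 : (2 * (X : ℝ) + 1) * I ≤ (ε * n ^ k) ^ 2 := by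
    have h5 : 2 * (X : ℝ) + 1 ≤ (2 * Bd + 1) * n ^ 2 := by nlinarith
    calc (2 * (X : ℝ) + 1) * I ≤ (2 * X + 1) * (6 * (E * n ^ (2 * k - 2))) := by gcongr
      _ ≤ (2 * Bd + 1) * n ^ 2 * (6 * (E * n ^ (2 * k - 2))) := by gcongr
      _ = (6 * (2 * Bd + 1) * E) * (n ^ (2 * k - 2) * n ^ 2) := by ring
      _ = ε ^ 2 * n ^ (2 * k) := by
          rw [hn2k, hE]; field_simp
      _ = _ := by rw [mul_pow, mul_comm 2 k, pow_mul]
  exact abs_le_of_sq_le_sq (h2.trans h4) (by positivity)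

end Pool.Agent.Run7.h145.QP
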