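import Pool.Agent.Run7.h145.QP.B1
import Pool.Agent.Y967.CM.Q

/-! Merging of the values of quadratic polynomials with their neighbours. -/

set_option autoImplicit false

namespace Pool.Agent.Run7.h145.QP

open Finset Pool.Agent.H499R2.CO Pool.Agent.Y967.CM

theorem pow_dvd_aux : ∀ (j T : ℕ) (h w : ℤ), (2 : ℤ) ^ T ∣ h * w → ¬ (2 : ℤ) ^ j ∣ w → (2 : ℤ) ^ (T - j) ∣ h := by
  intro j
  induction j with
  | zero => intro T h w _ hw; exact absurd (by simp) hw
  | succ j ih =>
    intro T h w hT hw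
    by_cases h2 : (2 : ℤ) ∣ w
    · obtain ⟨w', rfl⟩ := h2
      have hw' : ¬ (2 : ℤ) ^ j ∣ w' := by
        intro h3
        apply hw
        rw [pow_succ, mul_comm]
        exact mul_dvd_mul_left 2 h3
      cases T with
      | zero => simp
      | succ T =>
        have h4 : (2 : ℤ) ^ T ∣ h * w' := by
          have e : h * (2 * w') = 2 * (h * w') := by ring
          rw [e, pow_succ, mul_comm] at hT
          exact (mul_dvd_mul_iff_left (by norm_num : (2 : ℤ) ≠ 0)).1 hT
        have := ih T h w' h4 hw'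
        rwa [Nat.succ_sub_succ]
    · have := Prime.pow_dvd_of_dvd_mul_right Int.prime_two T h2 hT
      exact (pow_dvd_pow 2 (Nat.sub_le _ _)).trans this

open Classical in
/-- From classes to periodic sets. -/
theorem periodic_count' {α : Type} (x : α → ℤ) (s : Finset α) {T : ℕ} {B : ℝ}
    (h : ∀ c : ℤ, (#{n ∈ s | x n ≡ c [ZMOD 2 ^ T]} : ℝ) ≤ B) (P : ℤ → Prop)
    (hP : ∀ y m : ℤ, P (y + m * 2 ^ T) ↔ P y) :
    (#{n ∈ s | P (x n)} : ℝ) ≤ B * #{c ∈ range (2 ^ T) | P ((c : ℕ) : ℤ)} := by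
  have hsub : ({n ∈ s | P (x n)} : Finset α) ⊆
      ({c ∈ range (2 ^ T) | P ((c : ℕ) : ℤ)} : Finset ℕ).biUnion
        (fun c => {n ∈ s | x n ≡ ((c : ℕ) : ℤ) [ZMOD 2 ^ T]}) := by
    intro n hn
    rw [mem_filter] at hn
    rw [mem_biUnion]
    have h2T : (0 : ℤ) < 2 ^ T := by positivity
    have h0 := Int.emod_nonneg (x n) h2T.ne'
    have h1 := Int.emod_lt_of_pos (x n) h2T
    have e : (((x n % 2 ^ T).toNat : ℕ) : ℤ) = x n % 2 ^ T := Int.toNat_of_nonneg h0
    refine ⟨(x n % 2 ^ T).toNat, ?_, ?_⟩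
    · rw [mem_filter, mem_range]
      refine ⟨?_, ?_⟩
      · have : (((x n % 2 ^ T).toNat : ℕ) : ℤ) < ((2 ^ T : ℕ) : ℤ) := by rw [e]; push_cast; exact h1
        exact_mod_cast this
      · rw [e, ← hP _ (x n / 2 ^ T)]
        have := Int.emod_add_mul_ediv (x n) (2 ^ T)
        rw [mul_comm] at this
        rw [this]; exact hn.2
    · rw [mem_filter, e]
      exact ⟨hn.1, (Int.mod_modEq _ _).symm⟩
  calc (#{n ∈ s | P (x n)} : ℝ) ≤ ∑ c ∈ ({c ∈ range (2 ^ T) | P ((c : ℕ) : ℤ)} : Finset ℕ),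
        (#{n ∈ s | x n ≡ ((c : ℕ) : ℤ) [ZMOD 2 ^ T]} : ℝ) := by
        exact_mod_cast (card_le_card hsub).trans card_biUnion_le
    _ ≤ ∑ _c ∈ ({c ∈ range (2 ^ T) | P ((c : ℕ) : ℤ)} : Finset ℕ), B := sum_le_sum fun c _ => h c
    _ = _ := by rw [sum_const, nsmul_eq_mul]; ring

/-- number of points of an interval that are pairwise congruent -/
theorem cong_count {a b : ℤ} {n : ℕ} (hn : b - a ≤ n) {D : ℕ} (hD : 1 ≤ D) (s : Finset ℤ) (hs : s ⊆ Ioc a b)
    (h : ∀ t ∈ s, ∀ t' ∈ s, (D : ℤ) ∣ t - t') : (#s : ℝ) ≤ (n : ℝ) / D + 2 := by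
  rcases le_total b a with hab | hab
  · rw [Ioc_eq_empty (by omega), subset_empty] at hs
    rw [hs, card_empty]
    simp only [Nat.cast_zero]
    positivity
  have hDz : (0 : ℤ) < D := by exact_mod_cast hD
  have h1 : #s ≤ #(Icc (a / D) (b / D)) := by
    apply card_le_card_of_injOn (fun t => t / (D : ℤ))
    · intro t ht
      have := hs ht
      rw [mem_Ioc] at this
      rw [mem_coe, mem_Icc]
      exact ⟨Int.ediv_le_ediv hDz this.1.le, Int.ediv_le_ediv hDz this.2⟩
    · intro t ht t' ht' htt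
      obtain ⟨w, hw⟩ := h t ht t' ht'
      simp only at htt
      have e : t = t' + D * w := by linarith
      rw [e, Int.add_mul_ediv_left _ _ hDz.ne'] at htt
      have : w = 0 := by omega
      rw [e, this]; ring
  rw [Int.card_Icc] at h1
  have h2 : (b / D : ℤ) - a / D ≤ (b - a) / D + 1 := by
    have e1 := Int.emod_add_mul_ediv a D
    have e2 := Int.emod_add_mul_ediv b D
    have e3 := Int.emod_add_mul_ediv (b - a) D
    have p1 := Int.emod_nonneg a hDz.ne'
    have p2 := Int.emod_lt_of_pos b hDz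
    have p3 := Int.emod_lt_of_pos (b - a) hDz
    have p4 := Int.emod_lt_of_pos a hDz
    have p5 := Int.emod_nonneg b hDz.ne'
    by_contra hcon
    push Not at hcon
    have : (D : ℤ) * ((b - a) / D + 2) ≤ D * (b / D - a / D) := mul_le_mul_of_nonneg_left (by omega) hDz.le
    nlinarith
  have h3 : (b - a) / (D : ℤ) ≤ ((n / D : ℕ) : ℤ) := by
    push_cast
    exact Int.ediv_le_ediv hDz hn
  have h4 : #s ≤ n / D + 2 := by
    generalize n / D = w at h3 ⊢
    omega
  have h5 : ((n / D : ℕ) : ℝ) ≤ (n : ℝ) / D := Nat.cast_div_le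
  calc (#s : ℝ) ≤ ((n / D + 2 : ℕ) : ℝ) := by exact_mod_cast h4
    _ ≤ _ := by push_cast; linarith

variable {ι : Type} [Fintype ι] [DecidableEq ι]

/-- Counting along lines. -/
theorem line_count {a b : ι → ℤ} {n : ℕ} (hn : ∀ i, b i - a i ≤ n) (p : ι) (Q : (ι → ℤ) → Prop) [DecidablePred Q] {C : ℝ}
    (h : ∀ z : ι → ℤ, (#{t ∈ Ioc (a p) (b p) | Q (Function.update z p t)} : ℝ) ≤ C) :
    (#{x ∈ Fintype.piFinset (fun i => Ioc (a i) (b i)) | Q x} : ℝ) ≤ C * n ^ (Fintype.card ι - 1) := by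
  set B := Fintype.piFinset (fun i => Ioc (a i) (b i)) with hB
  set V := Fintype.piFinset (fun i : ι => if i = p then ({0} : Finset ℤ) else Ioc (a i) (b i)) with hV
  have hC : 0 ≤ C := (Nat.cast_nonneg _).trans (h 0)
  have hmaps : ∀ x ∈ B.filter Q, Function.update x p 0 ∈ V := by
    intro x hx
    rw [mem_filter, hB, Fintype.mem_piFinset] at hx
    rw [hV, Fintype.mem_piFinset]
    intro i
    by_cases hi : i = p
    · subst hi
      simp
    · rw [if_neg hi, Function.update_of_ne hi]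
      exact hx.1 i
  have hcard : (#V : ℝ) ≤ n ^ (Fintype.card ι - 1) := by
    rw [hV, Fintype.card_piFinset, ← mul_prod_erase univ _ (mem_univ p), if_pos rfl, card_singleton, one_mul]
    push_cast
    have hc : #(univ.erase p) = Fintype.card ι - 1 := by
      rw [card_erase_of_mem (mem_univ p), card_univ]
    rw [← hc, ← prod_const]
    apply prod_le_prod (fun i _ => Nat.cast_nonneg _)
    intro i hi
    rw [if_neg (mem_erase.1 hi).1, Int.card_Ioc]
    have := hn i
    have h' : (b i - a i).toNat ≤ n := by omega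
    exact_mod_cast h'
  have hfib : ∀ z ∈ V, (#{x ∈ B.filter Q | Function.update x p 0 = z} : ℝ) ≤ C := by
    intro z _
    refine le_trans ?_ (h z)
    have : #{x ∈ B.filter Q | Function.update x p 0 = z} ≤ #{t ∈ Ioc (a p) (b p) | Q (Function.update z p t)} := by
      apply card_le_card_of_injOn (fun x => x p)
      · intro x hx
        rw [mem_coe, mem_filter, mem_filter, hB, Fintype.mem_piFinset] at hx
        rw [mem_coe, mem_filter]
        refine ⟨hx.1.1 p, ?_⟩
        rw [← hx.2]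
        simpa using hx.1.2
      · intro x hx y hy hxy
        rw [mem_coe, mem_filter] at hx hy
        have e := hx.2.trans hy.2.symm
        ext i
        by_cases hi : i = p
        · rw [hi]; exact hxy
        · have := congrFun e i
          rwa [Function.update_of_ne hi, Function.update_of_ne hi] at this
    exact_mod_cast this
  have h1 := card_eq_sum_card_fiberwise (f := fun x : ι → ℤ => Function.update x p 0) (s := B.filter Q) (t := V) hmaps
  calc (#(B.filter Q) : ℝ) = ∑ z ∈ V, (#{x ∈ B.filter Q | Function.update x p 0 = z} : ℝ) := by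
        rw [h1]; push_cast; rfl
    _ ≤ ∑ z ∈ V, C := sum_le_sum hfib
    _ = C * #V := by rw [sum_const, nsmul_eq_mul]; ring
    _ ≤ _ := by gcongr

/-- the partial derivative -/
def Dl (A : ι → ι → ℤ) (l : ι → ℤ) (x : ι → ℤ) (p : ι) : ℤ := Lf A x p + l p

theorem Lf_update (A : ι → ι → ℤ) (z : ι → ℤ) (p r : ι) (t t' : ℤ) :
    Lf A (Function.update z r t') p - Lf A (Function.update z r t) p = Sy A p r * (t' - t) := by
  unfold Lf
  rw [← sum_sub_distrib, sum_eq_single r]
  · rw [Function.update_self, Function.update_self]; ring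
  · intro j _ hj
    rw [Function.update_of_ne hj, Function.update_of_ne hj, sub_self]
  · intro h; exact absurd (mem_univ r) h

theorem Pol_update (A : ι → ι → ℤ) (l : ι → ℤ) (c : ℤ) (z : ι → ℤ) (p : ι) (t t' : ℤ) :
    Pol A l c (Function.update z p t') - Pol A l c (Function.update z p t) =
      (t' - t) * (Dl A l (Function.update z p t) p + A p p * (t' - t)) := by
  have e : Function.update z p t' = Function.update z p t + Pi.single p (t' - t) := by
    ext i
    by_cases hi : i = p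
    · subst hi; simp
    · simp [hi]
  rw [e, Pol_add]
  have e1 : ∀ i, Lf A (Pi.single p (t' - t)) i = Sy A i p * (t' - t) := by
    intro i
    unfold Lf
    rw [sum_eq_single p]
    · simp
    · intro j _ hj; simp [hj]
    · intro h; exact absurd (mem_univ p) h
  have e2 : Pol A l 0 (Pi.single p (t' - t)) = A p p * (t' - t) * (t' - t) + l p * (t' - t) := by
    unfold Pol
    rw [sum_eq_single p, sum_eq_single p, sum_eq_single p]
    · simp
    · intro j _ hj; simp [hj]
    · intro h; exact absurd (mem_univ p) h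
    · intro j _ hj; simp [hj]
    · intro h; exact absurd (mem_univ p) h
    · intro j _ hj; simp [hj]
    · intro h; exact absurd (mem_univ p) h
  rw [e2]
  simp_rw [e1]
  unfold Dl
  have e3 : Lf A (Function.update z p t) p = ∑ i, Sy A i p * Function.update z p t i := by
    unfold Lf
    refine sum_congr rfl fun j _ => ?_
    unfold Sy
    ring
  rw [e3, mul_add, mul_add, mul_sum]
  have e4 : ∑ i, Sy A i p * (t' - t) * Function.update z p t i = ∑ i, (t' - t) * (Sy A i p * Function.update z p t i) :=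
    sum_congr rfl fun i _ => by ring
  rw [e4]
  ring

/-- The points where the derivative is divisible by a high power of two. -/
theorem deriv_count (A : ι → ι → ℤ) (l : ι → ℤ) {a b : ι → ℤ} {n : ℕ} (hn : ∀ i, b i - a i ≤ n) {p r : ι}
    (hpr : Sy A p r ≠ 0) (j : ℕ) :
    (#{x ∈ Fintype.piFinset (fun i => Ioc (a i) (b i)) | (2 : ℤ) ^ j ∣ Dl A l x p} : ℝ) ≤
      ((n : ℝ) / (2 ^ (j - (Sy A p r).natAbs) : ℕ) + 2) * n ^ (Fintype.card ι - 1) := by
  apply line_count hn r
  intro z
  apply cong_count (hn r) (Nat.one_le_two_pow) _ (filter_subset _ _)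
  intro t ht t' ht'
  rw [mem_filter] at ht ht'
  have h1 : (2 : ℤ) ^ j ∣ (t - t') * Sy A p r := by
    have := dvd_sub ht.2 ht'.2
    unfold Dl at this
    have e : Lf A (Function.update z r t) p + l p - (Lf A (Function.update z r t') p + l p) = (t - t') * Sy A p r := by
      have := Lf_update A z p r t' t
      linear_combination this
    rwa [e] at this
  have h2 : ¬ (2 : ℤ) ^ (Sy A p r).natAbs ∣ Sy A p r := by
    intro h
    have h3 := Int.natAbs_dvd_natAbs.2 h
    rw [Int.natAbs_pow] at h3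
    have h4 := Nat.le_of_dvd (Int.natAbs_pos.2 hpr) h3
    have h5 : (Sy A p r).natAbs < 2 ^ (Sy A p r).natAbs := Nat.lt_two_pow_self
    simp only [Int.reduceAbs] at h4
    omega
  have := pow_dvd_aux _ _ _ _ h1 h2
  push_cast
  exact this

/-- The values of the polynomial in residue classes, on a line. -/
theorem line_class (A : ι → ι → ℤ) (l : ι → ℤ) (c : ℤ) {a b : ι → ℤ} {n : ℕ} (hn : ∀ i, b i - a i ≤ n) (p : ι)
    (z : ι → ℤ) {j T : ℕ} (hj : 1 ≤ j) (hjT : j ≤ T) (hT : n < 2 ^ (T + 1)) (r : ℤ) :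
    (#{t ∈ (Ioc (a p) (b p)).filter (fun t => ¬ (2 : ℤ) ^ j ∣ Dl A l (Function.update z p t) p) |
      Pol A l c (Function.update z p t) ≡ r [ZMOD 2 ^ T]} : ℝ) ≤ 4 * 4 ^ j := by
  set s := {t ∈ (Ioc (a p) (b p)).filter (fun t => ¬ (2 : ℤ) ^ j ∣ Dl A l (Function.update z p t) p) |
      Pol A l c (Function.update z p t) ≡ r [ZMOD 2 ^ T]} with hs
  have h2j : (0 : ℤ) < 2 ^ j := by positivity
  have hmaps : ∀ t ∈ s, (t % 2 ^ j).toNat ∈ range (2 ^ j) := by
    intro t _
    rw [mem_range]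
    have := Int.emod_lt_of_pos t h2j
    have h3 := Int.emod_nonneg t h2j.ne'
    have : ((t % 2 ^ j).toNat : ℤ) < ((2 ^ j : ℕ) : ℤ) := by
      rw [Int.toNat_of_nonneg h3]; push_cast; exact this
    exact_mod_cast this
  have hfib : ∀ y ∈ range (2 ^ j), (#{t ∈ s | (t % 2 ^ j).toNat = y} : ℝ) ≤ 4 * 2 ^ j := by
    intro y _
    have h1 := cong_count (hn p) (D := 2 ^ (T - j)) Nat.one_le_two_pow {t ∈ s | (t % 2 ^ j).toNat = y} (by
      intro t ht
      rw [mem_filter, hs, mem_filter, mem_filter] at ht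
      exact ht.1.1.1) (by
      intro t ht t' ht'
      rw [mem_filter, hs, mem_filter, mem_filter] at ht ht'
      have h3 := Int.emod_nonneg t h2j.ne'
      have h3' := Int.emod_nonneg t' h2j.ne'
      have h4 : t % 2 ^ j = t' % 2 ^ j := by
        have := ht.2.trans ht'.2.symm
        omega
      have h5 : (2 : ℤ) ^ j ∣ t - t' := Int.ModEq.dvd (Int.ModEq.symm h4)
      have h6 : (2 : ℤ) ^ T ∣ (t - t') * (Dl A l (Function.update z p t') p + A p p * (t - t')) := by
        rw [← Pol_update]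
        exact Int.ModEq.dvd (ht'.1.2.trans ht.1.2.symm)
      have h7 : ¬ (2 : ℤ) ^ j ∣ Dl A l (Function.update z p t') p + A p p * (t - t') := by
        intro h
        apply ht'.1.1.2
        exact (dvd_add_left (Dvd.dvd.mul_left h5 _)).1 h
      have := pow_dvd_aux _ _ _ _ h6 h7
      push_cast
      exact this)
    have h2 : (n : ℝ) / ((2 ^ (T - j) : ℕ) : ℝ) ≤ 2 * 2 ^ j := by
      rw [div_le_iff₀ (by positivity)]
      have e : 2 * 2 ^ j * 2 ^ (T - j) = 2 ^ (T + 1) := by
        have : T + 1 = 1 + j + (T - j) := by omega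
        rw [this, pow_add, pow_add, pow_one]
      have : (n : ℝ) ≤ ((2 * 2 ^ j * 2 ^ (T - j) : ℕ) : ℝ) := by
        rw [e]; exact_mod_cast hT.le
      push_cast at this ⊢
      exact this
    have h3 : (2 : ℝ) ≤ 2 ^ j := by
      calc (2 : ℝ) = 2 ^ 1 := by norm_num
        _ ≤ 2 ^ j := pow_le_pow_right₀ (by norm_num) hj
    linarith
  have h1 := card_eq_sum_card_fiberwise (f := fun t : ℤ => (t % 2 ^ j).toNat) (s := s) (t := range (2 ^ j)) hmaps
  calc (#s : ℝ) = ∑ y ∈ range (2 ^ j), (#{t ∈ s | (t % 2 ^ j).toNat = y} : ℝ) := by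
        rw [h1]; push_cast; rfl
    _ ≤ ∑ y ∈ range (2 ^ j), (4 * 2 ^ j : ℝ) := sum_le_sum hfib
    _ = 4 * (2 ^ j * 2 ^ j) := by rw [sum_const, card_range, nsmul_eq_mul]; push_cast; ring
    _ = 4 * 4 ^ j := by rw [← mul_pow]; norm_num

open Classical in
/-- The points whose values survive. -/
theorem surv_count (A : ι → ι → ℤ) (l : ι → ℤ) (c : ℤ) {a b : ι → ℤ} {n : ℕ} (hn : ∀ i, b i - a i ≤ n) (p : ι)
    {j T : ℕ} (hj : 1 ≤ j) (hjT : j ≤ T) (hT : n < 2 ^ (T + 1)) (hT' : 2 ^ T ≤ n) (r : ℤ) :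
    (#{x ∈ Fintype.piFinset (fun i => Ioc (a i) (b i)) | ¬ (2 : ℤ) ^ j ∣ Dl A l x p ∧ surv 1 T (0, r) (Pol A l c x)} : ℝ) ≤
      4 * 4 ^ j * q step (0, 0) T (0, r) * n ^ Fintype.card ι := by
  have hι : 1 ≤ Fintype.card ι := Fintype.card_pos_iff.2 ⟨p⟩
  have hq := q_nonneg (st := step) (o := ((0 : ℕ), (0 : ℤ))) T (0, r)
  have h := line_count hn p (fun x => ¬ (2 : ℤ) ^ j ∣ Dl A l x p ∧ surv 1 T (0, r) (Pol A l c x))
    (C := 4 * 4 ^ j * (n * q step (0, 0) T (0, r))) (by
      intro z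
      have h1 := periodic_count' (fun t => Pol A l c (Function.update z p t))
        ((Ioc (a p) (b p)).filter (fun t => ¬ (2 : ℤ) ^ j ∣ Dl A l (Function.update z p t) p)) (T := T)
        (B := 4 * 4 ^ j) (fun r => line_class A l c hn p z hj hjT hT r) (surv 1 T (0, r))
        (fun y m => surv_periodic (by norm_num) T (0, r) y m)
      rw [card_surv, filter_filter] at h1
      refine h1.trans ?_
      have : (2 : ℝ) ^ T ≤ n := by exact_mod_cast hT'
      gcongr)
  refine h.trans (le_of_eq ?_)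
  have e : (n : ℝ) ^ Fintype.card ι = n * n ^ (Fintype.card ι - 1) := by
    rw [← pow_succ']; congr 1; omega
  rw [e]; ring

end Pool.Agent.Run7.h145.QP
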