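import Pool.Agent.Run7.h145.QP.D1
import Pool.Agent.Run7.h145.QP.C3

/-! Merging of the values of quadratic polynomials with their neighbours: the limit. -/

set_option autoImplicit false

namespace Pool.Agent.Run7.h145.QP

open Finset Pool.Agent.H499R2.CO Pool.Agent.Y967.CM Filter Topology

/-- A bounded function with the same value at integers that merge. -/
def Mer (f : ℤ → ℝ) : Prop :=
  (∀ n, |f n| ≤ 1) ∧ ∀ (t : ℕ) (x y : ℤ), (Tz 1)^[t] x = (Tz 1)^[t] y → f x = f y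

theorem rate_small {ε : ℝ} (hε : 0 < ε) : ∃ T₀ : ℕ, 1 ≤ T₀ ∧ ∀ T : ℕ, T₀ ≤ T →
    √ (1 + ((0 : ℕ) : ℝ) ^ 2 + (Nat.sqrt T : ℕ)) * rho T ≤ ε := by
  refine ⟨⌈(16 / ε ^ 2) ^ 4⌉₊ + 1, by omega, fun T hT => ?_⟩
  have hT1 : 1 ≤ T := by omega
  have hTr : (1 : ℝ) ≤ T := by exact_mod_cast hT1
  have hT0 : (0 : ℝ) < T := by linarith
  have hTb : (16 / ε ^ 2) ^ 4 ≤ T := by
    have h1 := Nat.le_ceil ((16 / ε ^ 2) ^ 4)
    have h2 : ((⌈(16 / ε ^ 2) ^ 4⌉₊ + 1 : ℕ) : ℝ) ≤ T := by exact_mod_cast hT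
    push_cast at h2
    linarith
  set y : ℝ := (T : ℝ) ^ (1 / 4 : ℝ) with hy
  have hy0 : 0 < y := by positivity
  have hy4 : y ^ 4 = T := by
    rw [hy, ← Real.rpow_natCast, ← Real.rpow_mul hT0.le]; norm_num
  have hy1 : 1 ≤ y := Real.one_le_rpow hTr (by norm_num)
  have hyb : 16 / ε ^ 2 ≤ y := by
    by_contra h
    push Not at h
    have : y ^ 4 < (16 / ε ^ 2) ^ 4 := pow_lt_pow_left₀ h hy0.le (by norm_num)
    linarith
  have hs : ((Nat.sqrt T : ℕ) : ℝ) ≤ y ^ 2 := by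
    have h1 : Nat.sqrt T ^ 2 ≤ T := Nat.sqrt_le' T
    have h2 : ((Nat.sqrt T : ℕ) : ℝ) ^ 2 ≤ (y ^ 2) ^ 2 := by
      have e : (y ^ 2) ^ 2 = T := by rw [← hy4]; ring
      rw [e]; exact_mod_cast h1
    exact le_of_sq_le_sq h2 (by positivity)
  have hl : Real.log ((T : ℝ) + 1) ≤ 8 * y := by
    have h1 := Real.log_le_rpow_div (x := (T : ℝ) + 1) (ε := 1 / 4) (by linarith) (by norm_num)
    have h2 : ((T : ℝ) + 1) ^ (1 / 4 : ℝ) ≤ 2 * y := by
      have h3 : ((T : ℝ) + 1) ^ (1 / 4 : ℝ) ≤ (2 ^ 4 * T) ^ (1 / 4 : ℝ) :=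
        Real.rpow_le_rpow (by linarith) (by nlinarith) (by norm_num)
      refine h3.trans (le_of_eq ?_)
      rw [Real.mul_rpow (by norm_num) hT0.le]
      congr 1
      rw [← Real.rpow_natCast, ← Real.rpow_mul (by norm_num)]
      norm_num
    calc Real.log ((T : ℝ) + 1) ≤ ((T : ℝ) + 1) ^ (1 / 4 : ℝ) / (1 / 4) := h1
      _ ≤ (2 * y) / (1 / 4) := by gcongr
      _ = 8 * y := by ring
  have hlog0 := Real.log_nonneg (show (1 : ℝ) ≤ T + 1 by linarith)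
  unfold rho
  rw [← Real.sqrt_mul (by positivity)]
  apply Real.sqrt_le_iff.2
  refine ⟨hε.le, ?_⟩
  have h5 : (1 + ((0 : ℕ) : ℝ) ^ 2 + ((Nat.sqrt T : ℕ) : ℝ)) * (Real.log (T + 1) / T) ≤ (2 * y ^ 2) * (8 * y / y ^ 4) := by
    have p1 : 1 + ((0 : ℕ) : ℝ) ^ 2 + ((Nat.sqrt T : ℕ) : ℝ) ≤ 2 * y ^ 2 := by
      push_cast
      nlinarith
    rw [hy4]
    have p2 : Real.log ((T : ℝ) + 1) / T ≤ 8 * y / T := by gcongr
    exact mul_le_mul p1 p2 (by positivity) (by positivity)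
  refine h5.trans ?_
  have h6 : 2 * y ^ 2 * (8 * y / y ^ 4) = 16 / y := by field_simp; norm_num
  rw [h6, div_le_iff₀ hy0]
  rw [div_le_iff₀ (by positivity)] at hyb
  linarith

variable {ι : Type} [Fintype ι] [DecidableEq ι]

open Classical in
/-- Few values do not merge with a given neighbour. -/
theorem bad_count (A : ι → ι → ℤ) {p r : ι} (hpr : Sy A p r ≠ 0) {ε : ℝ} (hε : 0 < ε) :
    ∃ n₀ : ℕ, ∀ n : ℕ, n₀ ≤ n → ∀ h : ℤ, |h| ≤ 4 ^ Nat.sqrt (Nat.log 2 n) →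
      ∀ (l : ι → ℤ) (c : ℤ) (a b : ι → ℤ), (∀ i, b i - a i ≤ n) → ∀ f : ℤ → ℝ, Mer f →
      (#{x ∈ Fintype.piFinset (fun i => Ioc (a i) (b i)) | f (Pol A l c x + h) ≠ f (Pol A l c x)} : ℝ) ≤
        ε * n ^ Fintype.card ι := by
  obtain ⟨C, hC, hq⟩ := q_rate
  have hι : 1 ≤ Fintype.card ι := Fintype.card_pos_iff.2 ⟨p⟩
  set v := (Sy A p r).natAbs with hv
  obtain ⟨i, hi⟩ : ∃ i : ℕ, 3 / ε < 2 ^ i := pow_unbounded_of_one_lt _ (by norm_num)
  set j := v + i + 1 with hj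
  obtain ⟨T₀, hT₀, hrate⟩ := rate_small (ε := ε / 3 / (4 * 4 ^ j * C)) (by positivity)
  refine ⟨2 ^ (T₀ + j) + ⌈6 / ε⌉₊ + 1, fun n hn h hh l c a b hab f hf => ?_⟩
  have h2pow := Nat.one_le_two_pow (n := T₀ + j)
  have hn1 : 1 ≤ n := by omega
  have hn0 : (0 : ℝ) < n := by exact_mod_cast hn1
  have hn6 : 2 / (n : ℝ) ≤ ε / 3 := by
    have h1 := Nat.le_ceil (6 / ε)
    have h2 : ((2 ^ (T₀ + j) + ⌈6 / ε⌉₊ + 1 : ℕ) : ℝ) ≤ n := by exact_mod_cast hn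
    push_cast at h2
    have h3 : 6 / ε ≤ n := by
      have : (0 : ℝ) < 2 ^ (T₀ + j) := by positivity
      linarith
    rw [div_le_iff₀ hε] at h3
    rw [div_le_iff₀ hn0]
    linarith
  set T := Nat.log 2 n with hT
  have hTn : 2 ^ T ≤ n := Nat.pow_log_le_self 2 (by omega)
  have hTn' : n < 2 ^ (T + 1) := Nat.lt_pow_succ_log_self (by norm_num) n
  have hT1 : T₀ + j ≤ T := by
    rw [hT]
    apply Nat.le_log_of_pow_le (by norm_num)
    omega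
  set u := Nat.sqrt T with hu
  have hsub : ({x ∈ Fintype.piFinset (fun i => Ioc (a i) (b i)) | f (Pol A l c x + h) ≠ f (Pol A l c x)} : Finset (ι → ℤ)) ⊆
      ({x ∈ Fintype.piFinset (fun i => Ioc (a i) (b i)) | (2 : ℤ) ^ j ∣ Dl A l x p} : Finset (ι → ℤ)) ∪
      ({x ∈ Fintype.piFinset (fun i => Ioc (a i) (b i)) | ¬ (2 : ℤ) ^ j ∣ Dl A l x p ∧ surv 1 T (0, h) (Pol A l c x)} : Finset (ι → ℤ)) := by
    intro x hx
    rw [mem_filter] at hx
    rw [mem_union, mem_filter, mem_filter]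
    by_cases h1 : (2 : ℤ) ^ j ∣ Dl A l x p
    · left; exact ⟨hx.1, h1⟩
    · right
      refine ⟨hx.1, h1, ?_⟩
      by_contra h2
      apply hx.2
      have h3 := coal_T h2
      rw [pow_zero, one_mul] at h3
      exact hf.2 T _ _ h3
  have h1 := deriv_count A l hab hpr j
  have h2 := surv_count A l c hab p (j := j) (T := T) (by omega) (by omega) hTn' hTn h
  have h3 : q step (0, 0) T (0, h) ≤ C * √ (1 + ((0 : ℕ) : ℝ) ^ 2 + u) * rho T := by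
    apply hq T (by omega) 0 u h
    exact_mod_cast hh
  have h4 := hrate T (by omega)
  have h5 : 4 * 4 ^ j * q step (0, 0) T (0, h) ≤ ε / 3 := by
    calc 4 * 4 ^ j * q step (0, 0) T (0, h) ≤ 4 * 4 ^ j * (C * √ (1 + ((0 : ℕ) : ℝ) ^ 2 + u) * rho T) := by gcongr
      _ = (4 * 4 ^ j * C) * (√ (1 + ((0 : ℕ) : ℝ) ^ 2 + u) * rho T) := by ring
      _ ≤ (4 * 4 ^ j * C) * (ε / 3 / (4 * 4 ^ j * C)) := by gcongr
      _ = ε / 3 := by field_simp
  have h6 : ((n : ℝ) / (2 ^ (j - v) : ℕ) + 2) * n ^ (Fintype.card ι - 1) ≤ (2 * ε / 3) * n ^ Fintype.card ι := by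
    have e : (n : ℝ) ^ Fintype.card ι = n * n ^ (Fintype.card ι - 1) := by
      rw [← pow_succ']; congr 1; omega
    rw [e, ← mul_assoc]
    apply mul_le_mul_of_nonneg_right _ (by positivity)
    have e2 : j - v = i + 1 := by omega
    rw [e2]
    have h7 : 1 / ((2 ^ (i + 1) : ℕ) : ℝ) ≤ ε / 3 := by
      rw [div_le_div_iff₀ (by positivity) (by norm_num)]
      rw [div_lt_iff₀ hε] at hi
      push_cast
      rw [pow_succ]
      nlinarith
    have h8 : 2 ≤ ε / 3 * n := by rwa [div_le_iff₀ hn0] at hn6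
    have h9 : (n : ℝ) / ((2 ^ (i + 1) : ℕ) : ℝ) = (1 / ((2 ^ (i + 1) : ℕ) : ℝ)) * n := by ring
    rw [h9]
    have h10 : 1 / ((2 ^ (i + 1) : ℕ) : ℝ) * n ≤ ε / 3 * n := by gcongr
    linarith
  calc (#{x ∈ Fintype.piFinset (fun i => Ioc (a i) (b i)) | f (Pol A l c x + h) ≠ f (Pol A l c x)} : ℝ)
      ≤ (#{x ∈ Fintype.piFinset (fun i => Ioc (a i) (b i)) | (2 : ℤ) ^ j ∣ Dl A l x p} : ℝ) +
        #{x ∈ Fintype.piFinset (fun i => Ioc (a i) (b i)) | ¬ (2 : ℤ) ^ j ∣ Dl A l x p ∧ surv 1 T (0, h) (Pol A l c x)} := by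
        exact_mod_cast (card_le_card hsub).trans (card_union_le _ _)
    _ ≤ (2 * ε / 3) * n ^ Fintype.card ι + ε / 3 * n ^ Fintype.card ι := by
        apply add_le_add
        · exact h1.trans h6
        · refine h2.trans ?_
          gcongr
    _ = _ := by ring

/-- The powers of the logarithm. -/
theorem log_cond {η : ℝ} (hη : 0 < η) (m : ℕ) (hm : 1 ≤ m) : ∃ n₀ : ℕ, ∀ n : ℕ, n₀ ≤ n →
    (1 + Real.log (4 * (m * n : ℕ))) ^ 4 ≤ η * ((4 ^ Nat.sqrt (Nat.log 2 n) : ℕ) : ℝ) := by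
  set C : ℝ := 2 + Real.log (4 * m) with hC
  have hmr : (1 : ℝ) ≤ m := by exact_mod_cast hm
  have hlm : 0 ≤ Real.log (4 * m) := Real.log_nonneg (by linarith)
  have hC0 : 0 < C := by linarith
  have h1 := tendsto_pow_const_div_const_pow_of_one_lt 8 (show (1 : ℝ) < 4 by norm_num)
  have h2 : ∀ᶠ u : ℕ in atTop, (u : ℝ) ^ 8 / 4 ^ u < η / (4 * C ^ 4) := (tendsto_order.1 h1).2 _ (by positivity)
  obtain ⟨u₀, hu₀⟩ := eventually_atTop.1 h2
  refine ⟨2 ^ (u₀ * u₀) + 1, fun n hn => ?_⟩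
  have h2pow := Nat.one_le_two_pow (n := u₀ * u₀)
  have hn1 : 1 ≤ n := by omega
  have hn0 : (0 : ℝ) < n := by exact_mod_cast hn1
  set T := Nat.log 2 n with hT
  have hTn' : n < 2 ^ (T + 1) := Nat.lt_pow_succ_log_self (by norm_num) n
  have hT1 : u₀ * u₀ ≤ T := by
    rw [hT]
    apply Nat.le_log_of_pow_le (by norm_num)
    omega
  set u := Nat.sqrt T with hu
  have hu1 : u₀ ≤ u := Nat.le_sqrt.2 hT1
  have hu2 : T < (u + 1) * (u + 1) := Nat.lt_succ_sqrt T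
  have h3 := hu₀ (u + 1) (by omega)
  rw [div_lt_iff₀ (by positivity)] at h3
  have h4 : Real.log (4 * ((m * n : ℕ) : ℝ)) ≤ Real.log (4 * m) + ((u : ℝ) + 1) ^ 2 := by
    have e : 4 * ((m * n : ℕ) : ℝ) = (4 * m) * n := by push_cast; ring
    rw [e, Real.log_mul (by positivity) hn0.ne']
    have h5 : Real.log n ≤ (T + 1 : ℕ) := by
      have h6 : Real.log n ≤ Real.log ((2 : ℝ) ^ (T + 1)) := by
        apply Real.log_le_log hn0
        exact_mod_cast hTn'.le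
      rw [Real.log_pow] at h6
      have h7 := Real.log_two_lt_d9
      have h8 : ((T + 1 : ℕ) : ℝ) * Real.log 2 ≤ ((T + 1 : ℕ) : ℝ) * 1 := by
        apply mul_le_mul_of_nonneg_left _ (by positivity)
        linarith
      linarith
    have h9 : ((T + 1 : ℕ) : ℝ) ≤ ((u : ℝ) + 1) ^ 2 := by
      have : T + 1 ≤ (u + 1) * (u + 1) := hu2
      have h10 : ((T + 1 : ℕ) : ℝ) ≤ (((u + 1) * (u + 1) : ℕ) : ℝ) := by exact_mod_cast this
      push_cast at h10 ⊢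
      nlinarith
    linarith
  have hlog0 : 0 ≤ Real.log (4 * ((m * n : ℕ) : ℝ)) := by
    apply Real.log_nonneg
    have : 1 ≤ m * n := Nat.mul_pos hm hn1
    have : (1 : ℝ) ≤ ((m * n : ℕ) : ℝ) := by exact_mod_cast this
    linarith
  have h5 : 1 + Real.log (4 * ((m * n : ℕ) : ℝ)) ≤ C * ((u : ℝ) + 1) ^ 2 := by
    have : (1 : ℝ) ≤ ((u : ℝ) + 1) ^ 2 := by
      have : (0 : ℝ) ≤ u := Nat.cast_nonneg _
      nlinarith
    rw [hC]
    nlinarith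
  calc (1 + Real.log (4 * ((m * n : ℕ) : ℝ))) ^ 4 ≤ (C * ((u : ℝ) + 1) ^ 2) ^ 4 :=
        pow_le_pow_left₀ (by linarith) h5 4
    _ = C ^ 4 * (((u + 1 : ℕ) : ℝ) ^ 8) := by push_cast; ring
    _ ≤ C ^ 4 * (η / (4 * C ^ 4) * 4 ^ (u + 1)) := by gcongr
    _ = η * ((4 ^ u : ℕ) : ℝ) := by
        push_cast
        have : (4 : ℝ) ^ (u + 1) = 4 * 4 ^ u := by ring
        rw [this]
        field_simp

/-- Averaging over the neighbours. -/
theorem merge_avg (A : ι → ι → ℤ) (l : ι → ℤ) (c : ℤ) {a b : ι → ℤ} {H : ℕ} (hH : 1 ≤ H)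
    {f : ℤ → ℝ} (hf : ∀ n, |f n| ≤ 1) {β : ℝ}
    (h : ∀ h ∈ Icc 1 H, (#{x ∈ Fintype.piFinset (fun i => Ioc (a i) (b i)) | f (Pol A l c x + (h : ℕ)) ≠ f (Pol A l c x)} : ℝ) ≤ β) :
    |∑ x ∈ Fintype.piFinset (fun i => Ioc (a i) (b i)), f (Pol A l c x) -
      (1 / (H : ℝ)) * ∑ x ∈ Fintype.piFinset (fun i => Ioc (a i) (b i)), ∑ h ∈ Icc 1 H, f (Pol A l c x + (h : ℕ))| ≤ 2 * β := by
  set B := Fintype.piFinset (fun i => Ioc (a i) (b i)) with hB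
  have hH0 : (0 : ℝ) < H := by exact_mod_cast hH
  have e : ∑ x ∈ B, f (Pol A l c x) - (1 / (H : ℝ)) * ∑ x ∈ B, ∑ h ∈ Icc 1 H, f (Pol A l c x + (h : ℕ)) =
      (1 / (H : ℝ)) * ∑ h ∈ Icc 1 H, ∑ x ∈ B, (f (Pol A l c x) - f (Pol A l c x + (h : ℕ))) := by
    have e1 : ∑ h ∈ Icc 1 H, ∑ x ∈ B, (f (Pol A l c x) - f (Pol A l c x + (h : ℕ))) =
        H * ∑ x ∈ B, f (Pol A l c x) - ∑ x ∈ B, ∑ h ∈ Icc 1 H, f (Pol A l c x + (h : ℕ)) := by
      simp_rw [sum_sub_distrib]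
      rw [sum_const, Nat.card_Icc, nsmul_eq_mul, Nat.add_sub_cancel]
      congr 1
      exact sum_comm
    rw [e1, mul_sub]
    congr 1
    field_simp
  rw [e, abs_mul, abs_of_pos (by positivity : 0 < 1 / (H : ℝ))]
  have h1 : ∀ h ∈ Icc 1 H, |∑ x ∈ B, (f (Pol A l c x) - f (Pol A l c x + (h : ℕ)))| ≤ 2 * β := by
    intro j hj
    refine le_trans ?_ (mul_le_mul_of_nonneg_left (h j hj) (by norm_num))
    calc |∑ x ∈ B, (f (Pol A l c x) - f (Pol A l c x + (j : ℕ)))| ≤ ∑ x ∈ B, |f (Pol A l c x) - f (Pol A l c x + (j : ℕ))| :=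
          abs_sum_le_sum_abs _ _
      _ ≤ ∑ x ∈ B, (if f (Pol A l c x + (j : ℕ)) ≠ f (Pol A l c x) then (2 : ℝ) else 0) := by
          apply sum_le_sum
          intro x _
          split_ifs with h2
          · refine (abs_sub _ _).trans ?_
            have := hf (Pol A l c x)
            have := hf (Pol A l c x + (j : ℕ))
            linarith
          · push Not at h2
            rw [h2, sub_self, abs_zero]
      _ = _ := by rw [← sum_filter, sum_const, nsmul_eq_mul]; ring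
  calc 1 / (H : ℝ) * |∑ h ∈ Icc 1 H, ∑ x ∈ B, (f (Pol A l c x) - f (Pol A l c x + (h : ℕ)))|
      ≤ 1 / (H : ℝ) * ∑ h ∈ Icc 1 H, (2 * β) := by
        apply mul_le_mul_of_nonneg_left _ (by positivity)
        exact (abs_sum_le_sum_abs _ _).trans (sum_le_sum h1)
    _ = 2 * β := by
        rw [sum_const, Nat.card_Icc, nsmul_eq_mul, Nat.add_sub_cancel]
        field_simp

end Pool.Agent.Run7.h145.QP
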