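import Pool.Agent.Run7.h145.QP.D2

/-! The main theorem, for functions. -/

set_option autoImplicit false

namespace Pool.Agent.Run7.h145.QP

open Finset Pool.Agent.H499R2.CO Pool.Agent.Y967.CM Filter Topology

variable {ι : Type} [Fintype ι] [DecidableEq ι]

/-- size of the coefficients -/
def sa (A : ι → ι → ℤ) : ℕ := ∑ i, ∑ j, (A i j).natAbs

omit [DecidableEq ι] in
theorem Pol_le (A : ι → ι → ℤ) {l : ι → ℤ} {c : ℤ} {x : ι → ℤ} {R : ℕ} {B : ℝ} (hx : ∀ i, |x i| ≤ R)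
    (hl : ∀ i, |(l i : ℝ)| ≤ B * R) (hc : |(c : ℝ)| ≤ B * R ^ 2) :
    |(Pol A l c x : ℝ)| ≤ (sa A + Fintype.card ι * B + B) * R ^ 2 := by
  have hx' : ∀ i, |(x i : ℝ)| ≤ R := by
    intro i
    have := hx i
    exact_mod_cast this
  unfold Pol
  push_cast
  have h1 : |∑ i, ∑ j, (A i j : ℝ) * x i * x j| ≤ sa A * R ^ 2 := by
    calc |∑ i, ∑ j, (A i j : ℝ) * x i * x j| ≤ ∑ i, ∑ j, |(A i j : ℝ) * x i * x j| :=
          (abs_sum_le_sum_abs _ _).trans (sum_le_sum fun i _ => abs_sum_le_sum_abs _ _)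
      _ ≤ ∑ i, ∑ j, ((A i j).natAbs : ℝ) * R ^ 2 := by
          apply sum_le_sum; intro i _
          apply sum_le_sum; intro j _
          rw [abs_mul, abs_mul]
          have e : |(A i j : ℝ)| = ((A i j).natAbs : ℝ) := by
            rw [← Int.cast_abs, Int.abs_eq_natAbs]; simp
          rw [e, sq, mul_assoc]
          have := hx' i
          have := hx' j
          gcongr
      _ = _ := by
          unfold sa
          push_cast
          simp_rw [sum_mul]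
  have h2 : |∑ i, (l i : ℝ) * x i| ≤ Fintype.card ι * B * R ^ 2 := by
    calc |∑ i, (l i : ℝ) * x i| ≤ ∑ i, |(l i : ℝ) * x i| := abs_sum_le_sum_abs _ _
      _ ≤ ∑ _i : ι, (B * R) * R := by
          apply sum_le_sum; intro i _
          rw [abs_mul]
          have h3 := hl i
          have := hx' i
          have h4 := (abs_nonneg (l i : ℝ)).trans h3
          gcongr
      _ = _ := by rw [sum_const, card_univ, nsmul_eq_mul]; ring
  calc _ ≤ |∑ i, ∑ j, (A i j : ℝ) * x i * x j| + |∑ i, (l i : ℝ) * x i| + |(c : ℝ)| := abs_add_three _ _ _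
    _ ≤ sa A * R ^ 2 + Fintype.card ι * B * R ^ 2 + B * R ^ 2 := by linarith
    _ = _ := by ring

/-- restriction to an interval -/
noncomputable def rs (u v : ℤ) (f : ℤ → ℝ) (m : ℤ) : ℝ := if u < m ∧ m ≤ v then f m else 0

theorem rs_le {u v : ℤ} {f : ℤ → ℝ} (hf : ∀ n, |f n| ≤ 1) (m : ℤ) : |rs u v f m| ≤ 1 := by
  unfold rs
  split_ifs
  · exact hf m
  · simp

theorem sum_shift (f : ℤ → ℝ) (y : ℤ) (L : ℕ) : ∑ j ∈ Icc 1 L, f (y + (j : ℕ)) = ∑ m ∈ Ioc y (y + L), f m := by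
  apply sum_bij (fun (j : ℕ) _ => y + (j : ℤ))
  · intro j hj; rw [mem_Icc] at hj; rw [mem_Ioc]; omega
  · intro i _ j _ h; simpa using h
  · intro m hm
    rw [mem_Ioc] at hm
    refine ⟨(m - y).toNat, ?_, ?_⟩
    · rw [mem_Icc]; omega
    · omega
  · intro j _; rfl

theorem sum_rs (f : ℤ → ℝ) (u v y z : ℤ) : ∑ m ∈ Ioc y z, rs u v f m = ∑ m ∈ Ioc (max y u) (min z v), f m := by
  unfold rs
  rw [← sum_filter]
  congr 1
  ext m
  simp only [mem_filter, mem_Ioc]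
  omega

open Classical in
/-- The short interval counts. -/
theorem short_count (A : ι → ι → ℤ) (l : ι → ℤ) (c : ℤ) {a b : ι → ℤ} {n : ℕ} (hn : ∀ i, b i - a i ≤ n)
    {H L : ℕ} (hH : 1 ≤ H) (hL : 1 ≤ L) {ε : ℝ} (hε : 0 < ε) (hHL : 2 * (H : ℝ) ≤ ε * L)
    (hstar : ∀ f : ℤ → ℝ, (∀ n, |f n| ≤ 1) →
      |∑ x ∈ Fintype.piFinset (fun i => Ioc (a i) (b i)), ∑ h ∈ Icc 1 H, ∑ j ∈ Icc 1 L,
        (1 / ((H : ℝ) * L)) * (f (Pol A l c x + h) - f (Pol A l c x + h + j))| ≤ ε * n ^ Fintype.card ι) (w : ℤ) :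
    (#{x ∈ Fintype.piFinset (fun i => Ioc (a i) (b i)) | w - H < Pol A l c x ∧ Pol A l c x ≤ w} : ℝ) ≤
      2 * ε * n ^ Fintype.card ι := by
  set B := Fintype.piFinset (fun i => Ioc (a i) (b i)) with hB
  have hH0 : (0 : ℝ) < H := by exact_mod_cast hH
  have hL0 : (0 : ℝ) < L := by exact_mod_cast hL
  set f : ℤ → ℝ := rs (w - H) (w + H) (fun _ => 1) with hf
  have hf1 : ∀ n, |f n| ≤ 1 := fun n => rs_le (by simp) n
  have hf0 : ∀ n, 0 ≤ f n := by
    intro n; rw [hf]; unfold rs; split_ifs <;> norm_num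
  have h1 := hstar f hf1
  have hcardB : (#B : ℝ) ≤ n ^ Fintype.card ι := by
    rw [hB, Fintype.card_piFinset]
    push_cast
    calc ∏ i, ((#(Ioc (a i) (b i)) : ℕ) : ℝ) ≤ ∏ _i : ι, (n : ℝ) := by
          apply prod_le_prod (fun i _ => Nat.cast_nonneg _)
          intro i _
          rw [Int.card_Ioc]
          have := hn i
          have h : (b i - a i).toNat ≤ n := by omega
          exact_mod_cast h
      _ = _ := by rw [prod_const, card_univ]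
  have e1 : ∑ x ∈ B, ∑ h ∈ Icc 1 H, ∑ j ∈ Icc 1 L,
        (1 / ((H : ℝ) * L)) * (f (Pol A l c x + h) - f (Pol A l c x + h + j)) =
      ∑ x ∈ B, (1 / (H : ℝ)) * ∑ h ∈ Icc 1 H, f (Pol A l c x + (h : ℕ)) -
        ∑ x ∈ B, (1 / ((H : ℝ) * L)) * ∑ h ∈ Icc 1 H, ∑ j ∈ Icc 1 L, f (Pol A l c x + (h : ℕ) + (j : ℕ)) := by
    rw [← sum_sub_distrib]
    refine sum_congr rfl fun x _ => ?_
    rw [mul_sum, mul_sum, ← sum_sub_distrib]
    refine sum_congr rfl fun h _ => ?_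
    rw [← mul_sum, sum_sub_distrib, sum_const, Nat.card_Icc, nsmul_eq_mul, Nat.add_sub_cancel, mul_sub]
    congr 1
    field_simp
  have h2 : ∑ x ∈ B, (1 / ((H : ℝ) * L)) * ∑ h ∈ Icc 1 H, ∑ j ∈ Icc 1 L, f (Pol A l c x + (h : ℕ) + (j : ℕ)) ≤
      ε * n ^ Fintype.card ι := by
    have h3 : ∀ x ∈ B, (1 / ((H : ℝ) * L)) * ∑ h ∈ Icc 1 H, ∑ j ∈ Icc 1 L, f (Pol A l c x + (h : ℕ) + (j : ℕ)) ≤ ε := by
      intro x _
      have h4 : ∀ h ∈ Icc 1 H, ∑ j ∈ Icc 1 L, f (Pol A l c x + (h : ℕ) + (j : ℕ)) ≤ 2 * H := by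
        intro h _
        rw [sum_shift, hf, sum_rs, sum_const, nsmul_eq_mul, mul_one, Int.card_Ioc]
        have : (min (Pol A l c x + (h : ℕ) + L) (w + H) - max (Pol A l c x + (h : ℕ)) (w - H)).toNat ≤ 2 * H := by omega
        exact_mod_cast this
      calc (1 / ((H : ℝ) * L)) * ∑ h ∈ Icc 1 H, ∑ j ∈ Icc 1 L, f (Pol A l c x + (h : ℕ) + (j : ℕ)) ≤
          (1 / ((H : ℝ) * L)) * ∑ h ∈ Icc 1 H, (2 * H : ℝ) := by
            apply mul_le_mul_of_nonneg_left (sum_le_sum h4) (by positivity)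
        _ = 2 * H / L := by
            rw [sum_const, Nat.card_Icc, nsmul_eq_mul, Nat.add_sub_cancel]
            field_simp
        _ ≤ ε := by rw [div_le_iff₀ hL0]; exact hHL
    calc _ ≤ ∑ x ∈ B, ε := sum_le_sum h3
      _ = #B * ε := by rw [sum_const, nsmul_eq_mul]
      _ ≤ n ^ Fintype.card ι * ε := by gcongr
      _ = _ := by ring
  have h3 : (#{x ∈ B | w - H < Pol A l c x ∧ Pol A l c x ≤ w} : ℝ) ≤
      ∑ x ∈ B, (1 / (H : ℝ)) * ∑ h ∈ Icc 1 H, f (Pol A l c x + (h : ℕ)) := by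
    rw [card_filter]
    push_cast
    apply sum_le_sum
    intro x _
    split_ifs with hx
    · have h4 : ∀ h ∈ Icc 1 H, f (Pol A l c x + (h : ℕ)) = 1 := by
        intro h hh
        rw [mem_Icc] at hh
        rw [hf]; unfold rs
        rw [if_pos]
        omega
      rw [sum_congr rfl h4, sum_const, Nat.card_Icc, nsmul_eq_mul, Nat.add_sub_cancel, mul_one]
      have : 1 / (H : ℝ) * H = 1 := by field_simp
      rw [this]
    · apply mul_nonneg (by positivity)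
      exact sum_nonneg fun h _ => hf0 _
  rw [e1] at h1
  have h4 := (abs_le.1 h1).2
  linarith

theorem H_le (n : ℕ) (hn : 1 ≤ n) : 4 ^ Nat.sqrt (Nat.log 2 n) ≤ 2 * n := by
  set T := Nat.log 2 n with hT
  set u := Nat.sqrt T with hu
  have h1 : u ^ 2 ≤ T := Nat.sqrt_le' T
  have h2 : 2 ^ T ≤ n := Nat.pow_log_le_self 2 (by omega)
  have h3 : 2 * u ≤ T + 1 := by nlinarith [sq_nonneg ((u : ℤ) - 1)]
  calc 4 ^ u = 2 ^ (2 * u) := by rw [pow_mul]; norm_num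
    _ ≤ 2 ^ (T + 1) := Nat.pow_le_pow_right (by norm_num) h3
    _ = 2 * 2 ^ T := by rw [pow_succ, mul_comm]
    _ ≤ 2 * n := by omega

/-- THE MAIN THEOREM for functions. -/
theorem main_f (A : ι → ι → ℤ) {p q r s : ι} (hpq : p ≠ q) (hrs : r ≠ s)
    (hdet : Sy A p r * Sy A q s - Sy A p s * Sy A q r ≠ 0) {B ε : ℝ} (hB : 0 < B) (hε : 0 < ε) :
    ∃ ε' : ℝ, 0 < ε' ∧ ∀ N₀ : ℕ, ∃ R₀ : ℕ, ∀ R : ℕ, R₀ ≤ R → ∀ f : ℤ → ℝ, Mer f →
      (∀ N : ℕ, N₀ ≤ N → ∀ y z : ℤ, |y| ≤ N → |z| ≤ N → |∑ m ∈ Ioc y z, f m| ≤ ε' * N) →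
      ∀ (l : ι → ℤ) (c : ℤ) (a b : ι → ℤ), (∀ i, |(l i : ℝ)| ≤ B * R) → |(c : ℝ)| ≤ B * R ^ 2 →
      (∀ i, |a i| ≤ R) → (∀ i, |b i| ≤ R) → ∀ u v : ℤ,
      |∑ x ∈ Fintype.piFinset (fun i => Ioc (a i) (b i)), rs u v f (Pol A l c x)| ≤ ε * R ^ Fintype.card ι := by
  classical
  set k := Fintype.card ι with hk
  set C0 : ℝ := sa A + k * B + B with hC0
  have hC00 : 0 < C0 := by positivity
  set Bd : ℝ := C0 + 4 with hBd
  have hBd0 : 0 < Bd := by positivity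
  set ε₁ : ℝ := ε / (12 * 2 ^ k) with hε1
  have hε10 : 0 < ε₁ := by positivity
  obtain ⟨κ, hκ0, hκ1, η, hη0, n₀, hstar⟩ := star A hpq hrs hdet hBd0 hε10
  obtain ⟨r', hpr⟩ : ∃ r', Sy A p r' ≠ 0 := by
    by_contra h
    push Not at h
    apply hdet
    rw [h r, h s]; ring
  obtain ⟨n₁, hbad⟩ := bad_count A hpr hε10
  obtain ⟨n₂, hlog⟩ := log_cond hη0 (sz A) (sz_pos hdet)
  refine ⟨ε₁ * κ / (2 * Bd), by positivity, fun N₀ => ⟨n₀ + n₁ + n₂ + N₀ + ⌈8 / (κ * ε₁)⌉₊ + ⌈2 / κ⌉₊ + 1,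
    fun R hR f hf hav l c a b hl hc ha hb u v => ?_⟩⟩
  set n : ℕ := 2 * R with hn
  have hR1 : 1 ≤ R := by omega
  have hn1 : 1 ≤ n := by omega
  have hRr : (1 : ℝ) ≤ R := by exact_mod_cast hR1
  have hnr : (n : ℝ) = 2 * R := by rw [hn]; push_cast; ring
  have hn0 : (0 : ℝ) < n := by rw [hnr]; linarith
  have hab : ∀ i, b i - a i ≤ n := by
    intro i
    have h1 := abs_le.1 (ha i)
    have h2 := abs_le.1 (hb i)
    rw [hn]; push_cast; omega
  set H : ℕ := 4 ^ Nat.sqrt (Nat.log 2 n) with hH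
  have hH1 : 1 ≤ H := Nat.one_le_pow _ _ (by norm_num)
  have hH0 : (0 : ℝ) < H := by exact_mod_cast hH1
  have hHn : (H : ℝ) ≤ 2 * n := by exact_mod_cast H_le n hn1
  have hRbig : 8 / (κ * ε₁) ≤ n ∧ 2 / κ ≤ n := by
    have h1 := Nat.le_ceil (8 / (κ * ε₁))
    have h2 := Nat.le_ceil (2 / κ)
    have h3 : ((n₀ + n₁ + n₂ + N₀ + ⌈8 / (κ * ε₁)⌉₊ + ⌈2 / κ⌉₊ + 1 : ℕ) : ℝ) ≤ R := by exact_mod_cast hR
    push_cast at h3
    have p1 : (0 : ℝ) ≤ n₀ := Nat.cast_nonneg _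
    have p2 : (0 : ℝ) ≤ n₁ := Nat.cast_nonneg _
    have p3 : (0 : ℝ) ≤ n₂ := Nat.cast_nonneg _
    have p4 : (0 : ℝ) ≤ N₀ := Nat.cast_nonneg _
    have p5 : (0 : ℝ) ≤ ⌈8 / (κ * ε₁)⌉₊ := Nat.cast_nonneg _
    have p6 : (0 : ℝ) ≤ ⌈2 / κ⌉₊ := Nat.cast_nonneg _
    rw [hnr]
    constructor <;> linarith
  set L : ℕ := ⌊κ * (n : ℝ) ^ 2⌋₊ with hL
  have hκn : 2 ≤ κ * (n : ℝ) ^ 2 := by
    have h1 := hRbig.2
    rw [div_le_iff₀ hκ0] at h1
    have h2 : (1 : ℝ) ≤ n := by exact_mod_cast hn1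
    nlinarith
  have hLle : (L : ℝ) ≤ κ * n ^ 2 := Nat.floor_le (by positivity)
  have hLge : κ * n ^ 2 / 2 ≤ L := by
    have := Nat.lt_floor_add_one (κ * (n : ℝ) ^ 2)
    rw [← hL] at this
    linarith
  have hL0 : (0 : ℝ) < L := by linarith
  have hL1 : 1 ≤ L := by exact_mod_cast hL0
  set X : ℕ := ⌈C0 * (R : ℝ) ^ 2⌉₊ + H + L + R with hX
  have hXle : (X : ℝ) ≤ Bd * n ^ 2 := by
    rw [hX]
    push_cast
    have h1 := Nat.ceil_lt_add_one (show 0 ≤ C0 * (R : ℝ) ^ 2 by positivity)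
    have h2 : (L : ℝ) ≤ n ^ 2 := hLle.trans (by nlinarith)
    rw [hnr] at hHn h2 ⊢
    have h3 : (R : ℝ) ≤ R ^ 2 := by nlinarith
    have h4 : C0 * (R : ℝ) ^ 2 ≤ C0 * (2 * R) ^ 2 := by nlinarith
    rw [hBd]
    nlinarith
  have hxR : ∀ x ∈ Fintype.piFinset (fun i => Ioc (a i) (b i)), ∀ i, |x i| ≤ R := by
    intro x hx i
    rw [Fintype.mem_piFinset] at hx
    have h1 := hx i
    rw [mem_Ioc] at h1
    have h2 := abs_le.1 (ha i)
    have h3 := abs_le.1 (hb i)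
    rw [abs_le]; omega
  have hXP : ∀ x ∈ Fintype.piFinset (fun i => Ioc (a i) (b i)), |Pol A l c x| + H + L + R ≤ X := by
    intro x hx
    have h1 := Pol_le A (hxR x hx) hl hc
    rw [← hk, ← hC0] at h1
    have h2 : |(Pol A l c x : ℝ)| ≤ (⌈C0 * (R : ℝ) ^ 2⌉₊ : ℝ) := h1.trans (Nat.le_ceil _)
    have h3 : |Pol A l c x| ≤ ((⌈C0 * (R : ℝ) ^ 2⌉₊ : ℕ) : ℤ) := by exact_mod_cast h2
    rw [hX]; push_cast
    linarith
  have hXP' : ∀ x ∈ Fintype.piFinset (fun i => Ioc (a i) (b i)), |Pol A l c x| + H + L ≤ X := by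
    intro x hx
    have := hXP x hx
    have h0 : (0 : ℤ) ≤ R := Int.natCast_nonneg _
    omega
  have hst := hstar n (by omega) H hH1 (hlog n (by omega)) L hL1 hLle l c a b hab X hXP' hXle
  have hHL : 2 * (H : ℝ) ≤ ε₁ * L := by
    have h1 := hRbig.1
    rw [div_le_iff₀ (by positivity)] at h1
    have h2 : ε₁ * (κ * n ^ 2 / 2) ≤ ε₁ * L := by gcongr
    nlinarith
  have hshort := short_count A l c hab hH1 hL1 hε10 hHL hst
  rw [← hk] at hshort
  -- merging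
  have hm : ∀ h ∈ Icc 1 H, (#{x ∈ Fintype.piFinset (fun i => Ioc (a i) (b i)) |
      rs u v f (Pol A l c x + (h : ℕ)) ≠ rs u v f (Pol A l c x)} : ℝ) ≤ 5 * ε₁ * n ^ k := by
    intro h hh
    rw [mem_Icc] at hh
    have h1 := hbad n (by omega) (h : ℤ) (by
      rw [abs_of_nonneg (by positivity)]
      exact_mod_cast hh.2) l c a b hab f hf
    rw [← hk] at h1
    have hsub : ({x ∈ Fintype.piFinset (fun i => Ioc (a i) (b i)) |
        rs u v f (Pol A l c x + (h : ℕ)) ≠ rs u v f (Pol A l c x)} : Finset (ι → ℤ)) ⊆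
        ({x ∈ Fintype.piFinset (fun i => Ioc (a i) (b i)) | f (Pol A l c x + (h : ℤ)) ≠ f (Pol A l c x)} ∪
        {x ∈ Fintype.piFinset (fun i => Ioc (a i) (b i)) | u - H < Pol A l c x ∧ Pol A l c x ≤ u}) ∪
        {x ∈ Fintype.piFinset (fun i => Ioc (a i) (b i)) | v - H < Pol A l c x ∧ Pol A l c x ≤ v} := by
      intro x hx
      rw [mem_filter] at hx
      rw [mem_union, mem_union, mem_filter, mem_filter, mem_filter]
      by_contra hcon
      push Not at hcon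
      obtain ⟨⟨c1, c2⟩, c3⟩ := hcon
      apply hx.2
      have c1' := c1 hx.1
      have c2' := c2 hx.1
      have c3' := c3 hx.1
      have hhH : (h : ℤ) ≤ H := by exact_mod_cast hh.2
      have hh1 : (1 : ℤ) ≤ h := by exact_mod_cast hh.1
      have e1 : (u < Pol A l c x + (h : ℤ) ∧ Pol A l c x + (h : ℤ) ≤ v) ↔ (u < Pol A l c x ∧ Pol A l c x ≤ v) := by
        constructor
        · rintro ⟨q1, q2⟩
          refine ⟨?_, by omega⟩
          by_contra h'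
          have := c2' (by omega)
          omega
        · rintro ⟨q1, q2⟩
          refine ⟨by omega, ?_⟩
          by_contra h'
          have := c3' (by omega)
          omega
      unfold rs
      by_cases h' : u < Pol A l c x ∧ Pol A l c x ≤ v
      · rw [if_pos h', if_pos (e1.2 h'), c1']
      · rw [if_neg h', if_neg (fun h'' => h' (e1.1 h''))]
    have h2 := hshort u
    have h3 := hshort v
    calc _ ≤ ((#{x ∈ Fintype.piFinset (fun i => Ioc (a i) (b i)) | f (Pol A l c x + (h : ℤ)) ≠ f (Pol A l c x)} : ℝ) +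
        #{x ∈ Fintype.piFinset (fun i => Ioc (a i) (b i)) | u - H < Pol A l c x ∧ Pol A l c x ≤ u}) +
        #{x ∈ Fintype.piFinset (fun i => Ioc (a i) (b i)) | v - H < Pol A l c x ∧ Pol A l c x ≤ v} := by
          exact_mod_cast (card_le_card hsub).trans ((card_union_le _ _).trans
            (Nat.add_le_add_right (card_union_le _ _) _))
      _ ≤ 5 * ε₁ * n ^ k := by linarith
  have hrs : ∀ m, |rs u v f m| ≤ 1 := fun m => rs_le hf.1 m
  have m1 := merge_avg A l c hH1 hrs hm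
  have m2 := hst (rs u v f) hrs
  rw [← hk] at m2
  set Bx := Fintype.piFinset (fun i => Ioc (a i) (b i)) with hBx
  have e1 : ∑ x ∈ Bx, ∑ h ∈ Icc 1 H, ∑ j ∈ Icc 1 L,
        (1 / ((H : ℝ) * L)) * (rs u v f (Pol A l c x + h) - rs u v f (Pol A l c x + h + j)) =
      (1 / (H : ℝ)) * ∑ x ∈ Bx, ∑ h ∈ Icc 1 H, rs u v f (Pol A l c x + (h : ℕ)) -
        ∑ x ∈ Bx, (1 / ((H : ℝ) * L)) * ∑ h ∈ Icc 1 H, ∑ j ∈ Icc 1 L, rs u v f (Pol A l c x + (h : ℕ) + (j : ℕ)) := by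
    rw [mul_sum, ← sum_sub_distrib]
    refine sum_congr rfl fun x _ => ?_
    rw [mul_sum, mul_sum, ← sum_sub_distrib]
    refine sum_congr rfl fun h _ => ?_
    rw [← mul_sum, sum_sub_distrib, sum_const, Nat.card_Icc, nsmul_eq_mul, Nat.add_sub_cancel, mul_sub]
    congr 1
    field_simp
  have hcardB : (#Bx : ℝ) ≤ n ^ k := by
    rw [hBx, Fintype.card_piFinset]
    push_cast
    calc ∏ i, ((#(Ioc (a i) (b i)) : ℕ) : ℝ) ≤ ∏ _i : ι, (n : ℝ) := by
          apply prod_le_prod (fun i _ => Nat.cast_nonneg _)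
          intro i _
          rw [Int.card_Ioc]
          have := hab i
          have h : (b i - a i).toNat ≤ n := by omega
          exact_mod_cast h
      _ = _ := by rw [prod_const, card_univ]
  have m3 : |∑ x ∈ Bx, (1 / ((H : ℝ) * L)) * ∑ h ∈ Icc 1 H, ∑ j ∈ Icc 1 L, rs u v f (Pol A l c x + (h : ℕ) + (j : ℕ))| ≤
      ε₁ * n ^ k := by
    have h3 : ∀ x ∈ Bx, |(1 / ((H : ℝ) * L)) * ∑ h ∈ Icc 1 H, ∑ j ∈ Icc 1 L, rs u v f (Pol A l c x + (h : ℕ) + (j : ℕ))| ≤ ε₁ := by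
      intro x hx
      have hPx := hXP x hx
      have h4 : ∀ h ∈ Icc 1 H, |∑ j ∈ Icc 1 L, rs u v f (Pol A l c x + (h : ℕ) + (j : ℕ))| ≤ ε₁ * κ / (2 * Bd) * X := by
        intro h hh
        rw [mem_Icc] at hh
        rw [sum_shift, sum_rs]
        have hhH : (h : ℤ) ≤ H := by exact_mod_cast hh.2
        have hh1 : (1 : ℤ) ≤ h := by exact_mod_cast hh.1
        have q1 := neg_abs_le (Pol A l c x)
        have q2 := le_abs_self (Pol A l c x)
        have hR0 : (0 : ℤ) ≤ R := Int.natCast_nonneg _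
        have hL0' : (0 : ℤ) ≤ L := Int.natCast_nonneg _
        set y := max (Pol A l c x + (h : ℤ)) u with hy
        set z := min (Pol A l c x + (h : ℤ) + L) v with hz
        rcases le_total z y with hzy | hzy
        · rw [Ioc_eq_empty (by omega), sum_empty, abs_zero]
          positivity
        · apply hav X (by omega) y z
          · rw [abs_le]; omega
          · rw [abs_le]; omega
      rw [abs_mul, abs_of_pos (by positivity : 0 < 1 / ((H : ℝ) * L))]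
      calc (1 / ((H : ℝ) * L)) * |∑ h ∈ Icc 1 H, ∑ j ∈ Icc 1 L, rs u v f (Pol A l c x + (h : ℕ) + (j : ℕ))| ≤
          (1 / ((H : ℝ) * L)) * ∑ h ∈ Icc 1 H, (ε₁ * κ / (2 * Bd) * X) := by
            apply mul_le_mul_of_nonneg_left _ (by positivity)
            exact (abs_sum_le_sum_abs _ _).trans (sum_le_sum h4)
        _ = (ε₁ * κ / (2 * Bd)) * X / L := by
            rw [sum_const, Nat.card_Icc, nsmul_eq_mul, Nat.add_sub_cancel]
            field_simp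
        _ ≤ (ε₁ * κ / (2 * Bd)) * (Bd * n ^ 2) / (κ * n ^ 2 / 2) := by gcongr
        _ = ε₁ := by field_simp
    calc _ ≤ ∑ x ∈ Bx, ε₁ := (abs_sum_le_sum_abs _ _).trans (sum_le_sum h3)
      _ = #Bx * ε₁ := by rw [sum_const, nsmul_eq_mul]
      _ ≤ n ^ k * ε₁ := by gcongr
      _ = _ := by ring
  rw [e1] at m2
  have htot : |∑ x ∈ Bx, rs u v f (Pol A l c x)| ≤ 12 * ε₁ * n ^ k := by
    rw [abs_le] at m1 m2 m3 ⊢
    constructor <;> linarith [m1.1, m1.2, m2.1, m2.2, m3.1, m3.2]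
  refine htot.trans (le_of_eq ?_)
  rw [hnr, mul_pow, hε1]
  field_simp

end Pool.Agent.Run7.h145.QP
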