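import Pool.Agent.Run7.h145.QP.E1
import Pool.Agent.W41.Dens

/-! The main theorem, for invariant sets. -/

set_option autoImplicit false

namespace Pool.Agent.Run7.h145.QP

open Finset Pool.Agent.H499R2.ND Pool.Agent.W41 Filter Topology

open Classical in
/-- indicator minus density -/
noncomputable def fS (S : Set ℤ) (δ δ' : ℝ) (m : ℤ) : ℝ :=
  (if m ∈ S then 1 else 0) - (if 0 < m then δ else if m < 0 then δ' else 0)

theorem fS_le (S : Set ℤ) {δ δ' : ℝ} (h : 0 ≤ δ ∧ δ ≤ 1) (h' : 0 ≤ δ' ∧ δ' ≤ 1) (m : ℤ) : |fS S δ δ' m| ≤ 1 := by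
  unfold fS
  rw [abs_le]
  split_ifs <;> constructor <;> linarith [h.1, h.2, h'.1, h'.2]

theorem sum_split (f : ℤ → ℝ) {a b c : ℤ} (hab : a ≤ b) (hbc : b ≤ c) :
    ∑ m ∈ Ioc a b, f m + ∑ m ∈ Ioc b c, f m = ∑ m ∈ Ioc a c, f m := by
  rw [← sum_union]
  · congr 1
    ext m
    simp only [mem_union, mem_Ioc]
    omega
  · rw [disjoint_left]
    intro m h1 h2
    rw [mem_Ioc] at h1 h2
    omega

theorem sum_pos_side (S : Set ℤ) (δ δ' : ℝ) (z : ℕ) :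
    ∑ m ∈ Ioc (0 : ℤ) z, fS S δ δ' m = cF 1 S z - δ * z := by
  classical
  have h := sum_shift (fS S δ δ') 0 z
  rw [zero_add] at h
  rw [← h]
  have e : ∀ j ∈ Icc 1 z, fS S δ δ' (0 + (j : ℕ)) = (if 1 * ((j : ℕ) : ℤ) ∈ S then (1 : ℝ) else 0) - δ := by
    intro j hj
    rw [mem_Icc] at hj
    have hj0 : (0 : ℤ) < j := by exact_mod_cast hj.1
    unfold fS
    rw [zero_add, one_mul, if_pos hj0]
  rw [sum_congr rfl e, sum_sub_distrib, sum_const, Nat.card_Icc, nsmul_eq_mul, Nat.add_sub_cancel, ← sum_filter,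
    sum_const, nsmul_eq_mul, mul_one]
  unfold cF
  rw [mul_comm]

theorem sum_neg_side (S : Set ℤ) (δ δ' : ℝ) (z : ℕ) :
    ∑ m ∈ Ioc (-(z : ℤ) - 1) (-1), fS S δ δ' m = cF (-1) S z - δ' * z := by
  classical
  have h : ∑ j ∈ Icc 1 z, fS S δ δ' (-(j : ℕ)) = ∑ m ∈ Ioc (-(z : ℤ) - 1) (-1), fS S δ δ' m := by
    apply sum_bij (fun (j : ℕ) _ => -(j : ℤ))
    · intro j hj; rw [mem_Icc] at hj; rw [mem_Ioc]; omega
    · intro i _ j _ h; simpa using h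
    · intro m hm
      rw [mem_Ioc] at hm
      refine ⟨(-m).toNat, ?_, ?_⟩
      · rw [mem_Icc]; omega
      · omega
    · intro j _; rfl
  rw [← h]
  have e : ∀ j ∈ Icc 1 z, fS S δ δ' (-(j : ℕ)) = (if -1 * ((j : ℕ) : ℤ) ∈ S then (1 : ℝ) else 0) - δ' := by
    intro j hj
    rw [mem_Icc] at hj
    have hj0 : (0 : ℤ) < j := by exact_mod_cast hj.1
    have a1 : ¬ (0 : ℤ) < -((j : ℕ) : ℤ) := by omega
    have a2 : -((j : ℕ) : ℤ) < 0 := by omega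
    unfold fS
    rw [if_neg a1, if_pos a2, neg_one_mul]
  rw [sum_congr rfl e, sum_sub_distrib, sum_const, Nat.card_Icc, nsmul_eq_mul, Nat.add_sub_cancel, ← sum_filter,
    sum_const, nsmul_eq_mul, mul_one]
  unfold cF
  rw [mul_comm]

theorem cF_bound {s : ℤ} {ε : ℝ} (hε : 0 < ε) {N0 : ℕ} {S : Set ℤ} {δ : ℝ} (hδ : 0 ≤ δ ∧ δ ≤ 1)
    (h : ∀ N : ℕ, N0 ≤ N → |(cF s S N : ℝ) - δ * N| ≤ ε * N) {N z : ℕ} (hz : z ≤ N) (hN : (N0 : ℝ) ≤ ε * N) :
    |(cF s S z : ℝ) - δ * z| ≤ ε * N := by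
  rcases le_total N0 z with h1 | h1
  · refine (h z h1).trans ?_
    have : (z : ℝ) ≤ N := by exact_mod_cast hz
    gcongr
  · have h2 : cF s S z ≤ z := by
      classical
      unfold cF
      refine (card_filter_le _ _).trans ?_
      rw [Nat.card_Icc]; omega
    have h2r : (cF s S z : ℝ) ≤ z := by exact_mod_cast h2
    have h0 : (0 : ℝ) ≤ cF s S z := Nat.cast_nonneg _
    have hz0 : (0 : ℝ) ≤ z := Nat.cast_nonneg _
    have h1r : (z : ℝ) ≤ N0 := by exact_mod_cast h1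
    have h3 : δ * z ≤ 1 * z := mul_le_mul_of_nonneg_right hδ.2 hz0
    have h4 : 0 ≤ δ * z := mul_nonneg hδ.1 hz0
    rw [abs_le]
    constructor <;> linarith

/-- Averages over intervals. -/
theorem avg_of {ε : ℝ} (hε : 0 < ε) : ∃ N₀ : ℕ, ∀ S : Set ℤ, Inv 1 S → ∀ δ δ' : ℝ, HD 1 S δ → HD (-1) S δ' →
    0 ≤ δ ∧ δ ≤ 1 → 0 ≤ δ' ∧ δ' ≤ 1 → ∀ N : ℕ, N₀ ≤ N → ∀ y z : ℤ, |y| ≤ N → |z| ≤ N →
    |∑ m ∈ Ioc y z, fS S δ δ' m| ≤ ε * N := by
  obtain ⟨N1, h1⟩ := unif (s := 1) (Or.inl rfl) (show 0 < ε / 4 by positivity)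
  obtain ⟨N2, h2⟩ := unif (s := -1) (Or.inr rfl) (show 0 < ε / 4 by positivity)
  refine ⟨⌈((N1 + N2 + 1 : ℕ) : ℝ) / (ε / 4)⌉₊, fun S hS δ δ' hδ hδ' b b' N hN y z hy hz => ?_⟩
  have hN' : ((N1 + N2 + 1 : ℕ) : ℝ) ≤ ε / 4 * N := by
    have h3 := Nat.le_ceil (((N1 + N2 + 1 : ℕ) : ℝ) / (ε / 4))
    have h4 : (⌈((N1 + N2 + 1 : ℕ) : ℝ) / (ε / 4)⌉₊ : ℝ) ≤ N := by exact_mod_cast hN
    have h5 := h3.trans h4
    rw [div_le_iff₀ (by positivity)] at h5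
    linarith
  push_cast at hN'
  have p1 : (0 : ℝ) ≤ N1 := Nat.cast_nonneg _
  have p2 : (0 : ℝ) ≤ N2 := Nat.cast_nonneg _
  have hpos : ∀ z : ℤ, 0 ≤ z → |z| ≤ N → |∑ m ∈ Ioc 0 z, fS S δ δ' m| ≤ ε / 2 * N := by
    intro z hz0 hz
    obtain ⟨w, rfl⟩ : ∃ w : ℕ, z = w := ⟨z.toNat, (Int.toNat_of_nonneg hz0).symm⟩
    rw [abs_of_nonneg hz0] at hz
    have hw : w ≤ N := by exact_mod_cast hz
    rw [sum_pos_side]
    have h5 := cF_bound (by positivity) b (h1 S hS δ hδ) hw (by linarith)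
    refine h5.trans ?_
    have : (0 : ℝ) ≤ N := Nat.cast_nonneg _
    nlinarith
  have hneg : ∀ z : ℤ, z ≤ 0 → |z| ≤ N → |∑ m ∈ Ioc z 0, fS S δ δ' m| ≤ ε / 2 * N := by
    intro z hz0 hz
    rw [abs_of_nonpos hz0] at hz
    rcases eq_or_lt_of_le hz0 with h0 | h0
    · rw [h0, Ioc_self, sum_empty, abs_zero]; positivity
    · obtain ⟨w, hw⟩ : ∃ w : ℕ, z = -(w : ℤ) - 1 := ⟨(-z - 1).toNat, by omega⟩
      have hwN : w ≤ N := by omega
      rw [← sum_split (fS S δ δ') (show z ≤ -1 by omega) (show (-1 : ℤ) ≤ 0 by norm_num), hw, sum_neg_side]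
      have h5 := cF_bound (by positivity) b' (h2 S hS δ' hδ') hwN (by linarith)
      have h6 : ∑ m ∈ Ioc (-1 : ℤ) 0, fS S δ δ' m = fS S δ δ' 0 := by
        have : Ioc (-1 : ℤ) 0 = {0} := by ext m; simp only [mem_Ioc, mem_singleton]; omega
        rw [this, sum_singleton]
      rw [h6]
      have h7 := fS_le S b b' 0
      refine (abs_add_le _ _).trans ?_
      linarith
  rcases le_total z y with hzy | hzy
  · rw [Ioc_eq_empty (by omega), sum_empty, abs_zero]; positivity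
  rcases le_total 0 y with hy0 | hy0
  · have e := sum_split (fS S δ δ') hy0 hzy
    have q1 := hpos y hy0 hy
    have q2 := hpos z (hy0.trans hzy) hz
    rw [abs_le] at q1 q2 ⊢
    constructor <;> linarith [q1.1, q1.2, q2.1, q2.2]
  · rcases le_total 0 z with hz0 | hz0
    · have e := sum_split (fS S δ δ') hy0 hz0
      have q1 := hneg y hy0 hy
      have q2 := hpos z hz0 hz
      rw [abs_le] at q1 q2 ⊢
      constructor <;> linarith [q1.1, q1.2, q2.1, q2.2]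
    · have e := sum_split (fS S δ δ') hzy hz0
      have q1 := hneg y hy0 hy
      have q2 := hneg z hz0 hz
      rw [abs_le] at q1 q2 ⊢
      constructor <;> linarith [q1.1, q1.2, q2.1, q2.2]

end Pool.Agent.Run7.h145.QP
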